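import Pool.Agent.REG.Mono

/-!
Degree complexes of powers of the edge ideal in terms of matchings in the blow-up graph.
-/

set_option autoImplicit false

namespace Pool.Agent.REG

open Finset

variable {n : ℕ}

/-- Underlying vertex of a copy. -/
def sv (z : ℕ ×ₗ Fin n) : Fin n := (ofLex z).2

theorem mem_Cop {a : Fin n → ℕ} {z : ℕ ×ₗ Fin n} :
    z ∈ Cop a ↔ 1 ≤ (ofLex z).1 ∧ (ofLex z).1 ≤ a (sv z) := by
  unfold Cop sv
  simp only [mem_biUnion, mem_univ, true_and, mem_image, mem_range]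
  constructor
  · rintro ⟨v, j, hj, rfl⟩
    simp only [ofLex_toLex]
    omega
  · rintro ⟨h1, h2⟩
    refine ⟨(ofLex z).2, (ofLex z).1 - 1, by omega, ?_⟩
    have : (ofLex z).1 - 1 + 1 = (ofLex z).1 := by omega
    rw [this]
    rfl

theorem mem_map_bot0 {P : Finset (Fin n)} {z : ℕ ×ₗ Fin n} :
    z ∈ P.map (bot0 n).toEmbedding ↔ (ofLex z).1 = 0 ∧ sv z ∈ P := by
  rw [mem_map]
  constructor
  · rintro ⟨v, hv, rfl⟩
    exact ⟨rfl, hv⟩
  · rintro ⟨h1, h2⟩
    refine ⟨_, h2, ?_⟩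
    change toLex ((0 : ℕ), (ofLex z).2) = z
    rw [← h1]
    rfl

theorem card_Cop_fiber (a : Fin n → ℕ) (v : Fin n) :
    ((Cop a).filter (fun z => sv z = v)).card = a v := by
  have h : (Cop a).filter (fun z => sv z = v) =
      (range (a v)).image (fun j => toLex (j + 1, v)) := by
    ext z
    simp only [mem_filter, mem_Cop, mem_image, mem_range]
    constructor
    · rintro ⟨⟨h1, h2⟩, rfl⟩
      refine ⟨(ofLex z).1 - 1, by omega, ?_⟩
      have : (ofLex z).1 - 1 + 1 = (ofLex z).1 := by omega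
      rw [this]
      rfl
    · rintro ⟨j, hj, rfl⟩
      simp only [sv, ofLex_toLex, and_true]
      omega
  rw [h, card_image_of_injective, card_range]
  intro i j hij
  have := congrArg (fun z => (ofLex z).1) hij
  simpa using this

/-- Copies of the neighbours of `T`. -/
noncomputable def NBx (G : SimpleGraph (Fin n)) (a : Fin n → ℕ) (T : Finset (Fin n)) :
    Finset (ℕ ×ₗ Fin n) := by
  classical
  exact (Cop a).filter (fun c => ∃ v ∈ T, G.Adj v (sv c))

theorem mem_NBx {G : SimpleGraph (Fin n)} {a : Fin n → ℕ} {T : Finset (Fin n)}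
    {z : ℕ ×ₗ Fin n} : z ∈ NBx G a T ↔ z ∈ Cop a ∧ ∃ v ∈ T, G.Adj v (sv z) := by
  classical
  unfold NBx
  rw [mem_filter]

theorem NB_eq (G : SimpleGraph (Fin n)) (P : Finset (Fin n)) (a : Fin n → ℕ)
    (T : Finset (Fin n)) (hTP : T ⊆ P) :
    NB (Blow G) (P.map (bot0 n).toEmbedding) (Cop a) (T.map (bot0 n).toEmbedding) =
      NBx G a T := by
  classical
  ext z
  rw [mem_NBx]
  unfold NB
  simp only [mem_union, mem_inter, mem_filter, mem_map_bot0, mem_Cop, Blow,
    SimpleGraph.comap_adj]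
  constructor
  · rintro (⟨⟨h1, _⟩, h2, _⟩ | ⟨h1, v, ⟨⟨_, h3⟩, _⟩, h4⟩)
    · omega
    · exact ⟨h1, sv v, h3, h4⟩
  · rintro ⟨h1, v, hv, hadj⟩
    exact Or.inr ⟨h1, toLex (0, v), ⟨⟨rfl, hv⟩, rfl, hTP hv⟩, hadj⟩

theorem XF_map_iff (G : SimpleGraph (Fin n)) (P : Finset (Fin n)) (a : Fin n → ℕ) (q : ℤ)
    (T : Finset (Fin n)) (hTP : T ⊆ P) :
    XF (Blow G) (P.map (bot0 n).toEmbedding) (Cop a) (Cop a) q (T.map (bot0 n).toEmbedding) ↔
      (∀ x ∈ T, ∀ y ∈ T, ¬ G.Adj x y) ∧
        ∀ M, IsM (Blow G) (Cop a \ NBx G a T) M → ((NBx G a T).card : ℤ) + (M.card : ℤ) ≤ q := by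
  unfold XF
  rw [NB_eq G P a T hTP]
  constructor
  · rintro ⟨_, _, h3, h4⟩
    refine ⟨fun x hx y hy hxy => ?_, h4⟩
    refine h3 (toLex (0, x)) ?_ (toLex (0, y)) ?_ hxy
    · rw [mem_inter, mem_map_bot0, mem_map_bot0]
      exact ⟨⟨rfl, hx⟩, rfl, hTP hx⟩
    · rw [mem_inter, mem_map_bot0, mem_map_bot0]
      exact ⟨⟨rfl, hy⟩, rfl, hTP hy⟩
  · rintro ⟨h3, h4⟩
    refine ⟨?_, ?_, ?_, h4⟩
    · intro z hz
      rw [mem_map_bot0] at hz
      rw [mem_union, mem_map_bot0]
      exact Or.inl ⟨hz.1, hTP hz.2⟩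
    · rw [Finset.disjoint_left]
      intro z hz hz'
      rw [mem_map_bot0] at hz
      rw [mem_Cop] at hz'
      omega
    · intro x hx y hy hxy
      rw [mem_inter, mem_map_bot0] at hx hy
      exact h3 _ hx.1.2 _ hy.1.2 hxy

theorem XF_sub (G : SimpleGraph (Fin n)) (P : Finset (Fin n)) (a : Fin n → ℕ) (q : ℤ)
    (T' : Finset (ℕ ×ₗ Fin n))
    (h : XF (Blow G) (P.map (bot0 n).toEmbedding) (Cop a) (Cop a) q T') :
    ∃ T, T ⊆ P ∧ T' = T.map (bot0 n).toEmbedding := by
  classical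
  obtain ⟨h1, h2, _⟩ := h
  refine ⟨P.filter (fun v => toLex (0, v) ∈ T'), filter_subset _ _, ?_⟩
  ext z
  rw [mem_map_bot0, mem_filter]
  constructor
  · intro hz
    have h3 := h1 hz
    rw [mem_union] at h3
    rcases h3 with h3 | h3
    · rw [mem_map_bot0] at h3
      refine ⟨h3.1, h3.2, ?_⟩
      have : toLex (0, sv z) = z := by rw [← h3.1]; rfl
      rw [this]; exact hz
    · exact absurd h3 (Finset.disjoint_left.mp h2 hz)
  · rintro ⟨h3, h4, h5⟩
    have : toLex (0, sv z) = z := by rw [← h3]; rfl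
    rwa [this] at h5

/-- From a large matching to a product of edges. -/
theorem memP_of_matching (G : SimpleGraph (Fin n)) (q : ℕ) (a c : Fin n → ℕ)
    (T : Finset (Fin n)) (hc : ∀ v, v ∉ T → a v ≤ c v) (hcT : ∀ v ∈ T, q + 1 ≤ c v)
    (M : Finset (Sym2 (ℕ ×ₗ Fin n)))
    (hM : IsM (Blow G) (Cop a \ NBx G a T) M) (hcard : q + 1 ≤ (NBx G a T).card + M.card) :
    memP G (q + 1) c := by
  classical
  have hrep : ∃ rep : Sym2 (ℕ ×ₗ Fin n) → (ℕ ×ₗ Fin n) × (ℕ ×ₗ Fin n),
      ∀ m, s((rep m).1, (rep m).2) = m := by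
    have : ∀ m : Sym2 (ℕ ×ₗ Fin n), ∃ p : (ℕ ×ₗ Fin n) × (ℕ ×ₗ Fin n), s(p.1, p.2) = m :=
      fun m => Sym2.ind (fun x y => ⟨(x, y), rfl⟩) m
    choose rep hrep using this
    exact ⟨rep, hrep⟩
  obtain ⟨rep, hrep⟩ := hrep
  have htt : ∃ tt : (ℕ ×ₗ Fin n) → Fin n, ∀ z ∈ NBx G a T, tt z ∈ T ∧ G.Adj (tt z) (sv z) := by
    have : ∀ z : ℕ ×ₗ Fin n, ∃ t : Fin n, z ∈ NBx G a T → t ∈ T ∧ G.Adj t (sv z) := by
      intro z
      by_cases hz : z ∈ NBx G a T
      · obtain ⟨_, t, ht, hadj⟩ := mem_NBx.mp hz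
        exact ⟨t, fun _ => ⟨ht, hadj⟩⟩
      · exact ⟨sv z, fun h => absurd h hz⟩
    choose tt htt using this
    exact ⟨tt, htt⟩
  obtain ⟨tt, htt⟩ := htt
  let E : (ℕ ×ₗ Fin n) ⊕ Sym2 (ℕ ×ₗ Fin n) → Fin n × Fin n :=
    Sum.elim (fun z => (tt z, sv z)) (fun m => (sv (rep m).1, sv (rep m).2))
  have hEM : ∀ m ∈ M, G.Adj (sv (rep m).1) (sv (rep m).2) := by
    intro m hm
    have := hM.edge m hm
    rw [← hrep m, SimpleGraph.mem_edgeSet] at this
    exact this
  have hcard' : q + 1 ≤ ((NBx G a T).disjSum M).card := by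
    rw [card_disjSum]; exact hcard
  obtain ⟨S, hS, hScard⟩ := exists_subset_card_eq hcard'
  have hadj : ∀ x ∈ S, G.Adj (E x).1 (E x).2 := by
    intro x hx
    have := hS hx
    rw [mem_disjSum] at this
    rcases this with ⟨z, hz, rfl⟩ | ⟨m, hm, rfl⟩
    · exact (htt z hz).2
    · exact hEM m hm
  let ε := Finset.equivFinOfCardEq hScard
  rw [memP_iff]
  have hadjE : ∀ j, G.Adj (E (ε.symm j : S)).1 (E (ε.symm j : S)).2 :=
    fun j => hadj _ (ε.symm j).2
  refine ⟨fun j => E (ε.symm j : S), hadjE, fun v => ?_⟩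
  by_cases hv : v ∈ T
  · exact (sum_use_le hadjE v).trans (hcT v hv)
  · refine le_trans ?_ (hc v hv)
    have e1 : (∑ j, use (E (ε.symm j : S)) v) = ∑ x ∈ S, use (E x) v := by
      rw [Equiv.sum_comp ε.symm (fun x : S => use (E x) v)]
      exact Finset.sum_coe_sort S (fun x => use (E x) v)
    rw [e1]
    have e2 : (∑ x ∈ S, use (E x) v) ≤ ∑ x ∈ (NBx G a T).disjSum M, use (E x) v :=
      Finset.sum_le_sum_of_subset hS
    refine e2.trans ?_
    rw [sum_disjSum]
    have e3 : (∑ z ∈ NBx G a T, use (E (Sum.inl z)) v) =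
        ((NBx G a T).filter (fun z => sv z = v)).card := by
      rw [card_filter]
      refine Finset.sum_congr rfl (fun z hz => ?_)
      have : tt z ≠ v := fun h => hv (h ▸ (htt z hz).1)
      change use (tt z, sv z) v = _
      unfold use
      rw [if_neg this, zero_add]
    have e4 : (∑ m ∈ M, use (E (Sum.inr m)) v) ≤
        ((Cop a \ NBx G a T).filter (fun z => sv z = v)).card := by
      have e5 : (∑ m ∈ M, use (E (Sum.inr m)) v) ≤
          ∑ m ∈ M, ((Cop a \ NBx G a T).filter (fun z => z ∈ m ∧ sv z = v)).card := by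
        refine Finset.sum_le_sum (fun m hm => ?_)
        by_cases h0 : use (E (Sum.inr m)) v = 0
        · rw [h0]; exact Nat.zero_le _
        · refine (use_le_one (G := G) (hEM m hm) v).trans ?_
          rw [Nat.succ_le_iff, Finset.card_pos]
          have h6 : sv (rep m).1 = v ∨ sv (rep m).2 = v := by
            by_contra hcon
            push Not at hcon
            refine h0 ?_
            change use (sv (rep m).1, sv (rep m).2) v = 0
            unfold use
            rw [if_neg hcon.1, if_neg hcon.2]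
          have m1 : (rep m).1 ∈ m := by
            have h := Sym2.mem_mk_left (rep m).1 (rep m).2
            rwa [hrep m] at h
          have m2 : (rep m).2 ∈ m := by
            have h := Sym2.mem_mk_right (rep m).1 (rep m).2
            rwa [hrep m] at h
          rcases h6 with h6 | h6
          · exact ⟨(rep m).1, by
              rw [mem_filter]; exact ⟨hM.sub m hm _ m1, m1, h6⟩⟩
          · exact ⟨(rep m).2, by
              rw [mem_filter]; exact ⟨hM.sub m hm _ m2, m2, h6⟩⟩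
      refine e5.trans ?_
      rw [← card_biUnion]
      · refine card_le_card ?_
        intro z hz
        rw [mem_biUnion] at hz
        obtain ⟨m, hm, hz⟩ := hz
        rw [mem_filter] at hz ⊢
        exact ⟨hz.1, hz.2.2⟩
      · intro m hm m' hm' hne
        rw [Function.onFun, Finset.disjoint_left]
        intro z hz hz'
        rw [mem_filter] at hz hz'
        exact hne (hM.disj m hm m' hm' z hz.2.1 hz'.2.1)
    rw [e3]
    refine (Nat.add_le_add_left e4 _).trans ?_
    rw [← card_Cop_fiber a v, ← card_union_of_disjoint]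
    · refine card_le_card ?_
      intro z hz
      rw [mem_union, mem_filter, mem_filter] at hz
      rw [mem_filter]
      rcases hz with hz | hz
      · exact ⟨(mem_NBx.mp hz.1).1, hz.2⟩
      · exact ⟨(mem_sdiff.mp hz.1).1, hz.2⟩
    · rw [Finset.disjoint_left]
      intro z hz hz'
      rw [mem_filter] at hz hz'
      exact (mem_sdiff.mp hz'.1).2 hz.1

theorem exists_rank {α : Type} (I : Finset α) :
    ∃ f : α → ℕ, (∀ i ∈ I, f i < I.card) ∧ ∀ i ∈ I, ∀ j ∈ I, f i = f j → i = j := by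
  classical
  refine ⟨fun i => if h : i ∈ I then (I.equivFin ⟨i, h⟩).val else 0, ?_, ?_⟩
  · intro i hi
    simp only [dif_pos hi]
    exact (I.equivFin ⟨i, hi⟩).2
  · intro i hi j hj hij
    simp only [dif_pos hi, dif_pos hj] at hij
    have := I.equivFin.injective (Fin.ext hij)
    exact congrArg Subtype.val this

/-- From a product of edges to a large matching. -/
theorem matching_of_memP (G : SimpleGraph (Fin n)) (q : ℕ) (a c : Fin n → ℕ)
    (T : Finset (Fin n)) (hT : ∀ x ∈ T, ∀ y ∈ T, ¬ G.Adj x y) (hc : ∀ v, v ∉ T → c v ≤ a v)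
    (h : memP G (q + 1) c) :
    ∃ M, IsM (Blow G) (Cop a \ NBx G a T) M ∧ q + 1 ≤ (NBx G a T).card + M.card := by
  classical
  rw [memP_iff] at h
  obtain ⟨e, he, hsum⟩ := h
  -- endpoints of incidences
  let ep : Fin (q + 1) × Bool → Fin n := fun i => if i.2 then (e i.1).2 else (e i.1).1
  have hep : ∀ v, (univ.filter (fun i => ep i = v)).card = ∑ j, use (e j) v := by
    intro v
    rw [card_filter, Fintype.sum_prod_type]
    refine Finset.sum_congr rfl (fun j _ => ?_)
    simp only [Fintype.sum_bool, ep, use, if_true, Bool.false_eq_true, if_false]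
    rw [add_comm]
  have hf : ∀ v, ∃ f : Fin (q + 1) × Bool → ℕ,
      (∀ i, ep i = v → f i < ∑ j, use (e j) v) ∧ ∀ i i', ep i = v → ep i' = v → f i = f i' →
        i = i' := by
    intro v
    obtain ⟨f, hf1, hf2⟩ := exists_rank (univ.filter (fun i => ep i = v))
    rw [hep v] at hf1
    exact ⟨f, fun i hi => hf1 i (by rw [mem_filter]; exact ⟨mem_univ _, hi⟩),
      fun i i' hi hi' hii => hf2 i (by rw [mem_filter]; exact ⟨mem_univ _, hi⟩) i'
        (by rw [mem_filter]; exact ⟨mem_univ _, hi'⟩) hii⟩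
  choose f hf1 hf2 using hf
  let cp : Fin (q + 1) × Bool → ℕ ×ₗ Fin n := fun i => toLex (f (ep i) i + 1, ep i)
  have hcp_inj : ∀ i i', cp i = cp i' → i = i' := by
    intro i i' hii
    have h1 : ep i = ep i' := congrArg (fun z => (ofLex z).2) hii
    have h2 : f (ep i) i + 1 = f (ep i') i' + 1 := congrArg (fun z => (ofLex z).1) hii
    refine hf2 (ep i) i i' rfl h1.symm ?_
    rw [← h1] at h2
    omega
  have hcp_mem : ∀ i, ep i ∉ T → cp i ∈ Cop a := by
    intro i hi
    rw [mem_Cop]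
    have h1 := hf1 (ep i) i rfl
    have h2 := hsum (ep i)
    have h3 := hc (ep i) hi
    change 1 ≤ f (ep i) i + 1 ∧ f (ep i) i + 1 ≤ a (ep i)
    omega
  -- neighbours of `T`
  let NT : Finset (Fin n) := univ.filter (fun x => ∃ t ∈ T, G.Adj t x)
  have hNT : ∀ x, x ∈ NT ↔ ∃ t ∈ T, G.Adj t x := fun x => by simp [NT]
  have hNTT : ∀ x ∈ NT, x ∉ T := by
    intro x hx hxT
    obtain ⟨t, ht, hadj⟩ := (hNT x).mp hx
    exact hT t ht x hxT hadj
  have hB : (NBx G a T).card = ∑ x ∈ NT, a x := by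
    have h1 : ∀ z ∈ NBx G a T, sv z ∈ NT := fun z hz => (hNT _).mpr (mem_NBx.mp hz).2
    rw [card_eq_sum_card_fiberwise h1]
    refine Finset.sum_congr rfl (fun x hx => ?_)
    rw [← card_Cop_fiber a x]
    congr 1
    ext z
    rw [mem_filter, mem_filter, mem_NBx]
    constructor
    · rintro ⟨⟨h1, _⟩, h2⟩; exact ⟨h1, h2⟩
    · rintro ⟨h1, h2⟩
      refine ⟨⟨h1, ?_⟩, h2⟩
      rw [h2]
      exact (hNT x).mp hx
  let A1 : Finset (Fin (q + 1)) := univ.filter (fun j => (e j).1 ∈ NT ∨ (e j).2 ∈ NT)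
  let A2 : Finset (Fin (q + 1)) := univ.filter (fun j => ¬ ((e j).1 ∈ NT ∨ (e j).2 ∈ NT))
  have hA : A1.card + A2.card = q + 1 := by
    have := Finset.card_filter_add_card_filter_not (s := (univ : Finset (Fin (q + 1))))
      (fun j => (e j).1 ∈ NT ∨ (e j).2 ∈ NT)
    rw [card_univ, Fintype.card_fin] at this
    exact this
  have hA1 : A1.card ≤ (NBx G a T).card := by
    rw [hB]
    calc A1.card = ∑ _j ∈ A1, 1 := by simp
      _ ≤ ∑ j ∈ A1, ∑ x ∈ NT, use (e j) x := by
        refine Finset.sum_le_sum (fun j hj => ?_)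
        rw [mem_filter] at hj
        rcases hj.2 with h | h
        · refine le_trans ?_ (Finset.single_le_sum (f := fun x => use (e j) x)
            (fun _ _ => Nat.zero_le _) h)
          simp [use]
        · refine le_trans ?_ (Finset.single_le_sum (f := fun x => use (e j) x)
            (fun _ _ => Nat.zero_le _) h)
          simp [use]
      _ ≤ ∑ j, ∑ x ∈ NT, use (e j) x := Finset.sum_le_sum_of_subset (filter_subset _ _)
      _ = ∑ x ∈ NT, ∑ j, use (e j) x := Finset.sum_comm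
      _ ≤ ∑ x ∈ NT, a x := Finset.sum_le_sum (fun x hx => (hsum x).trans (hc x (hNTT x hx)))
  have h2T : ∀ j ∈ A2, ((e j).1 ∉ NT ∧ (e j).2 ∉ NT) ∧ (e j).1 ∉ T ∧ (e j).2 ∉ T := by
    intro j hj
    rw [mem_filter] at hj
    have h1 := hj.2
    push Not at h1
    refine ⟨h1, fun h => h1.2 ((hNT _).mpr ⟨_, h, he j⟩), fun h =>
      h1.1 ((hNT _).mpr ⟨_, h, (he j).symm⟩)⟩
  let M : Finset (Sym2 (ℕ ×ₗ Fin n)) := A2.image (fun j => s(cp (j, false), cp (j, true)))
  have hMmem : ∀ m ∈ M, ∃ j ∈ A2, m = s(cp (j, false), cp (j, true)) := by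
    intro m hm
    rw [mem_image] at hm
    obtain ⟨j, hj, rfl⟩ := hm
    exact ⟨j, hj, rfl⟩
  have hMcard : M.card = A2.card := by
    refine card_image_of_injective _ ?_
    intro j j' hjj
    have h1 : cp (j, false) ∈ s(cp (j', false), cp (j', true)) := by
      have : cp (j, false) ∈ s(cp (j, false), cp (j, true)) := Sym2.mem_mk_left _ _
      have h2 : s(cp (j, false), cp (j, true)) = s(cp (j', false), cp (j', true)) := hjj
      rw [h2] at this
      exact this
    rw [Sym2.mem_iff] at h1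
    rcases h1 with h1 | h1
    · exact congrArg Prod.fst (hcp_inj _ _ h1)
    · exact congrArg Prod.fst (hcp_inj _ _ h1)
  refine ⟨M, ⟨?_, ?_, ?_⟩, ?_⟩
  · intro m hm
    obtain ⟨j, hj, rfl⟩ := hMmem m hm
    rw [SimpleGraph.mem_edgeSet]
    exact he j
  · intro m hm x hx
    obtain ⟨j, hj, rfl⟩ := hMmem m hm
    obtain ⟨⟨n1, n2⟩, t1, t2⟩ := h2T j hj
    rw [Sym2.mem_iff] at hx
    rw [mem_sdiff, mem_NBx]
    rcases hx with rfl | rfl
    · refine ⟨hcp_mem (j, false) t1, fun h => n1 ((hNT _).mpr h.2)⟩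
    · refine ⟨hcp_mem (j, true) t2, fun h => n2 ((hNT _).mpr h.2)⟩
  · intro m hm m' hm' x hx hx'
    obtain ⟨j, hj, rfl⟩ := hMmem m hm
    obtain ⟨j', hj', rfl⟩ := hMmem m' hm'
    rw [Sym2.mem_iff] at hx hx'
    have : j = j' := by
      rcases hx with rfl | rfl <;> rcases hx' with hx' | hx' <;>
        exact congrArg Prod.fst (hcp_inj _ _ hx')
    rw [this]
  · rw [hMcard]; omega

theorem tBlow : TBlow := by
  intro k _ n G q N P a hqN ha T'
  have key : ∀ T : Finset (Fin n), T ⊆ P →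
      (XF (Blow G) (P.map (bot0 n).toEmbedding) (Cop a) (Cop a) q
        (T.map (bot0 n).toEmbedding) ↔ KA (memP G (q + 1)) P P N a T) := by
    intro T hTP
    rw [XF_map_iff G P a q T hTP]
    unfold KA
    constructor
    · rintro ⟨h1, h2⟩
      refine ⟨hTP, fun hmem => ?_⟩
      obtain ⟨M, hM, hcard⟩ := matching_of_memP G q a _ T h1 (fun v hv => by
        rw [if_neg hv, if_neg (fun h => hv h.1)]; simp) hmem
      have := h2 M hM
      omega
    · rintro ⟨_, h2⟩
      refine ⟨fun x hx y hy hxy => h2 ?_, fun M hM => ?_⟩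
      · refine memP_of_adj hxy ?_ ?_
        · rw [if_pos hx, if_pos ⟨hx, hTP hx⟩]; omega
        · rw [if_pos hy, if_pos ⟨hy, hTP hy⟩]; omega
      · by_contra hcon
        refine h2 (memP_of_matching G q a _ T (fun v hv => ?_) (fun v hv => ?_) M hM
          (by omega))
        · omega
        · rw [if_pos hv, if_pos ⟨hv, hTP hv⟩]; omega
  constructor
  · intro h
    obtain ⟨T, hTP, rfl⟩ := XF_sub G P a q T' h
    exact ⟨T, (key T hTP).mp h, rfl⟩
  · rintro ⟨T, hT, rfl⟩
    exact (key T hT.1).mpr hT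

end Pool.Agent.REG
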