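import Pool.Agent.REG.Reg

/-!
Regularity of powers of edge ideals: shared definitions.

Everything is about families `K : Finset U → Prop` (simplicial complexes when `Down K`) on a
linearly ordered vertex type, and the vanishing of their reduced cohomology over a field.
-/

set_option autoImplicit false

namespace Pool.Agent.REG

open Finset

section Cochains

variable {U : Type} [LinearOrder U]

/-- Coboundary of an arbitrary function on finite sets. -/
def cob {k : Type} [Field k] (φ : Finset U → k) (T : Finset U) : k :=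
  ∑ t ∈ T, (-1 : k) ^ (T.filter (· < t)).card * φ (T.erase t)

/-- `Ex k K i`: the augmented cochain complex of the family `K` over `k` is exact in cardinality
`i`, i.e. the reduced cohomology in degree `i - 1` vanishes. -/
def Ex (k : Type) [Field k] (K : Finset U → Prop) (i : ℕ) : Prop :=
  ∀ φ : Finset U → k, (∀ T, K T → T.card = i + 1 → cob φ T = 0) →
    ∃ ψ : Finset U → k, ∀ T, K T → T.card = i → φ T = cob ψ T

/-- Reduced cohomology in degree `i - 1` vanishes for all `i > t`. -/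
def Van (k : Type) [Field k] (K : Finset U → Prop) (t : ℤ) : Prop :=
  ∀ i : ℕ, t < (i : ℤ) → Ex k K i

/-- Closed under subsets. -/
def Down (K : Finset U → Prop) : Prop := ∀ S T : Finset U, S ⊆ T → K T → K S

/-- Deletion of `w`. -/
def del (w : U) (K : Finset U → Prop) : Finset U → Prop := fun T => w ∉ T ∧ K T

/-- Link of `w`. -/
def lk (w : U) (K : Finset U → Prop) : Finset U → Prop := fun T => w ∉ T ∧ K (insert w T)

/-- `X ∪ w * Y`. Used when the faces of `X`, `Y` avoid `w` and `Y ≤ X`. -/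
def Co (w : U) (X Y : Finset U → Prop) : Finset U → Prop := fun T =>
  (w ∉ T ∧ X T) ∨ (w ∈ T ∧ Y (T.erase w))

theorem Van.mono {k : Type} [Field k] {K : Finset U → Prop} {s t : ℤ} (h : Van k K s)
    (hst : s ≤ t) : Van k K t := fun i hi => h i (lt_of_le_of_lt hst hi)

theorem Van.congr {k : Type} [Field k] {K K' : Finset U → Prop} {t : ℤ} (h : Van k K t)
    (hK : ∀ T, K' T ↔ K T) : Van k K' t := by
  have : K' = K := funext fun T => propext (hK T)
  rw [this]; exact h

theorem van_void {k : Type} [Field k] {K : Finset U → Prop} (h : ∀ T, ¬ K T) (t : ℤ) :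
    Van k K t := fun _ _ _ _ => ⟨fun _ => 0, fun T hT => absurd hT (h T)⟩

theorem van_dim {k : Type} [Field k] {K : Finset U → Prop} {d : ℤ}
    (h : ∀ T, K T → (T.card : ℤ) ≤ d) : Van k K d := fun i hi _ _ =>
  ⟨fun _ => 0, fun T hT hc => absurd (h T hT) (by rw [hc]; exact not_le.mpr hi)⟩

omit [LinearOrder U] in
theorem del_down {K : Finset U → Prop} (hK : Down K) (w : U) : Down (del w K) :=
  fun _ _ hST hT => ⟨fun h => hT.1 (hST h), hK _ _ hST hT.2⟩

theorem lk_down {K : Finset U → Prop} (hK : Down K) (w : U) : Down (lk w K) :=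
  fun _ _ hST hT => ⟨fun h => hT.1 (hST h), hK _ _ (Finset.insert_subset_insert w hST) hT.2⟩

end Cochains

section Graphs

variable {U : Type} [LinearOrder U]

/-- Independent sets of `Γ` inside `W`. -/
def IndF (Γ : SimpleGraph U) (W : Finset U) (T : Finset U) : Prop :=
  T ⊆ W ∧ ∀ x ∈ T, ∀ y ∈ T, ¬ Γ.Adj x y

/-- `M` is a matching of `Γ` inside `S`. -/
structure IsM (Γ : SimpleGraph U) (S : Finset U) (M : Finset (Sym2 U)) : Prop where
  edge : ∀ e ∈ M, e ∈ Γ.edgeSet
  sub : ∀ e ∈ M, ∀ x ∈ e, x ∈ S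
  disj : ∀ e ∈ M, ∀ f ∈ M, ∀ x, x ∈ e → x ∈ f → e = f

/-- Some matching of `Γ` inside `C` covers all of `R`. -/
def Sat (Γ : SimpleGraph U) (C R : Finset U) : Prop :=
  ∃ M, IsM Γ C M ∧ ∀ r ∈ R, ∃ e ∈ M, r ∈ e

/-- The family `L * B(C, R, q)`: faces `T` with `T \ C ∈ L`, `T ∩ R = ∅` and
`|T ∩ C| + ν(Γ[C \ T]) ≤ q`. -/
def KF (Γ : SimpleGraph U) (L : Finset U → Prop) (C R : Finset U) (q : ℤ) (T : Finset U) : Prop :=
  L (T \ C) ∧ Disjoint T R ∧
    ∀ M, IsM Γ (C \ T) M → ((T ∩ C).card : ℤ) + (M.card : ℤ) ≤ q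

/-- The part of `C` that is adjacent to `T ∩ V` or lies in `T`. -/
noncomputable def NB (Γ : SimpleGraph U) (V C T : Finset U) : Finset U := by
  classical
  exact (T ∩ C) ∪ C.filter (fun c => ∃ v ∈ T ∩ V, Γ.Adj v c)

/-- The family `X_R(C, q)`: faces `F ∪ D` with `F ⊆ V` independent, `D ⊆ C \ R` and
`B = (N(F) ∩ C) ∪ D` satisfies `|B| + ν(Γ[C \ B]) ≤ q`. -/
def XF (Γ : SimpleGraph U) (V C R : Finset U) (q : ℤ) (T : Finset U) : Prop :=
  T ⊆ V ∪ C ∧ Disjoint T R ∧ (∀ x ∈ T ∩ V, ∀ y ∈ T ∩ V, ¬ Γ.Adj x y) ∧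
    ∀ M, IsM Γ (C \ NB Γ V C T) M → ((NB Γ V C T).card : ℤ) + (M.card : ℤ) ≤ q

end Graphs

section Monomials

variable {V : Type} [LinearOrder V]

/-- For a monomial ideal with membership predicate `mem` (on exponent vectors), a finite set `P` of
variables, a subset `Q` of coordinates taken with large multiplicity `N`, and an exponent vector
`a`: the faces are the `T ⊆ P` such that `x^(a + 1_T + N 1_(T ∩ Q))` is not in the ideal.
`Q = ∅` gives the complex computing Koszul homology in multidegree `a + 1_P`; `Q = P` gives the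
degree complex. -/
def KA (mem : (V → ℕ) → Prop) (P Q : Finset V) (N : ℕ) (a : V → ℕ) (T : Finset V) : Prop :=
  T ⊆ P ∧ ¬ mem (fun v => a v + (if v ∈ T then 1 else 0) + (if v ∈ T ∧ v ∈ Q then N else 0))

/-- `mem` is upward closed. -/
def UpMem (mem : (V → ℕ) → Prop) : Prop := ∀ a b : V → ℕ, (∀ v, a v ≤ b v) → mem a → mem b

/-- Exponents above `N` do not matter. -/
def CapMem (mem : (V → ℕ) → Prop) (N : ℕ) : Prop :=
  ∀ a : V → ℕ, mem a → mem (fun v => min (a v) N)

end Monomials

section Ideals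

open MvPolynomial

/-- `x^c` is divisible by a product of `s` edges of `G`. -/
def memP {n : ℕ} (G : SimpleGraph (Fin n)) (s : ℕ) (c : Fin n → ℕ) : Prop :=
  ∃ e : Fin s → Fin n × Fin n, (∀ j, G.Adj (e j).1 (e j).2) ∧
    ∀ v, (∑ j, ((if (e j).1 = v then 1 else 0) + (if (e j).2 = v then 1 else 0))) ≤ c v

/-- Koszul homology of the ideal `J` (that is `Tor_i(J,k)`) vanishes in internal degree `d + i`. -/
def KosEx (k : Type) [Field k] {n : ℕ} (J : Ideal (MvPolynomial (Fin n) k)) (i d : ℕ) : Prop :=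
  ∀ f : Finset (Fin n) → MvPolynomial (Fin n) k,
    (∀ T : Finset (Fin n), T.card ≠ i → f T = 0) →
    (∀ T : Finset (Fin n), f T ∈ J ∧ (f T).IsHomogeneous d) →
    (∀ S : Finset (Fin n),
      ∑ t ∈ Finset.univ \ S,
        (-1 : MvPolynomial (Fin n) k) ^ (S.filter (· < t)).card * X t * f (insert t S) = 0) →
    ∃ g : Finset (Fin n) → MvPolynomial (Fin n) k,
      (∀ U : Finset (Fin n), U.card ≠ i + 1 → g U = 0) ∧
      (∀ U : Finset (Fin n), g U ∈ J ∧ (g U).IsHomogeneous (d - 1)) ∧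
      (∀ T : Finset (Fin n),
        f T = ∑ t ∈ Finset.univ \ T,
          (-1 : MvPolynomial (Fin n) k) ^ (T.filter (· < t)).card * X t * g (insert t T))

end Ideals

end Pool.Agent.REG
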