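import Pool.Agent.REG.Main

/-!
The regularity as a number, and the formula for all powers of an edge ideal.
-/

set_option autoImplicit false

namespace Pool.Agent.REG

open Finset

variable {k : Type} [Field k] {n : ℕ}

theorem RegLE.mono {J : Ideal (MvPolynomial (Fin n) k)} {r r' : ℕ} (h : RegLE k J r)
    (hr : r ≤ r') : RegLE k J r' := by
  obtain ⟨b, deg, g, d, h1, h2, h3, h4, h5, h6⟩ := h
  exact ⟨b, deg, g, d, h1, h2, h3, h4, h5, fun i j => (h6 i j).trans (by omega)⟩

theorem regLE_iff_reg_le {J : Ideal (MvPolynomial (Fin n) k)} (h : ∃ r, RegLE k J r) (r : ℕ) :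
    RegLE k J r ↔ reg k J ≤ r :=
  ⟨fun h' => Nat.sInf_le h', fun h' => RegLE.mono (Nat.sInf_mem (s := {r | RegLE k J r}) h) h'⟩

theorem reg_eq {J : Ideal (MvPolynomial (Fin n) k)} {m : ℕ} (h : ∀ r, RegLE k J r ↔ m ≤ r) :
    reg k J = m := by
  have h1 : RegLE k J m := (h m).mpr le_rfl
  apply le_antisymm
  · exact Nat.sInf_le h1
  · exact (h _).mp (Nat.sInf_mem (s := {r | RegLE k J r}) ⟨m, h1⟩)

theorem regLE_bot : RegLE k (⊥ : Ideal (MvPolynomial (Fin n) k)) 0 := by
  refine ⟨fun _ => 0, fun _ _ => 0, fun _ => 0, fun _ => 0, ?_, ?_, ?_, ?_, ?_, ?_⟩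
  · simp
  · exact fun j => j.elim0
  · exact fun _ s => s.elim0
  · intro v
    exact ⟨fun _ => ⟨0, Subsingleton.elim _ _⟩, fun _ => by simp⟩
  · intro i v
    exact ⟨fun _ => ⟨0, Subsingleton.elim _ _⟩, fun _ => Subsingleton.elim _ _⟩
  · exact fun _ j => j.elim0

theorem not_van_empty (G : SimpleGraph (Fin n)) {t : ℤ} (ht : t < 0) :
    ¬ Van k (IndF G ∅) t := by
  intro h
  obtain ⟨ψ, hψ⟩ := h 0 (by simpa using ht) (fun _ => 1) (by
    rintro T ⟨h1, _⟩ hc
    rw [Finset.subset_empty.mp h1] at hc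
    simp at hc)
  have := hψ ∅ ⟨le_rfl, by simp⟩ rfl
  simp [cob] at this

open Classical in
/-- the regularity of the quotient by the edge ideal, topologically -/
noncomputable def tA (k : Type) [Field k] {n : ℕ} (G : SimpleGraph (Fin n)) : ℕ :=
  sInf {t : ℕ | ∀ W : Finset (Fin n), Van k (IndF G W) t}

theorem van_tA (G : SimpleGraph (Fin n)) (W : Finset (Fin n)) : Van k (IndF G W) (tA k G) := by
  have hne : {t : ℕ | ∀ W : Finset (Fin n), Van k (IndF G W) t}.Nonempty := by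
    refine ⟨n, fun W => van_dim (fun T _ => ?_)⟩
    have := Finset.card_le_univ T
    rw [Fintype.card_fin] at this
    exact_mod_cast this
  exact Nat.sInf_mem hne W

theorem tA_iff (G : SimpleGraph (Fin n)) (t : ℤ) :
    (∀ W : Finset (Fin n), Van k (IndF G W) t) ↔ (tA k G : ℤ) ≤ t := by
  constructor
  · intro h
    have ht : 0 ≤ t := by
      by_contra hneg
      exact not_van_empty G (not_le.mp hneg) (h ∅)
    obtain ⟨m, rfl⟩ := Int.eq_ofNat_of_zero_le ht
    exact_mod_cast (Nat.sInf_le h : tA k G ≤ m)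
  · exact fun h W => (van_tA G W).mono h

theorem tA_away (G : SimpleGraph (Fin n)) (u v : Fin n) (t : ℤ) :
    (∀ W : Finset (Fin n), (∀ x ∈ W, ¬ G.Adj u x ∧ ¬ G.Adj v x) → Van k (IndF G W) t) ↔
      (tA k (away G u v) : ℤ) ≤ t := by
  rw [← tA_iff]
  have key : ∀ W : Finset (Fin n), (∀ x ∈ W, ¬ G.Adj u x ∧ ¬ G.Adj v x) → ∀ T,
      (IndF (away G u v) W T ↔ IndF G W T) := by
    intro W hW T
    constructor
    · rintro ⟨h1, h2⟩
      exact ⟨h1, fun x hx y hy h => h2 x hx y hy ⟨h, hW x (h1 hx), hW y (h1 hy)⟩⟩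
    · rintro ⟨h1, h2⟩
      exact ⟨h1, fun x hx y hy h => h2 x hx y hy h.1⟩
  constructor
  · intro h W
    by_cases hW : ∀ x ∈ W, ¬ G.Adj u x ∧ ¬ G.Adj v x
    · exact (h W hW).congr (key W hW)
    · push Not at hW
      obtain ⟨x, hx, hx'⟩ := hW
      have hiso : ∀ y, ¬ (away G u v).Adj x y := by
        rintro y ⟨_, h1, _⟩
        exact (hx' h1.1) |> h1.2
      refine tConeT k (Fin n) _ (IndF_down _ _) x (fun T hT => ?_) _
      refine ⟨Finset.insert_subset hx hT.1, ?_⟩
      intro y hy z hz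
      rcases Finset.mem_insert.mp hy with hy | hy
      · rw [hy]; exact hiso z
      · rcases Finset.mem_insert.mp hz with hz | hz
        · rw [hz]; exact fun h' => hiso y h'.symm
        · exact hT.2 y hy z hz
  · intro h W hW
    exact (h W).congr (fun T => (key W hW T).symm)

theorem tA_away_lt (G : SimpleGraph (Fin n)) {u v : Fin n} (huv : G.Adj u v) :
    tA k (away G u v) + 1 ≤ tA k G := by
  have h : (tA k (away G u v) : ℤ) ≤ (tA k G : ℤ) - 1 := by
    rw [← tA_away]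
    intro W hW
    exact susp k tConeT tLk huv (fun h' => (hW u h').2 huv.symm) hW (van_tA G _)
  omega

/-- All powers of the edge ideal, in terms of `tA`. -/
theorem regLE_pow_iff (G : SimpleGraph (Fin n)) (hG : ∃ u v, G.Adj u v) {s : ℕ} (hs : 1 ≤ s)
    (r : ℕ) : RegLE k (edgeIdeal k n G ^ s) r ↔
      tA k G + s ≤ r ∧ ∀ u v, G.Adj u v → tA k (away G u v) + 2 * s ≤ r := by
  rw [tFormula k n G s r hG hs, tA_iff]
  have h2 : (∀ u v : Fin n, G.Adj u v → ∀ W : Finset (Fin n),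
      (∀ x ∈ W, ¬ G.Adj u x ∧ ¬ G.Adj v x) → Van k (IndF G W) ((r : ℤ) - 2 * s)) ↔
      ∀ u v, G.Adj u v → tA k (away G u v) + 2 * s ≤ r := by
    refine forall_congr' fun u => forall_congr' fun v => forall_congr' fun _ => ?_
    rw [tA_away]
    omega
  rw [h2]
  refine and_congr ?_ Iff.rfl
  omega

theorem edgeIdeal_bot (G : SimpleGraph (Fin n)) (hG : ¬ ∃ u v, G.Adj u v) :
    edgeIdeal k n G = ⊥ := by
  unfold edgeIdeal
  rw [Ideal.span_eq_bot]
  rintro f ⟨i, j, hij, _⟩
  exact absurd ⟨i, j, hij⟩ hG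

theorem reg_edgeIdeal (G : SimpleGraph (Fin n)) (hG : ∃ u v, G.Adj u v) :
    reg k (edgeIdeal k n G) = tA k G + 1 := by
  apply reg_eq
  intro r
  have h := regLE_pow_iff (k := k) G hG (le_refl 1) r
  rw [pow_one] at h
  rw [h]
  constructor
  · exact fun h' => h'.1
  · intro h'
    refine ⟨h', fun u v huv => ?_⟩
    have := tA_away_lt (k := k) G huv
    omega

theorem tA_eq_reg (G : SimpleGraph (Fin n)) : reg k (edgeIdeal k n G) - 1 = tA k G := by
  by_cases hG : ∃ u v, G.Adj u v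
  · rw [reg_edgeIdeal G hG]; rfl
  · rw [edgeIdeal_bot G hG]
    have h0 : reg k (⊥ : Ideal (MvPolynomial (Fin n) k)) = 0 :=
      Nat.le_zero.mp (Nat.sInf_le regLE_bot)
    have h1 : (tA k G : ℤ) ≤ 0 := by
      rw [← tA_iff]
      intro W
      rcases W.eq_empty_or_nonempty with hW | ⟨x, hx⟩
      · apply van_dim
        rintro T ⟨h1, _⟩
        rw [hW] at h1
        rw [Finset.subset_empty.mp h1]
        simp
      · refine tConeT k (Fin n) _ (IndF_down _ _) x (fun T hT => ?_) _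
        exact ⟨Finset.insert_subset hx hT.1, fun y _ z _ h => hG ⟨y, z, h⟩⟩
    rw [h0]
    omega

theorem rho_le_iff (G : SimpleGraph (Fin n)) (m : ℕ) :
    rho k G ≤ m ↔ ∀ u v, G.Adj u v → tA k (away G u v) ≤ m := by
  classical
  unfold rho
  rw [Finset.sup_le_iff]
  constructor
  · intro h u v huv
    have := h (u, v) (Finset.mem_filter.mpr ⟨Finset.mem_univ _, huv⟩)
    rwa [tA_eq_reg] at this
  · rintro h ⟨u, v⟩ he
    rw [tA_eq_reg]
    exact h u v (Finset.mem_filter.mp he).2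

/-- The regularity of every power of every edge ideal. -/
theorem regLE_pow_iff' (G : SimpleGraph (Fin n)) (hG : ∃ u v, G.Adj u v) {s : ℕ} (hs : 1 ≤ s)
    (r : ℕ) : RegLE k (edgeIdeal k n G ^ s) r ↔
      max (reg k (edgeIdeal k n G) + (s - 1)) (2 * s + rho k G) ≤ r := by
  rw [regLE_pow_iff G hG hs, max_le_iff, reg_edgeIdeal G hG]
  refine and_congr (by omega) ?_
  constructor
  · intro h
    obtain ⟨u, v, huv⟩ := hG
    have h1 : rho k G ≤ r - 2 * s := (rho_le_iff G _).mpr (fun u v huv => by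
      have := h u v huv
      omega)
    have := h u v huv
    omega
  · intro h u v huv
    have := (rho_le_iff (k := k) G (rho k G)).mp le_rfl u v huv
    omega

theorem reg_pow (G : SimpleGraph (Fin n)) (hG : ∃ u v, G.Adj u v) {s : ℕ} (hs : 1 ≤ s) :
    reg k (edgeIdeal k n G ^ s) =
      max (reg k (edgeIdeal k n G) + (s - 1)) (2 * s + rho k G) :=
  reg_eq (regLE_pow_iff' G hG hs)

end Pool.Agent.REG
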