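import Pool.Agent.REG.Match

/-!
The main induction `TInduct` from cones and the Mayer-Vietoris rule.
-/

set_option autoImplicit false

namespace Pool.Agent.REG

open Finset

variable {U : Type} [LinearOrder U]

theorem down_of_step {K : Finset U → Prop} (h : ∀ T x, x ∉ T → K (insert x T) → K T) :
    Down K := by
  intro S T hST hT
  have key : ∀ D : Finset U, Disjoint S D → K (S ∪ D) → K S := by
    intro D
    induction D using Finset.induction_on with
    | empty => intro _ h1; simpa using h1
    | insert x D hx ih =>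
      intro hdis h1
      have hdis' := Finset.disjoint_insert_right.mp hdis
      apply ih hdis'.2
      apply h (S ∪ D) x
      · intro hm
        rcases Finset.mem_union.mp hm with hm | hm
        · exact hdis'.1 hm
        · exact hx hm
      · rwa [← Finset.union_insert]
  exact key (T \ S) Finset.disjoint_sdiff (by rwa [Finset.union_sdiff_of_subset hST])

theorem IsM.drop {Γ : SimpleGraph U} {S : Finset U} {M : Finset (Sym2 U)} (x : U)
    (h : IsM Γ S M) : ∃ M', IsM Γ (S.erase x) M' ∧ M.card ≤ M'.card + 1 := by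
  classical
  refine ⟨M.filter (fun e => x ∉ e), ⟨?_, ?_, ?_⟩, ?_⟩
  · exact fun e he => h.edge e (Finset.mem_filter.mp he).1
  · intro e he z hz
    refine Finset.mem_erase.mpr ⟨?_, h.sub e (Finset.mem_filter.mp he).1 z hz⟩
    rintro rfl
    exact (Finset.mem_filter.mp he).2 hz
  · exact fun e he f hf => h.disj e (Finset.mem_filter.mp he).1 f (Finset.mem_filter.mp hf).1
  · have h1 : (M.filter (fun e => x ∈ e)).card ≤ 1 := by
      rw [Finset.card_le_one]
      intro e he f hf
      exact h.disj e (Finset.mem_filter.mp he).1 f (Finset.mem_filter.mp hf).1 x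
        (Finset.mem_filter.mp he).2 (Finset.mem_filter.mp hf).2
    have h2 := Finset.card_filter_add_card_filter_not (s := M) (fun e => x ∈ e)
    omega

theorem KF_down {Γ : SimpleGraph U} {L : Finset U → Prop} (hL : Down L) (C R : Finset U) (q : ℤ) :
    Down (KF Γ L C R q) := by
  apply down_of_step
  rintro T x hxT ⟨h1, h2, h3⟩
  refine ⟨hL _ _ (Finset.sdiff_subset_sdiff (Finset.subset_insert _ _) le_rfl) h1,
    (Finset.disjoint_insert_left.mp h2).2, fun M hM => ?_⟩
  by_cases hxC : x ∈ C
  · obtain ⟨M', hM', hc⟩ := hM.drop x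
    have h4 := h3 M' (hM'.mono (by
      intro y hy
      have hy' := Finset.mem_erase.mp hy
      have hy'' := Finset.mem_sdiff.mp hy'.2
      refine Finset.mem_sdiff.mpr ⟨hy''.1, fun h => ?_⟩
      rcases Finset.mem_insert.mp h with h | h
      · exact hy'.1 h
      · exact hy''.2 h))
    rw [Finset.insert_inter_of_mem hxC, Finset.card_insert_of_notMem
      (fun h => hxT (Finset.mem_inter.mp h).1)] at h4
    push_cast at h4
    have : (M.card : ℤ) ≤ M'.card + 1 := by exact_mod_cast hc
    linarith
  · have h4 := h3 M (hM.mono (by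
      intro y hy
      have hy' := Finset.mem_sdiff.mp hy
      refine Finset.mem_sdiff.mpr ⟨hy'.1, fun h => ?_⟩
      rcases Finset.mem_insert.mp h with h | h
      · exact hxC (h ▸ hy'.1)
      · exact hy'.2 h))
    rwa [Finset.insert_inter_of_notMem hxC] at h4

/-- deletion of a vertex of `C \ R` -/
theorem KF_del {Γ : SimpleGraph U} {L : Finset U → Prop} (C R : Finset U) (q : ℤ)
    (w : U) (T : Finset U) : del w (KF Γ L C R q) T ↔ KF Γ L C (insert w R) q T := by
  unfold del KF
  rw [Finset.disjoint_insert_right]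
  tauto

/-- link of a vertex of `C \ R` -/
theorem KF_lk {Γ : SimpleGraph U} {L : Finset U → Prop} {C₀ : Finset U}
    (hL0 : ∀ T, L T → Disjoint T C₀) {C R : Finset U} (hC : C ⊆ C₀) (q : ℤ)
    {w : U} (hwC : w ∈ C) (hwR : w ∉ R) (T : Finset U) :
    lk w (KF Γ L C R q) T ↔ KF Γ L (C.erase w) R (q - 1) T := by
  have aux : w ∉ T → T \ (C.erase w) = T \ C := by
    intro hw
    ext y
    simp only [Finset.mem_sdiff, Finset.mem_erase, not_and]
    constructor
    · rintro ⟨h1, h2⟩
      exact ⟨h1, fun h => h2 (fun h' => hw (h' ▸ h1)) h⟩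
    · rintro ⟨h1, h2⟩
      exact ⟨h1, fun _ h => h2 h⟩
  have aux2 : w ∉ T → T ∩ (C.erase w) = T ∩ C := by
    intro hw
    ext y
    simp only [Finset.mem_inter, Finset.mem_erase]
    constructor
    · rintro ⟨h1, _, h2⟩; exact ⟨h1, h2⟩
    · rintro ⟨h1, h2⟩; exact ⟨h1, fun h' => hw (h' ▸ h1), h2⟩
  have aux3 : (C.erase w) \ T = C \ insert w T := by
    ext y
    simp only [Finset.mem_sdiff, Finset.mem_erase, Finset.mem_insert, not_or]
    tauto
  have aux4 : (insert w T) \ C = T \ C := by
    ext y
    simp only [Finset.mem_sdiff, Finset.mem_insert]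
    constructor
    · rintro ⟨h1 | h1, h2⟩
      · exact absurd (h1 ▸ hwC) h2
      · exact ⟨h1, h2⟩
    · rintro ⟨h1, h2⟩
      exact ⟨Or.inr h1, h2⟩
  constructor
  · rintro ⟨hw, h1, h2, h3⟩
    refine ⟨?_, (Finset.disjoint_insert_left.mp h2).2, fun M hM => ?_⟩
    · rw [aux hw, ← aux4]; exact h1
    · rw [aux3] at hM
      have h4 := h3 M hM
      rw [Finset.insert_inter_of_mem hwC, Finset.card_insert_of_notMem
        (fun h => hw (Finset.mem_inter.mp h).1)] at h4
      rw [aux2 hw]
      push_cast at h4
      linarith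
  · rintro ⟨h1, h2, h3⟩
    have hw : w ∉ T := by
      intro hw
      have : w ∈ T \ C.erase w := Finset.mem_sdiff.mpr ⟨hw, Finset.notMem_erase w C⟩
      exact (Finset.disjoint_left.mp (hL0 _ h1) this) (hC hwC)
    refine ⟨hw, ?_, Finset.disjoint_insert_left.mpr ⟨hwR, h2⟩, fun M hM => ?_⟩
    · rw [aux4, ← aux hw]; exact h1
    · rw [← aux3] at hM
      have h4 := h3 M hM
      rw [aux2 hw] at h4
      rw [Finset.insert_inter_of_mem hwC, Finset.card_insert_of_notMem
        (fun h => hw (Finset.mem_inter.mp h).1)]
      push_cast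
      linarith

/-- The join of `L` with a complex on `C` whose faces have at most `m` elements. -/
theorem van_join_dim (k : Type) [Field k] (hGlue : TGlue)
    {L : Finset U → Prop} {r : ℤ} (hL : Down L) (hLr : Van k L r) (C : Finset U) :
    (∀ T, L T → Disjoint T C) → ∀ (Y : Finset U → Prop) (m : ℤ), Down Y →
      (∀ D, Y D → (D.card : ℤ) ≤ m) →
      Van k (fun T => L (T \ C) ∧ Y (T ∩ C)) (r + m) := by
  induction C using Finset.induction_on with
  | empty =>
    intro _ Y m _ hYm
    by_cases hY : Y ∅
    · have hm : (0 : ℤ) ≤ m := by simpa using hYm ∅ hY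
      refine (hLr.mono (by linarith)).congr (fun T => ?_)
      simp [hY]
    · exact van_void (fun T hT => hY (by simpa using hT.2)) _
  | insert w C hw ih =>
    intro hdis Y m hYd hYm
    have hdis' : ∀ T, L T → Disjoint T C := fun T hT =>
      (Finset.disjoint_insert_right.mp (hdis T hT)).2
    have hwL : ∀ T, L T → w ∉ T := fun T hT => (Finset.disjoint_insert_right.mp (hdis T hT)).1
    have hdown : Down (fun T => L (T \ insert w C) ∧ Y (T ∩ insert w C)) := by
      rintro S T hST ⟨h1, h2⟩
      exact ⟨hL _ _ (Finset.sdiff_subset_sdiff hST le_rfl) h1,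
        hYd _ _ (Finset.inter_subset_inter hST le_rfl) h2⟩
    have e1 : ∀ T : Finset U, w ∉ T → T \ insert w C = T \ C := by
      intro T hT
      ext y
      simp only [Finset.mem_sdiff, Finset.mem_insert, not_or]
      constructor
      · rintro ⟨h1, _, h2⟩; exact ⟨h1, h2⟩
      · rintro ⟨h1, h2⟩; exact ⟨h1, fun h => hT (h ▸ h1), h2⟩
    have e2 : ∀ T : Finset U, w ∉ T → T ∩ insert w C = T ∩ C := by
      intro T hT
      ext y
      simp only [Finset.mem_inter, Finset.mem_insert]
      constructor
      · rintro ⟨h1, h | h⟩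
        · exact absurd (h ▸ h1) hT
        · exact ⟨h1, h⟩
      · rintro ⟨h1, h2⟩; exact ⟨h1, Or.inr h2⟩
    have e3 : ∀ T : Finset U, (insert w T) \ insert w C = T \ insert w C := by
      intro T
      ext y
      simp only [Finset.mem_sdiff, Finset.mem_insert, not_or]
      tauto
    have e4 : ∀ T : Finset U, w ∉ T → (insert w T) ∩ insert w C = insert w (T ∩ C) := by
      intro T hT
      rw [Finset.insert_inter_of_mem (Finset.mem_insert_self _ _), e2 T hT]
    refine hGlue k U _ hdown w _ ?_ ?_
    · refine (ih hdis' (fun D => w ∉ D ∧ Y D) m ?_ ?_).congr (fun T => ?_)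
      · rintro S T hST ⟨h1, h2⟩
        exact ⟨fun h => h1 (hST h), hYd _ _ hST h2⟩
      · exact fun D hD => hYm D hD.2
      · constructor
        · rintro ⟨h1, h2, h3⟩
          rw [e1 T h1] at h2
          rw [e2 T h1] at h3
          exact ⟨h2, fun h => h1 (Finset.mem_inter.mp h).1, h3⟩
        · rintro ⟨h1, h2, h3⟩
          have hwT : w ∉ T := fun h => hwL _ h1 (Finset.mem_sdiff.mpr ⟨h, hw⟩)
          refine ⟨hwT, ?_, ?_⟩
          · rw [e1 T hwT]; exact h1
          · rw [e2 T hwT]; exact h3
    · have : r + m - 1 = r + (m - 1) := by ring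
      rw [this]
      refine (ih hdis' (fun D => w ∉ D ∧ Y (insert w D)) (m - 1) ?_ ?_).congr (fun T => ?_)
      · rintro S T hST ⟨h1, h2⟩
        exact ⟨fun h => h1 (hST h), hYd _ _ (Finset.insert_subset_insert w hST) h2⟩
      · rintro D ⟨h1, h2⟩
        have := hYm _ h2
        rw [Finset.card_insert_of_notMem h1] at this
        push_cast at this
        linarith
      · constructor
        · rintro ⟨h1, h2, h3⟩
          rw [e3, e1 T h1] at h2
          rw [e4 T h1] at h3
          exact ⟨h2, fun h => h1 (Finset.mem_inter.mp h).1, h3⟩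
        · rintro ⟨h1, h2, h3⟩
          have hwT : w ∉ T := fun h => hwL _ h1 (Finset.mem_sdiff.mpr ⟨h, hw⟩)
          refine ⟨hwT, ?_, ?_⟩
          · rw [e3, e1 T hwT]; exact h1
          · rw [e4 T hwT]; exact h3

theorem card_le_of_cover {M : Finset (Sym2 U)} {R : Finset U}
    (h : ∀ r ∈ R, ∃ e ∈ M, r ∈ e) : R.card ≤ 2 * M.card := by
  classical
  have h1 : R ⊆ M.biUnion (fun e => e.toFinset) := by
    intro r hr
    obtain ⟨e, he, hre⟩ := h r hr
    exact Finset.mem_biUnion.mpr ⟨e, he, Sym2.mem_toFinset.mpr hre⟩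
  calc R.card ≤ (M.biUnion (fun e => e.toFinset)).card := Finset.card_le_card h1
    _ ≤ ∑ e ∈ M, (e.toFinset).card := Finset.card_biUnion_le
    _ ≤ ∑ _e ∈ M, 2 := by
        apply Finset.sum_le_sum
        intro e _
        rw [Sym2.card_toFinset]
        split_ifs <;> omega
    _ = 2 * M.card := by simp [mul_comm]

theorem tInduct (hCone : TConeT) (hGlue : TGlue) : TInduct := by
  intro k _ U _ Γ L r C₀ hL hLr hL0
  classical
  suffices H : ∀ (N : ℕ) (C R S : Finset U) (q : ℤ) (d : U → ℕ), (C \ R).card = N → C ⊆ C₀ →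
      R ⊆ C → Sat Γ C R → S ⊆ C \ R →
      (∀ x ∈ C \ R, x ∉ S → ∃ y ∈ C \ R, Γ.Adj x y ∧ d y < d x) →
      Van k (KF Γ L C R q) (r + 2 * q + (S.card : ℤ) - (C.card : ℤ)) from
    fun C R S q d => H _ C R S q d rfl
  intro N
  induction N using Nat.strong_induction_on with
  | _ N ih =>
  intro C R S q d hN hC hRC hsat hS hd
  have hdown := KF_down (Γ := Γ) hL C R q
  have herase : ∀ w ∈ C \ R, ((C.erase w) \ R).card < N := by
    intro w hw
    rw [← hN]
    apply Finset.card_lt_card
    rw [Finset.ssubset_iff_of_subset (Finset.sdiff_subset_sdiff (Finset.erase_subset _ _) le_rfl)]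
    exact ⟨w, hw, fun h => (Finset.notMem_erase w C) (Finset.mem_sdiff.mp h).1⟩
  have hins : ∀ w ∈ C \ R, (C \ (insert w R)).card < N := by
    intro w hw
    rw [← hN]
    apply Finset.card_lt_card
    rw [Finset.ssubset_iff_of_subset (Finset.sdiff_subset_sdiff le_rfl (Finset.subset_insert _ _))]
    exact ⟨w, hw, fun h => (Finset.mem_sdiff.mp h).2 (Finset.mem_insert_self _ _)⟩
  have hcardC : ∀ w ∈ C \ R, ((C.erase w).card : ℤ) = (C.card : ℤ) - 1 := by
    intro w hw
    have hwC := (Finset.mem_sdiff.mp hw).1
    have : 0 < C.card := Finset.card_pos.mpr ⟨w, hwC⟩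
    rw [Finset.card_erase_of_mem hwC]
    omega
  -- case 1: an essential vertex
  by_cases hess : ∃ b ∈ C \ R, ¬ Sat Γ (C.erase b) R
  · obtain ⟨b, hb, hns⟩ := hess
    have hbC := (Finset.mem_sdiff.mp hb).1
    have hbR := (Finset.mem_sdiff.mp hb).2
    refine hCone k U _ hdown b (fun T hT => ?_) _
    by_cases hbT : b ∈ T
    · rwa [Finset.insert_eq_of_mem hbT]
    obtain ⟨h1, h2, h3⟩ := hT
    refine ⟨hL _ _ ?_ h1, Finset.disjoint_insert_left.mpr ⟨hbR, h2⟩, fun M hM => ?_⟩
    · intro y hy
      have hy' := Finset.mem_sdiff.mp hy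
      rcases Finset.mem_insert.mp hy'.1 with h | h
      · exact absurd (h ▸ hbC) hy'.2
      · exact Finset.mem_sdiff.mpr ⟨h, hy'.2⟩
    · have hRS : R ⊆ C \ insert b T := by
        intro y hy
        refine Finset.mem_sdiff.mpr ⟨hRC hy, fun h => ?_⟩
        rcases Finset.mem_insert.mp h with h | h
        · exact hbR (h ▸ hy)
        · exact (Finset.disjoint_left.mp h2 h) hy
      have hSX : C \ insert b T ⊆ C.erase b := by
        intro y hy
        have hy' := Finset.mem_sdiff.mp hy
        exact Finset.mem_erase.mpr ⟨fun h => hy'.2 (h ▸ Finset.mem_insert_self _ _), hy'.1⟩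
      obtain ⟨M', hM', hc⟩ := lemmaA hRS hSX (Finset.notMem_erase b C)
        (by rwa [Finset.insert_erase hbC]) hns hM
      have h4 := h3 M' (hM'.mono (by
        intro y hy
        rcases Finset.mem_insert.mp hy with h | h
        · rw [h]; exact Finset.mem_sdiff.mpr ⟨hbC, hbT⟩
        · have hy' := Finset.mem_sdiff.mp h
          exact Finset.mem_sdiff.mpr ⟨hy'.1, fun h' => hy'.2 (Finset.mem_insert_of_mem h')⟩))
      rw [Finset.insert_inter_of_mem hbC, Finset.card_insert_of_notMem
        (fun h => hbT (Finset.mem_inter.mp h).1)]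
      push_cast
      have : (M.card : ℤ) + 1 ≤ M'.card := by exact_mod_cast hc
      linarith
  push Not at hess
  by_cases hCS : C \ R ⊆ S
  · have hSeq : S = C \ R := Finset.Subset.antisymm hS hCS
    by_cases hw : ∃ w ∈ C \ R, Sat Γ C (insert w R)
    · -- case 3
      obtain ⟨w, hw, hwsat⟩ := hw
      have hwC := (Finset.mem_sdiff.mp hw).1
      have hwR := (Finset.mem_sdiff.mp hw).2
      have hScard : ((S.erase w).card : ℤ) = (S.card : ℤ) - 1 := by
        have hwS := hCS hw
        have : 0 < S.card := Finset.card_pos.mpr ⟨w, hwS⟩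
        rw [Finset.card_erase_of_mem hwS]
        omega
      refine hGlue k U _ hdown w _ ?_ ?_
      · refine ((ih _ (hins w hw) C (insert w R) (S.erase w) q d rfl hC
          (Finset.insert_subset hwC hRC) hwsat ?_ ?_).mono ?_).congr (KF_del C R q w)
        · intro y hy
          have hy' := Finset.mem_erase.mp hy
          have hy'' := Finset.mem_sdiff.mp (hS hy'.2)
          refine Finset.mem_sdiff.mpr ⟨hy''.1, fun h => ?_⟩
          rcases Finset.mem_insert.mp h with h | h
          · exact hy'.1 h
          · exact hy''.2 h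
        · intro x hx hxS
          exfalso
          apply hxS
          have hx' := Finset.mem_sdiff.mp hx
          refine Finset.mem_erase.mpr ⟨fun h => hx'.2 (h ▸ Finset.mem_insert_self _ _), ?_⟩
          rw [hSeq]
          exact Finset.mem_sdiff.mpr ⟨hx'.1, fun h => hx'.2 (Finset.mem_insert_of_mem h)⟩
        · rw [hScard]; linarith
      · refine ((ih _ (herase w hw) (C.erase w) R (S.erase w) (q - 1) d rfl
          ((Finset.erase_subset _ _).trans hC) ?_ (hess w hw) ?_ ?_).mono ?_).congr
          (KF_lk hL0 hC q hwC hwR)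
        · exact fun y hy => Finset.mem_erase.mpr ⟨fun h => hwR (h ▸ hy), hRC hy⟩
        · intro y hy
          have hy' := Finset.mem_erase.mp hy
          have hy'' := Finset.mem_sdiff.mp (hS hy'.2)
          exact Finset.mem_sdiff.mpr ⟨Finset.mem_erase.mpr ⟨hy'.1, hy''.1⟩, hy''.2⟩
        · intro x hx hxS
          exfalso
          apply hxS
          have hx' := Finset.mem_sdiff.mp hx
          have hx'' := Finset.mem_erase.mp hx'.1
          refine Finset.mem_erase.mpr ⟨hx''.1, ?_⟩
          rw [hSeq]
          exact Finset.mem_sdiff.mpr ⟨hx''.2, hx'.2⟩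
        · rw [hScard, hcardC w hw]; linarith
    · -- case 4
      push Not at hw
      obtain ⟨A, hA, hAR⟩ := hsat
      set A' := A.filter (fun e => ∃ r ∈ R, r ∈ e) with hA'
      have hA'R : IsM Γ R A' := by
        refine ⟨fun e he => hA.edge e (Finset.mem_filter.mp he).1, ?_, fun e he f hf =>
          hA.disj e (Finset.mem_filter.mp he).1 f (Finset.mem_filter.mp hf).1⟩
        intro e he x hx
        by_contra hxR
        have heA := (Finset.mem_filter.mp he).1
        have hxC := hA.sub e heA x hx
        refine hw x (Finset.mem_sdiff.mpr ⟨hxC, hxR⟩) ⟨A, hA, fun r hr => ?_⟩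
        rcases Finset.mem_insert.mp hr with h | h
        · exact ⟨e, heA, h ▸ hx⟩
        · exact hAR r h
      have hcov : R.card ≤ 2 * A'.card := by
        apply card_le_of_cover
        intro r hr
        obtain ⟨e, he, hre⟩ := hAR r hr
        exact ⟨e, Finset.mem_filter.mpr ⟨he, r, hr, hre⟩, hre⟩
      have hcov' : (R.card : ℤ) ≤ 2 * (A'.card : ℤ) := by exact_mod_cast hcov
      have hSc : (S.card : ℤ) = (C.card : ℤ) - (R.card : ℤ) := by
        have h1 := Finset.card_sdiff_add_card_eq_card hRC
        rw [hSeq]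
        omega
      by_cases hq : (A'.card : ℤ) ≤ q
      · have hCdis : ∀ T, L T → Disjoint T C := fun T hT =>
          Finset.disjoint_of_subset_right hC (hL0 T hT)
        have hJ := van_join_dim k hGlue hL hLr C hCdis
          (fun D => Disjoint D R ∧
            ∀ M, IsM Γ (C \ D) M → ((D ∩ C).card : ℤ) + (M.card : ℤ) ≤ q ∧
              ((D).card : ℤ) ≤ q - A'.card) (q - A'.card) ?_ ?_
        · refine (hJ.mono ?_).congr (fun T => ?_)
          · rw [hSc]; linarith
          · have e1 : C \ (T ∩ C) = C \ T := by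
              ext y; simp only [Finset.mem_sdiff, Finset.mem_inter]; tauto
            have e2 : T ∩ C ∩ C = T ∩ C := by
              ext y; simp only [Finset.mem_inter]; tauto
            constructor
            · rintro ⟨h1, h2, h3⟩
              refine ⟨h1, Finset.disjoint_of_subset_left Finset.inter_subset_left h2, ?_⟩
              intro M hM
              rw [e1] at hM
              rw [e2]
              refine ⟨h3 M hM, ?_⟩
              have h4 := h3 A' (hA'R.mono (fun y hy => Finset.mem_sdiff.mpr
                ⟨hRC hy, fun h => (Finset.disjoint_left.mp h2 h) hy⟩))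
              linarith
            · rintro ⟨h1, h2, h3⟩
              refine ⟨h1, ?_, ?_⟩
              · rw [Finset.disjoint_left] at h2 ⊢
                exact fun y hy hyR => h2 (Finset.mem_inter.mpr ⟨hy, hRC hyR⟩) hyR
              · intro M hM
                rw [← e1] at hM
                have h4 := (h3 M hM).1
                rwa [e2] at h4
        · apply down_of_step
          rintro T x hxT ⟨h2, h3⟩
          refine ⟨(Finset.disjoint_insert_left.mp h2).2, fun M hM => ?_⟩
          have hcardT : ((insert x T).card : ℤ) = T.card + 1 := by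
            rw [Finset.card_insert_of_notMem hxT]; push_cast; ring
          obtain ⟨M', hM', hc⟩ := hM.drop x
          have h4 := h3 M' (hM'.mono (by
            intro y hy
            have hy' := Finset.mem_erase.mp hy
            have hy'' := Finset.mem_sdiff.mp hy'.2
            refine Finset.mem_sdiff.mpr ⟨hy''.1, fun h => ?_⟩
            rcases Finset.mem_insert.mp h with h | h
            · exact hy'.1 h
            · exact hy''.2 h))
          refine ⟨?_, by rw [hcardT] at h4; linarith [h4.2]⟩
          by_cases hxC : x ∈ C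
          · have h5 := h4.1
            rw [Finset.insert_inter_of_mem hxC, Finset.card_insert_of_notMem
              (fun h => hxT (Finset.mem_inter.mp h).1)] at h5
            push_cast at h5
            have : (M.card : ℤ) ≤ M'.card + 1 := by exact_mod_cast hc
            linarith
          · have h5 := (h3 M (hM.mono (by
              intro y hy
              have hy' := Finset.mem_sdiff.mp hy
              refine Finset.mem_sdiff.mpr ⟨hy'.1, fun h => ?_⟩
              rcases Finset.mem_insert.mp h with h | h
              · exact hxC (h ▸ hy'.1)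
              · exact hy'.2 h))).1
            rwa [Finset.insert_inter_of_notMem hxC] at h5
        · rintro D ⟨_, h3⟩
          exact (h3 ∅ (isM_empty _ _)).2
      · apply van_void
        rintro T ⟨_, h2, h3⟩
        have h4 := h3 A' (hA'R.mono (fun y hy => Finset.mem_sdiff.mpr
          ⟨hRC hy, fun h => (Finset.disjoint_left.mp h2 h) hy⟩))
        have : (0 : ℤ) ≤ ((T ∩ C).card : ℤ) := by positivity
        linarith
  · -- case 2
    have hne : ((C \ R) \ S).Nonempty := by
      rw [Finset.sdiff_nonempty]; exact hCS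
    obtain ⟨w, hw', hwmax⟩ := Finset.exists_max_image ((C \ R) \ S) d hne
    have hw := (Finset.mem_sdiff.mp hw').1
    have hwS := (Finset.mem_sdiff.mp hw').2
    have hwC := (Finset.mem_sdiff.mp hw).1
    have hwR := (Finset.mem_sdiff.mp hw).2
    have hd' : ∀ x ∈ C \ R, x ∉ S → ∃ y ∈ C \ R, y ≠ w ∧ Γ.Adj x y ∧ d y < d x := by
      intro x hx hxS
      obtain ⟨y, hy, hadj, hlt⟩ := hd x hx hxS
      refine ⟨y, hy, ?_, hadj, hlt⟩
      rintro rfl
      exact absurd (hwmax x (Finset.mem_sdiff.mpr ⟨hx, hxS⟩)) (not_le.mpr hlt)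
    refine hGlue k U _ hdown w _ ?_ ?_
    · refine Van.congr (K := KF Γ L C (insert w R) q) ?_ (KF_del C R q w)
      by_cases hwsat : Sat Γ C (insert w R)
      · refine ih _ (hins w hw) C (insert w R) S q d rfl hC
          (Finset.insert_subset hwC hRC) hwsat ?_ ?_
        · intro y hy
          have hy'' := Finset.mem_sdiff.mp (hS hy)
          refine Finset.mem_sdiff.mpr ⟨hy''.1, fun h => ?_⟩
          rcases Finset.mem_insert.mp h with h | h
          · exact hwS (h ▸ hy)
          · exact hy''.2 h
        · intro x hx hxS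
          have hx' := Finset.mem_sdiff.mp hx
          have hx1 : x ∈ C \ R := Finset.mem_sdiff.mpr
            ⟨hx'.1, fun h => hx'.2 (Finset.mem_insert_of_mem h)⟩
          obtain ⟨y, hy, hyw, hadj, hlt⟩ := hd' x hx1 hxS
          have hy' := Finset.mem_sdiff.mp hy
          refine ⟨y, Finset.mem_sdiff.mpr ⟨hy'.1, fun h => ?_⟩, hadj, hlt⟩
          rcases Finset.mem_insert.mp h with h | h
          · exact hyw h
          · exact hy'.2 h
      · obtain ⟨a, ha, haw, hadj, -⟩ := hd' w hw hwS
        have haC := (Finset.mem_sdiff.mp ha).1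
        have haR := (Finset.mem_sdiff.mp ha).2
        refine hCone k U _ (KF_down hL C _ q) a (fun T hT => ?_) _
        by_cases haT : a ∈ T
        · rwa [Finset.insert_eq_of_mem haT]
        obtain ⟨h1, h2, h3⟩ := hT
        refine ⟨hL _ _ ?_ h1, Finset.disjoint_insert_left.mpr ⟨?_, h2⟩, fun M hM => ?_⟩
        · intro y hy
          have hy' := Finset.mem_sdiff.mp hy
          rcases Finset.mem_insert.mp hy'.1 with h | h
          · exact absurd (h ▸ haC) hy'.2
          · exact Finset.mem_sdiff.mpr ⟨h, hy'.2⟩
        · intro h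
          rcases Finset.mem_insert.mp h with h | h
          · exact haw h
          · exact haR h
        · have hRS : insert w R ⊆ C \ insert a T := by
            intro y hy
            refine Finset.mem_sdiff.mpr ⟨Finset.insert_subset hwC hRC hy, fun h => ?_⟩
            rcases Finset.mem_insert.mp h with h | h
            · rcases Finset.mem_insert.mp hy with h' | h'
              · exact haw (h ▸ h')
              · exact haR (h ▸ h')
            · exact (Finset.disjoint_left.mp h2 h) hy
          have hSX : C \ insert a T ⊆ C.erase a := by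
            intro y hy
            have hy' := Finset.mem_sdiff.mp hy
            exact Finset.mem_erase.mpr ⟨fun h => hy'.2 (h ▸ Finset.mem_insert_self _ _), hy'.1⟩
          obtain ⟨M', hM', hc⟩ := lemmaB hsat hwC hwsat haC haR hadj hRS hSX hM
          have h4 := h3 M' (hM'.mono (by
            intro y hy
            rcases Finset.mem_insert.mp hy with h | h
            · rw [h]; exact Finset.mem_sdiff.mpr ⟨haC, haT⟩
            · have hy' := Finset.mem_sdiff.mp h
              exact Finset.mem_sdiff.mpr ⟨hy'.1, fun h' => hy'.2 (Finset.mem_insert_of_mem h')⟩))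
          rw [Finset.insert_inter_of_mem haC, Finset.card_insert_of_notMem
            (fun h => haT (Finset.mem_inter.mp h).1)]
          push_cast
          have : (M.card : ℤ) + 1 ≤ M'.card := by exact_mod_cast hc
          linarith
    · refine ((ih _ (herase w hw) (C.erase w) R S (q - 1) d rfl
        ((Finset.erase_subset _ _).trans hC) ?_ (hess w hw) ?_ ?_).mono ?_).congr
        (KF_lk hL0 hC q hwC hwR)
      · exact fun y hy => Finset.mem_erase.mpr ⟨fun h => hwR (h ▸ hy), hRC hy⟩
      · intro y hy
        have hy'' := Finset.mem_sdiff.mp (hS hy)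
        exact Finset.mem_sdiff.mpr ⟨Finset.mem_erase.mpr ⟨fun h => hwS (h ▸ hy), hy''.1⟩, hy''.2⟩
      · intro x hx hxS
        have hx' := Finset.mem_sdiff.mp hx
        have hx'' := Finset.mem_erase.mp hx'.1
        obtain ⟨y, hy, hyw, hadj, hlt⟩ := hd' x (Finset.mem_sdiff.mpr ⟨hx''.2, hx'.2⟩) hxS
        have hy' := Finset.mem_sdiff.mp hy
        exact ⟨y, Finset.mem_sdiff.mpr ⟨Finset.mem_erase.mpr ⟨hyw, hy'.1⟩, hy'.2⟩, hadj, hlt⟩
      · rw [hcardC w hw]; linarith

end Pool.Agent.REG
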