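import Pool.Agent.REG.KoszA

/-!
Koszul homology of monomial ideals as relative cohomology: the polynomial side.
-/

set_option autoImplicit false

namespace Pool.Agent.REG.Kosz

open Finset MvPolynomial

variable {k : Type} [Field k] {n : ℕ}

/-- indicator exponent vector -/
noncomputable def ind (T : Finset (Fin n)) : Fin n →₀ ℕ :=
  Finsupp.equivFunOnFinite.symm (fun v => if v ∈ T then 1 else 0)

theorem ind_apply (T : Finset (Fin n)) (v : Fin n) : ind T v = if v ∈ T then 1 else 0 := rfl

theorem ind_insert (T : Finset (Fin n)) (t : Fin n) (ht : t ∉ T) :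
    ind (insert t T) = ind T + Finsupp.single t 1 := by
  ext v
  simp only [ind_apply, Finsupp.add_apply, Finsupp.single_apply, mem_insert]
  by_cases h : t = v
  · subst h; simp [ht]
  · simp [h, Ne.symm h]

theorem degree_ind (T : Finset (Fin n)) : (ind T).degree = T.card := by
  rw [Finsupp.degree_eq_sum]
  simp only [ind_apply]
  simp

/-- The Koszul boundary used in `KosEx`. -/
noncomputable def bdy (f : Finset (Fin n) → MvPolynomial (Fin n) k) (S : Finset (Fin n)) :
    MvPolynomial (Fin n) k :=
  ∑ t ∈ Finset.univ \ S,
    (-1 : MvPolynomial (Fin n) k) ^ (S.filter (· < t)).card * X t * f (insert t S)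

theorem coeff_bdy (f : Finset (Fin n) → MvPolynomial (Fin n) k) (S : Finset (Fin n))
    (b : Fin n →₀ ℕ) :
    coeff (b - ind S) (bdy f S) =
      kb b.support (fun T => coeff (b - ind T) (f T)) S := by
  unfold bdy kb
  rw [coeff_sum]
  have h1 : ∀ t ∈ Finset.univ \ S,
      coeff (b - ind S) ((-1 : MvPolynomial (Fin n) k) ^ (S.filter (· < t)).card * X t *
        f (insert t S)) =
      if t ∈ b.support then (-1 : k) ^ (S.filter (· < t)).card *
        coeff (b - ind (insert t S)) (f (insert t S)) else 0 := by
    intro t ht
    have htS : t ∉ S := (mem_sdiff.1 ht).2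
    have hc : (-1 : MvPolynomial (Fin n) k) ^ (S.filter (· < t)).card =
        C ((-1 : k) ^ (S.filter (· < t)).card) := by simp
    rw [hc, mul_assoc, coeff_C_mul, coeff_X_mul']
    have h2 : t ∈ (b - ind S).support ↔ t ∈ b.support := by
      simp only [Finsupp.mem_support_iff, Finsupp.tsub_apply, ind_apply, if_neg htS, Nat.sub_zero]
    by_cases hb : t ∈ b.support
    · rw [if_pos (h2.2 hb), if_pos hb, ind_insert S t htS, tsub_add_eq_tsub_tsub]
    · rw [if_neg (fun h => hb (h2.1 h)), if_neg hb, mul_zero]
  rw [Finset.sum_congr rfl h1, ← Finset.sum_filter]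
  refine Finset.sum_congr ?_ fun t _ => rfl
  ext t
  simp only [mem_filter, mem_sdiff, mem_univ, true_and]
  tauto

theorem sub_add_ind (b : Fin n →₀ ℕ) (S : Finset (Fin n)) (hS : S ⊆ b.support) :
    b - ind S + ind S = b := by
  ext v
  simp only [Finsupp.add_apply, Finsupp.tsub_apply, ind_apply]
  split_ifs with h
  · have := hS h
    rw [Finsupp.mem_support_iff] at this
    omega
  · omega

theorem sub_ind_inj (b b' : Fin n →₀ ℕ) (S : Finset (Fin n)) (hS : S ⊆ b.support)
    (hS' : S ⊆ b'.support) (h : b - ind S = b' - ind S) : b = b' := by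
  rw [← sub_add_ind b S hS, ← sub_add_ind b' S hS', h]

theorem degree_sub_ind (b : Fin n →₀ ℕ) (S : Finset (Fin n)) (hS : S ⊆ b.support) :
    (b - ind S).degree + S.card = b.degree := by
  conv_rhs => rw [← sub_add_ind b S hS]
  rw [map_add, degree_ind]

theorem supp_add_ind (e : Fin n →₀ ℕ) (S : Finset (Fin n)) : S ⊆ (e + ind S).support := by
  intro v hv
  simp [ind_apply, hv]

theorem add_ind_sub (e : Fin n →₀ ℕ) (S : Finset (Fin n)) : e + ind S - ind S = e :=
  add_tsub_cancel_right e (ind S)

/-- polynomial with prescribed coefficients in degree `d` -/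
noncomputable def mk (d : ℕ) (c : (Fin n →₀ ℕ) → k) : MvPolynomial (Fin n) k :=
  ∑ e ∈ Finset.finsuppAntidiag (univ : Finset (Fin n)) d, monomial e (c e)

theorem mem_fa (d : ℕ) (e : Fin n →₀ ℕ) :
    e ∈ Finset.finsuppAntidiag (univ : Finset (Fin n)) d ↔ e.degree = d := by
  rw [Finset.mem_finsuppAntidiag, Finsupp.degree_eq_sum]
  simp

theorem coeff_mk (d : ℕ) (c : (Fin n →₀ ℕ) → k) (e : Fin n →₀ ℕ) :
    coeff e (mk d c) = if e.degree = d then c e else 0 := by
  unfold mk
  rw [coeff_sum]
  simp only [coeff_monomial]
  rw [Finset.sum_ite_eq']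
  simp only [mem_fa]

theorem mk_homog (d : ℕ) (c : (Fin n →₀ ℕ) → k) : (mk d c).IsHomogeneous d := by
  refine IsHomogeneous.sum _ _ _ fun e he => ?_
  exact isHomogeneous_monomial _ ((mem_fa d e).1 he)

theorem KA_iff (mem : (Fin n → ℕ) → Prop) (b : Fin n →₀ ℕ) (T : Finset (Fin n)) :
    KA mem b.support ∅ 0 (⇑(b - ind b.support)) T ↔
      T ⊆ b.support ∧ ¬ mem (⇑(b - ind (b.support \ T))) := by
  unfold KA
  refine and_congr_right fun hT => ?_
  have : (fun v => (b - ind b.support) v + (if v ∈ T then 1 else 0) +
      (if v ∈ T ∧ v ∈ (∅ : Finset (Fin n)) then 0 else 0)) = ⇑(b - ind (b.support \ T)) := by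
    funext v
    simp only [Finsupp.tsub_apply, ind_apply, mem_sdiff, Finset.notMem_empty, and_false, if_false,
      add_zero]
    by_cases h : v ∈ T
    · have h1 := hT h
      have h3 : b v ≠ 0 := Finsupp.mem_support_iff.1 h1
      rw [if_pos h1, if_pos h, if_neg (fun h2 => h2.2 h)]
      omega
    · by_cases h1 : v ∈ b.support
      · rw [if_pos h1, if_neg h, if_pos ⟨h1, h⟩]; rfl
      · rw [if_neg h1, if_neg h, if_neg (fun h2 => h1 h2.1)]; rfl
  rw [this]

theorem KA_down (mem : (Fin n → ℕ) → Prop) (hup : UpMem mem) (P : Finset (Fin n))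
    (a : Fin n → ℕ) : Down (KA mem P ∅ 0 a) := by
  rintro S T hST ⟨hT, hm⟩
  refine ⟨hST.trans hT, fun h => hm (hup _ _ (fun v => ?_) h)⟩
  simp only [Finset.notMem_empty, and_false, if_false, add_zero]
  by_cases hv : v ∈ S
  · rw [if_pos hv, if_pos (hST hv)]
  · rw [if_neg hv]; omega

theorem kb_congr (P : Finset (Fin n)) (c c' : Finset (Fin n) → k) (S : Finset (Fin n))
    (h : ∀ t ∈ P \ S, c (insert t S) = c' (insert t S)) : kb P c S = kb P c' S := by
  unfold kb
  exact Finset.sum_congr rfl fun t ht => by rw [h t ht]

/-- local exactness in one multidegree -/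
theorem local_exact (mem : (Fin n → ℕ) → Prop) (b : Fin n →₀ ℕ) (hb : b.support.Nonempty)
    (i : ℕ) (c : Finset (Fin n) → k)
    (h : ∀ m, i + (m + 1) = b.support.card →
      Ex k (KA mem b.support ∅ 0 (⇑(b - ind b.support))) m)
    (hc : ∀ S ⊆ b.support, c S ≠ 0 → mem (⇑(b - ind S)))
    (hcyc : ∀ S ⊆ b.support, kb b.support c S = 0) :
    ∃ c' : Finset (Fin n) → k, (∀ U ⊆ b.support, c' U ≠ 0 → mem (⇑(b - ind U))) ∧
      ∀ S ⊆ b.support, S.card = i → c S = kb b.support c' S := by
  classical
  set P := b.support with hP
  rcases lt_trichotomy i P.card with hi | hi | hi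
  · obtain ⟨m, hm⟩ : ∃ m, i + (m + 1) = P.card := ⟨P.card - i - 1, by omega⟩
    have hrel := relEx_of_ex P hb _ (fun T hT => hT.1) m (h m hm)
    obtain ⟨ψ, hψ0, hψ⟩ := hrel (fun T => if T ⊆ P ∧ T.card = m + 1 then eps k P T * c (P \ T) else 0)
      (by
        intro T hT
        rw [KA_iff] at hT
        split_ifs with h1
        · by_contra hne
          exact hT.2 (hc (P \ T) Finset.sdiff_subset (right_ne_zero_of_mul hne))
        · rfl)
      (by
        intro T hT hcT
        have h1 : cob (fun T => if T ⊆ P ∧ T.card = m + 1 then eps k P T * c (P \ T) else 0) T =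
            cob (fun T => eps k P T * c (P \ T)) T := by
          refine cob_congr _ _ _ fun t ht => ?_
          rw [if_pos ⟨(Finset.erase_subset t T).trans hT, by
            rw [Finset.card_erase_of_mem ht, hcT]; rfl⟩]
        rw [h1, cob_eps P c T hT, hcyc _ Finset.sdiff_subset, mul_zero])
    refine ⟨fun U => eps k P (P \ U) * ψ (P \ U), ?_, ?_⟩
    · intro U hU hne
      by_contra hmem
      apply right_ne_zero_of_mul hne
      apply hψ0
      rw [KA_iff]
      refine ⟨Finset.sdiff_subset, ?_⟩
      rw [Finset.sdiff_sdiff_eq_self hU]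
      exact hmem
    · intro S hS hSc
      have hcard : (P \ S).card = m + 1 := by
        rw [Finset.card_sdiff_of_subset hS]; omega
      have h2 := hψ (P \ S) Finset.sdiff_subset hcard
      rw [if_pos ⟨Finset.sdiff_subset, hcard⟩, Finset.sdiff_sdiff_eq_self hS] at h2
      have h3 : cob ψ (P \ S) = cob (fun T => eps k P T * (fun U => eps k P (P \ U) * ψ (P \ U)) (P \ T))
          (P \ S) := by
        refine cob_congr _ _ _ fun t ht => ?_
        beta_reduce
        have h4 : (P \ S).erase t ⊆ P := (Finset.erase_subset _ _).trans Finset.sdiff_subset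
        rw [Finset.sdiff_sdiff_eq_self h4, ← mul_assoc, eps_mul_self, one_mul]
      rw [cob_eps P (fun U => eps k P (P \ U) * ψ (P \ U)) (P \ S) Finset.sdiff_subset,
        Finset.sdiff_sdiff_eq_self hS] at h3
      rw [h3] at h2
      have h5 := congrArg (fun x => eps k P (P \ S) * x) h2
      beta_reduce at h5
      rw [← mul_assoc, ← mul_assoc, eps_mul_self, one_mul, one_mul] at h5
      exact h5
  · refine ⟨fun _ => 0, fun _ _ h => absurd rfl h, ?_⟩
    intro S hS hSc
    have hSP : S = P := Finset.eq_of_subset_of_card_le hS (by omega)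
    subst hSP
    have h1 : kb P (fun _ => (0 : k)) P = 0 := by simp [kb]
    rw [h1]
    obtain ⟨t, ht⟩ := hb
    have h2 := hcyc (P.erase t) (Finset.erase_subset _ _)
    unfold kb at h2
    have h3 : P \ P.erase t = {t} := by
      ext x
      simp only [mem_sdiff, mem_erase, mem_singleton, not_and]
      constructor
      · rintro ⟨hx, hh⟩
        by_contra hne
        exact hh hne hx
      · rintro rfl
        exact ⟨ht, fun h => absurd rfl h⟩
    rw [h3, Finset.sum_singleton, Finset.insert_erase ht] at h2
    rcases mul_eq_zero.1 h2 with h4 | h4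
    · exact absurd h4 (pow_ne_zero _ (by simp))
    · exact h4
  · refine ⟨fun _ => 0, fun _ _ h => absurd rfl h, ?_⟩
    intro S hS hSc
    have := Finset.card_le_card hS
    omega

theorem kos_of_van (mem : (Fin n → ℕ) → Prop)
    (J : Ideal (MvPolynomial (Fin n) k))
    (hJ : ∀ f, f ∈ J ↔ ∀ c ∈ f.support, mem (fun v => c v)) (ρ : ℕ)
    (h : ∀ b : Fin n →₀ ℕ, b.support.Nonempty →
      Van k (KA mem b.support ∅ 0 (⇑(b - ind b.support)))
        ((ρ : ℤ) - 1 - (((b - ind b.support).degree : ℕ) : ℤ)))
    (i d : ℕ) (hd : ρ < d) : KosEx k J i d := by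
  classical
  intro f hf0 hfJ hcyc
  have key : ∀ b : Fin n →₀ ℕ, ∃ c' : Finset (Fin n) → k, b.degree = d + i →
      (∀ U ⊆ b.support, c' U ≠ 0 → mem (⇑(b - ind U))) ∧
      ∀ S ⊆ b.support, S.card = i → coeff (b - ind S) (f S) = kb b.support c' S := by
    intro b
    by_cases hb : b.degree = d + i
    · have hne : b.support.Nonempty := by
        rw [Finset.nonempty_iff_ne_empty]
        intro h0
        rw [Finsupp.support_eq_empty] at h0
        rw [h0] at hb
        simp at hb
        omega
      obtain ⟨c', h1, h2⟩ := local_exact mem b hne i (fun S => coeff (b - ind S) (f S))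
        (by
          intro m hm
          apply h b hne
          have h3 := degree_sub_ind b b.support (le_refl _)
          have h4 : (((b - ind b.support).degree : ℕ) : ℤ) + (b.support.card : ℤ) = b.degree := by
            exact_mod_cast h3
          have h5 : (i : ℤ) + (m + 1) = b.support.card := by exact_mod_cast hm
          have h6 : (b.degree : ℤ) = d + i := by exact_mod_cast hb
          have h7 : (ρ : ℤ) < d := by exact_mod_cast hd
          omega)
        (by
          intro S hS hne'
          exact (hJ _).1 (hfJ S).1 _ (mem_support_iff.2 hne'))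
        (by
          intro S hS
          rw [← coeff_bdy f S b]
          have := hcyc S
          unfold bdy
          rw [this, coeff_zero])
      exact ⟨c', fun _ => ⟨h1, h2⟩⟩
    · exact ⟨fun _ => 0, fun h => absurd h hb⟩
  choose c' hc' using key
  obtain ⟨G, hG⟩ : ∃ G : Finset (Fin n) → MvPolynomial (Fin n) k, ∀ U, G U =
    if U.card = i + 1 then mk (d - 1) (fun e => c' (e + ind U) U) else 0 := ⟨_, fun _ => rfl⟩
  refine ⟨G, ?_, ?_, ?_⟩
  · intro U hU
    rw [hG, if_neg hU]
  · intro U
    rw [hG]
    split_ifs with hU
    · refine ⟨?_, mk_homog _ _⟩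
      rw [hJ]
      intro e he
      rw [mem_support_iff, coeff_mk] at he
      have hed : e.degree = d - 1 := by
        by_contra h1
        rw [if_neg h1] at he
        exact he rfl
      rw [if_pos hed] at he
      have hdeg : (e + ind U).degree = d + i := by
        rw [map_add, degree_ind, hed, hU]; omega
      have := (hc' (e + ind U) hdeg).1 U (supp_add_ind e U) he
      rwa [add_ind_sub] at this
    · exact ⟨J.zero_mem, isHomogeneous_zero _ _ _⟩
  · intro T
    change f T = bdy G T
    ext e
    conv_rhs => rw [← add_ind_sub e T]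
    rw [coeff_bdy]
    set b := e + ind T with hb
    by_cases hT : T.card = i
    · have hsub : T ⊆ b.support := supp_add_ind e T
      have hdb : b.degree = e.degree + i := by rw [hb, map_add, degree_ind, hT]
      have h1 : ∀ t ∈ b.support \ T, coeff (b - ind (insert t T)) (G (insert t T)) =
          if e.degree = d then c' b (insert t T) else 0 := by
        intro t ht
        rw [mem_sdiff] at ht
        have hc : (insert t T).card = i + 1 := by rw [Finset.card_insert_of_notMem ht.2, hT]
        rw [hG, if_pos hc, coeff_mk, sub_add_ind b _ (Finset.insert_subset ht.1 hsub)]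
        have h2 := degree_sub_ind b _ (Finset.insert_subset ht.1 hsub)
        rw [hc, hdb] at h2
        by_cases hed : e.degree = d
        · rw [if_pos hed, if_pos (by omega)]
        · rw [if_neg hed, if_neg (by omega)]
      by_cases hed : e.degree = d
      · rw [kb_congr b.support _ (c' b) T (fun t ht => by rw [h1 t ht, if_pos hed])]
        have h3 := (hc' b (by rw [hdb, hed])).2 T hsub hT
        rw [← h3, hb, add_ind_sub]
      · rw [kb_congr b.support _ (fun _ => 0) T (fun t ht => by rw [h1 t ht, if_neg hed])]
        rw [(hfJ T).2.coeff_eq_zero hed]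
        simp [kb]
    · have h1 : ∀ t ∈ b.support \ T, coeff (b - ind (insert t T)) (G (insert t T)) = 0 := by
        intro t ht
        rw [mem_sdiff] at ht
        have hc : ¬ (insert t T).card = i + 1 := by
          rw [Finset.card_insert_of_notMem ht.2]; omega
        rw [hG, if_neg hc, coeff_zero]
      rw [kb_congr b.support _ (fun _ => 0) T (fun t ht => h1 t ht)]
      rw [hf0 T hT]
      simp [kb]

theorem van_of_kos (mem : (Fin n → ℕ) → Prop) (hup : UpMem mem)
    (J : Ideal (MvPolynomial (Fin n) k))
    (hJ : ∀ f, f ∈ J ↔ ∀ c ∈ f.support, mem (fun v => c v)) (ρ : ℕ)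
    (h : ∀ i d : ℕ, ρ < d → KosEx k J i d) (b : Fin n →₀ ℕ) (hb : b.support.Nonempty) :
    Van k (KA mem b.support ∅ 0 (⇑(b - ind b.support)))
        ((ρ : ℤ) - 1 - (((b - ind b.support).degree : ℕ) : ℤ)) := by
  classical
  intro j hj
  set P := b.support with hP
  refine ex_of_relEx P hb _ (KA_down mem hup _ _) (fun T hT => hT.1) j ?_
  intro φ hφ0 hφ1
  by_cases hjP : j + 1 ≤ P.card
  · obtain ⟨i, hi⟩ : ∃ i, i + (j + 1) = P.card := ⟨P.card - (j + 1), by omega⟩
    set d := (b - ind P).degree + j + 1 with hd
    have hρd : ρ < d := by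
      have : (ρ : ℤ) < d := by rw [hd]; push_cast; linarith
      exact_mod_cast this
    obtain ⟨f, hf⟩ : ∃ f : Finset (Fin n) → MvPolynomial (Fin n) k, ∀ S, f S =
      if S ⊆ P ∧ S.card = i then monomial (b - ind S) (eps k P (P \ S) * φ (P \ S)) else 0 :=
        ⟨_, fun _ => rfl⟩
    have hsub : ∀ (b' : Fin n →₀ ℕ) (S : Finset (Fin n)), S ⊆ b'.support → S ⊆ P →
        S.card = i → coeff (b' - ind S) (f S) =
          if b' = b then eps k P (P \ S) * φ (P \ S) else 0 := by
      intro b' S hS' hS hSc
      rw [hf, if_pos ⟨hS, hSc⟩, coeff_monomial]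
      by_cases hbb : b' = b
      · rw [if_pos hbb, hbb, if_pos rfl]
      · rw [if_neg hbb, if_neg]
        intro hh
        exact hbb (sub_ind_inj b b' S hS hS' hh).symm
    obtain ⟨g, hg0, hg1, hg⟩ := h i d hρd f
      (by
        intro T hT
        rw [hf, if_neg (fun hh => hT hh.2)])
      (by
        intro T
        rw [hf]
        split_ifs with hT
        · refine ⟨?_, ?_⟩
          · rw [hJ]
            intro c hc
            rw [mem_support_iff, coeff_monomial] at hc
            have hcb : b - ind T = c := by
              by_contra h1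
              rw [if_neg h1] at hc
              exact hc rfl
            rw [if_pos hcb] at hc
            by_contra hmem
            apply right_ne_zero_of_mul hc
            apply hφ0
            rw [KA_iff]
            refine ⟨Finset.sdiff_subset, ?_⟩
            rw [Finset.sdiff_sdiff_eq_self hT.1, hcb]
            exact hmem
          · apply isHomogeneous_monomial
            have h1 := degree_sub_ind b T hT.1
            have h2 := degree_sub_ind b P (le_refl _)
            rw [hT.2] at h1
            omega
        · exact ⟨J.zero_mem, isHomogeneous_zero _ _ _⟩)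
      (by
        intro S
        change bdy f S = 0
        ext e
        rw [coeff_zero]
        rw [← add_ind_sub e S, coeff_bdy]
        set b' := e + ind S with hb'
        have hS' : S ⊆ b'.support := supp_add_ind e S
        by_cases hSP : S ⊆ P ∧ S.card + 1 = i
        · by_cases hbb : b' = b
          · rw [hbb]
            rw [kb_congr b.support _ (fun U => eps k P (P \ U) * φ (P \ U)) S (by
              intro t ht
              rw [mem_sdiff] at ht
              have h1 : insert t S ⊆ P := Finset.insert_subset ht.1 hSP.1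
              have h2 : (insert t S).card = i := by
                rw [Finset.card_insert_of_notMem ht.2]; exact hSP.2
              rw [hsub b _ h1 h1 h2, if_pos rfl])]
            have h3 := cob_eps P (fun U => eps k P (P \ U) * φ (P \ U)) (P \ S) Finset.sdiff_subset
            rw [Finset.sdiff_sdiff_eq_self hSP.1] at h3
            have h4 : cob (fun T => eps k P T * (fun U => eps k P (P \ U) * φ (P \ U)) (P \ T))
                (P \ S) = cob φ (P \ S) := by
              refine cob_congr _ _ _ fun t ht => ?_
              beta_reduce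
              have h5 : (P \ S).erase t ⊆ P := (Finset.erase_subset _ _).trans Finset.sdiff_subset
              rw [Finset.sdiff_sdiff_eq_self h5, ← mul_assoc, eps_mul_self, one_mul]
            rw [h4, hφ1 _ Finset.sdiff_subset (by
              rw [Finset.card_sdiff_of_subset hSP.1]; omega)] at h3
            have h6 := congrArg (fun x => eps k P (P \ S) * x) h3
            beta_reduce at h6
            rw [← mul_assoc, eps_mul_self, one_mul, mul_zero] at h6
            exact h6.symm
          · rw [kb_congr b'.support _ (fun _ => 0) S (by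
              intro t ht
              rw [mem_sdiff] at ht
              by_cases h1 : insert t S ⊆ P ∧ (insert t S).card = i
              · rw [hsub b' _ (Finset.insert_subset ht.1 hS') h1.1 h1.2, if_neg hbb]
              · rw [hf, if_neg h1, coeff_zero])]
            simp [kb]
        · rw [kb_congr b'.support _ (fun _ => 0) S (by
              intro t ht
              rw [mem_sdiff] at ht
              rw [hf, if_neg (by
                rintro ⟨h1, h2⟩
                apply hSP
                rw [Finset.card_insert_of_notMem ht.2] at h2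
                exact ⟨(Finset.subset_insert t S).trans h1, h2⟩), coeff_zero])]
          simp [kb])
    refine ⟨fun T => if T ⊆ P then eps k P T * coeff (b - ind (P \ T)) (g (P \ T)) else 0, ?_, ?_⟩
    · intro T hT
      rw [KA_iff] at hT
      beta_reduce
      rw [if_pos hT.1]
      by_contra hne
      exact hT.2 ((hJ _).1 (hg1 (P \ T)).1 _ (mem_support_iff.2 (right_ne_zero_of_mul hne)))
    · intro T hT hTc
      have hS : P \ T ⊆ P := Finset.sdiff_subset
      have hSc : (P \ T).card = i := by
        rw [Finset.card_sdiff_of_subset hT]; omega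
      have h1 := congrArg (coeff (b - ind (P \ T))) (hg (P \ T))
      rw [hsub b _ hS hS hSc, if_pos rfl, Finset.sdiff_sdiff_eq_self hT] at h1
      have h2 := coeff_bdy g (P \ T) b
      unfold bdy at h2
      rw [h2] at h1
      have h3 := cob_eps P (fun U => coeff (b - ind U) (g U)) T hT
      have h4 : cob (fun T => if T ⊆ P then eps k P T * coeff (b - ind (P \ T)) (g (P \ T)) else 0) T =
          cob (fun T => eps k P T * (fun U => coeff (b - ind U) (g U)) (P \ T)) T := by
        refine cob_congr _ _ _ fun t ht => ?_
        beta_reduce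
        rw [if_pos ((Finset.erase_subset _ _).trans hT)]
      rw [h4, h3, ← h1, ← mul_assoc, eps_mul_self, one_mul]
  · refine ⟨fun _ => 0, fun _ _ => rfl, fun T hT hTc => ?_⟩
    have := Finset.card_le_card hT
    omega

theorem targetKos : TKos := by
  intro k _ n mem hup J hJ ρ
  constructor
  · intro h P hP a ha
    set b : Fin n →₀ ℕ := Finsupp.equivFunOnFinite.symm a + ind P with hb
    have hsupp : b.support = P := by
      ext v
      rw [Finsupp.mem_support_iff, hb, Finsupp.add_apply, ind_apply]
      by_cases hv : v ∈ P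
      · simp [hv]
      · simp [hv, ha v hv]
    have hab : ⇑(b - ind P) = a := by
      rw [hb, add_ind_sub]; rfl
    have hdeg : (b - ind P).degree = ∑ v, a v := by
      rw [Finsupp.degree_eq_sum, hab]
    have := van_of_kos mem hup J hJ ρ h b (by rw [hsupp]; exact hP)
    rw [hsupp, hab, hdeg] at this
    exact this
  · intro h
    refine kos_of_van mem J hJ ρ ?_
    intro b hb
    have := h b.support hb (⇑(b - ind b.support)) (by
      intro v hv
      rw [Finsupp.notMem_support_iff] at hv
      rw [Finsupp.tsub_apply, hv, Nat.zero_sub])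
    rw [Finsupp.degree_eq_sum]
    exact this

end Pool.Agent.REG.Kosz
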