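import Pool.Agent.REG.Targets

/-!
Koszul homology of monomial ideals as relative cohomology of finite set families.
-/

set_option autoImplicit false

namespace Pool.Agent.REG.Kosz

open Finset

section Cochains

variable {k : Type} [Field k] {U : Type} [LinearOrder U]

theorem card_filter_erase (T : Finset U) (t u : U) (ht : t ∈ T) :
    (T.filter (· < u)).card = ((T.erase t).filter (· < u)).card + (if t < u then 1 else 0) := by
  by_cases h : t < u
  · rw [if_pos h, Finset.filter_erase, Finset.card_erase_of_mem (mem_filter.2 ⟨ht, h⟩)]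
    have : 0 < (T.filter (· < u)).card := Finset.card_pos.2 ⟨t, mem_filter.2 ⟨ht, h⟩⟩
    omega
  · rw [if_neg h, Finset.filter_erase, Finset.erase_eq_of_notMem]
    · rfl
    · simp [h]

theorem cob_cob (φ : Finset U → k) (T : Finset U) : cob (cob φ) T = 0 := by
  unfold cob
  simp only [Finset.mul_sum]
  rw [Finset.sum_sigma']
  refine Finset.sum_involution (fun p _ => ⟨p.2, p.1⟩) ?_ ?_ ?_ ?_
  · rintro ⟨t, u⟩ hp
    simp only [mem_sigma, mem_erase] at hp
    simp only
    obtain ⟨ht, hne, hu⟩ := hp
    have h1 := card_filter_erase T t u ht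
    have h2 := card_filter_erase T u t hu
    rw [Finset.erase_right_comm]
    rcases lt_or_gt_of_ne hne with h | h
    · rw [if_neg (not_lt.2 h.le)] at h1
      rw [if_pos h] at h2
      rw [h1, h2, pow_add]
      ring
    · rw [if_pos h] at h1
      rw [if_neg (not_lt.2 h.le)] at h2
      rw [h1, h2, pow_add]
      ring
  · rintro ⟨t, u⟩ hp _ heq
    simp only [mem_sigma, mem_erase] at hp
    have := congrArg Sigma.fst heq
    exact hp.2.1 this
  · rintro ⟨t, u⟩ hp
    simp only [mem_sigma, mem_erase] at hp ⊢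
    exact ⟨hp.2.2, hp.2.1.symm, hp.1⟩
  · rintro ⟨t, u⟩ hp
    rfl

theorem cob_congr (φ ψ : Finset U → k) (T : Finset U) (h : ∀ t ∈ T, φ (T.erase t) = ψ (T.erase t)) :
    cob φ T = cob ψ T := by
  unfold cob
  exact Finset.sum_congr rfl fun t ht => by rw [h t ht]

theorem cob_sub (φ ψ : Finset U → k) (T : Finset U) :
    cob (fun S => φ S - ψ S) T = cob φ T - cob ψ T := by
  unfold cob
  rw [← Finset.sum_sub_distrib]
  exact Finset.sum_congr rfl fun t _ => by ring

/-- The full simplex on a nonempty set is acyclic. -/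
theorem simplex_exact (P : Finset U) (hP : P.Nonempty) (φ : Finset U → k) (j : ℕ)
    (h : ∀ T ⊆ P, T.card = j + 1 → cob φ T = 0) :
    ∃ ψ : Finset U → k, ∀ T ⊆ P, T.card = j → φ T = cob ψ T := by
  set w := P.min' hP with hw
  have hwP : w ∈ P := P.min'_mem hP
  refine ⟨fun S => if w ∈ S then 0 else φ (insert w S), ?_⟩
  intro T hT hc
  by_cases hwT : w ∈ T
  · unfold cob
    rw [Finset.sum_eq_single_of_mem w hwT]
    · have h0 : T.filter (· < w) = ∅ := by
        rw [Finset.filter_eq_empty_iff]
        intro x hx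
        exact not_lt.2 (P.min'_le x (hT hx))
      beta_reduce
      rw [h0, if_neg (Finset.notMem_erase w T), Finset.insert_erase hwT]
      simp
    · intro t _ htw
      beta_reduce
      rw [if_pos (Finset.mem_erase.2 ⟨htw.symm, hwT⟩), mul_zero]
  · have h1 := h (insert w T) (Finset.insert_subset hwP hT) (by rw [Finset.card_insert_of_notMem hwT, hc])
    unfold cob at h1 ⊢
    rw [Finset.sum_insert hwT] at h1
    have h0 : (insert w T).filter (· < w) = ∅ := by
      rw [Finset.filter_eq_empty_iff]
      intro x hx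
      exact not_lt.2 (P.min'_le x ((Finset.insert_subset hwP hT) hx))
    rw [h0, Finset.erase_insert hwT, Finset.card_empty, pow_zero, one_mul] at h1
    rw [eq_neg_of_add_eq_zero_left h1, ← Finset.sum_neg_distrib]
    refine Finset.sum_congr rfl fun t ht => ?_
    have htw : t ≠ w := fun h => hwT (h ▸ ht)
    have hwt : w < t := lt_of_le_of_ne (P.min'_le t (hT ht)) htw.symm
    have h2 : w ∉ T.erase t := fun h => hwT (Finset.mem_of_mem_erase h)
    beta_reduce
    rw [if_neg h2, Finset.erase_insert_of_ne htw.symm]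
    have h3 : ((insert w T).filter (· < t)).card = (T.filter (· < t)).card + 1 := by
      rw [Finset.filter_insert, if_pos hwt, Finset.card_insert_of_notMem]
      simp [hwT]
    rw [h3, pow_succ]
    ring

/-- Relative exactness in cardinality `m + 1` of the pair (simplex on `P`, `K`). -/
def RelEx (k : Type) [Field k] (P : Finset U) (K : Finset U → Prop) (m : ℕ) : Prop :=
  ∀ φ : Finset U → k, (∀ T, K T → φ T = 0) → (∀ T ⊆ P, T.card = m + 2 → cob φ T = 0) →
    ∃ ψ : Finset U → k, (∀ T, K T → ψ T = 0) ∧ ∀ T ⊆ P, T.card = m + 1 → φ T = cob ψ T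

theorem relEx_of_ex (P : Finset U) (hP : P.Nonempty) (K : Finset U → Prop)
    (hKP : ∀ T, K T → T ⊆ P) (m : ℕ) (h : Ex k K m) : RelEx k P K m := by
  classical
  intro φ h0 h1
  obtain ⟨ψ0, hψ0⟩ := simplex_exact P hP φ (m + 1) h1
  obtain ⟨χ, hχ⟩ := h ψ0 (fun T hT hc => by rw [← hψ0 T (hKP T hT) hc, h0 T hT])
  refine ⟨fun T => if T.card = m then ψ0 T - cob χ T else 0, ?_, ?_⟩
  · intro T hT
    simp only
    split_ifs with hc
    · rw [hχ T hT hc, sub_self]
    · rfl
  · intro T hT hc
    have h2 : cob (fun T => if T.card = m then ψ0 T - cob χ T else 0) T =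
        cob (fun T => ψ0 T - cob χ T) T := by
      refine cob_congr _ _ _ fun t ht => ?_
      rw [if_pos (by rw [Finset.card_erase_of_mem ht, hc]; rfl)]
    rw [h2, cob_sub, cob_cob, sub_zero, hψ0 T hT hc]

theorem ex_of_relEx (P : Finset U) (hP : P.Nonempty) (K : Finset U → Prop) (hK : Down K)
    (hKP : ∀ T, K T → T ⊆ P) (m : ℕ) (h : RelEx k P K m) : Ex k K m := by
  classical
  intro φ hφ
  set φ' : Finset U → k := fun T => if K T then φ T else 0 with hφ'
  obtain ⟨ψ, hψ0, hψ⟩ := h (fun T => if T.card = m + 1 then cob φ' T else 0) (by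
      intro T hT
      split_ifs with hc
      · rw [← hφ T hT hc]
        refine cob_congr _ _ _ fun t _ => ?_
        simp only [hφ']
        rw [if_pos (hK _ _ (Finset.erase_subset t T) hT)]
      · rfl) (by
      intro T _ hc
      rw [← cob_cob φ' T]
      refine cob_congr _ _ _ fun t ht => ?_
      rw [if_pos (by rw [Finset.card_erase_of_mem ht, hc]; rfl)])
  obtain ⟨χ, hχ⟩ := simplex_exact P hP (fun T => φ' T - ψ T) m (by
    intro T hT hc
    rw [cob_sub, ← hψ T hT hc, if_pos hc, sub_self])
  refine ⟨χ, fun T hT hc => ?_⟩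
  have := hχ T (hKP T hT) hc
  rw [← this, hψ0 T hT, sub_zero]
  simp only [hφ']
  rw [if_pos hT]

/-- sign of the duality between Koszul chains and cochains -/
def eps (k : Type) [Field k] (P T : Finset U) : k := ∏ t ∈ T, (-1 : k) ^ (P.filter (· < t)).card

theorem eps_mul_self (P T : Finset U) : eps k P T * eps k P T = 1 := by
  unfold eps
  rw [← Finset.prod_mul_distrib]
  refine Finset.prod_eq_one fun t _ => ?_
  rw [← pow_add, ← two_mul, pow_mul]
  simp

theorem eps_erase (P T : Finset U) (t : U) (ht : t ∈ T) :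
    eps k P (T.erase t) = eps k P T * (-1) ^ (P.filter (· < t)).card := by
  unfold eps
  rw [← Finset.mul_prod_erase T _ ht]
  rw [mul_comm ((-1 : k) ^ _) _, mul_assoc, ← pow_add, ← two_mul, pow_mul]
  simp

/-- Koszul boundary in one multidegree -/
def kb (P : Finset U) (c : Finset U → k) (S : Finset U) : k :=
  ∑ t ∈ P \ S, (-1 : k) ^ (S.filter (· < t)).card * c (insert t S)

theorem cob_eps (P : Finset U) (c : Finset U → k) (T : Finset U) (hT : T ⊆ P) :
    cob (fun T => eps k P T * c (P \ T)) T = eps k P T * kb P c (P \ T) := by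
  unfold cob kb
  rw [Finset.sdiff_sdiff_eq_self hT, Finset.mul_sum]
  refine Finset.sum_congr rfl fun t ht => ?_
  have h1 : P \ (T.erase t) = insert t (P \ T) := by
    ext x
    simp only [mem_sdiff, mem_erase, mem_insert, not_and]
    constructor
    · rintro ⟨hx, h⟩
      by_cases hxt : x = t
      · exact Or.inl hxt
      · exact Or.inr ⟨hx, h hxt⟩
    · rintro (rfl | ⟨hx, h⟩)
      · exact ⟨hT ht, fun h => absurd rfl h⟩
      · exact ⟨hx, fun _ => h⟩
  have h2 : (P.filter (· < t)).card = (T.filter (· < t)).card + ((P \ T).filter (· < t)).card := by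
    rw [← Finset.card_union_of_disjoint]
    · congr 1
      rw [← Finset.filter_union, Finset.union_sdiff_of_subset hT]
    · exact Finset.disjoint_filter_filter (Finset.disjoint_sdiff)
  simp only [h1]
  rw [eps_erase P T t ht, h2, pow_add]
  have h3 : ((-1 : k) ^ (T.filter (· < t)).card) * ((-1 : k) ^ (T.filter (· < t)).card) = 1 := by
    rw [← pow_add, ← two_mul, pow_mul]; simp
  linear_combination (eps k P T * (-1) ^ ((P \ T).filter (· < t)).card * c (insert t (P \ T))) * h3

end Cochains

end Pool.Agent.REG.Kosz
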