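import Pool.Agent.REG.Targets

/-!
Long exact sequence lemmas for vanishing of the cohomology of finite set families.
-/

set_option autoImplicit false

namespace Pool.Agent.REG

open Finset

section Basic

variable {U : Type} [LinearOrder U] {k : Type} [Field k]

theorem cob_congr {φ ψ : Finset U → k} {T : Finset U} (h : ∀ t ∈ T, φ (T.erase t) = ψ (T.erase t)) :
    cob φ T = cob ψ T := by
  unfold cob
  exact Finset.sum_congr rfl fun t ht => by rw [h t ht]

theorem cob_add (φ ψ : Finset U → k) (T : Finset U) :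
    cob (fun S => φ S + ψ S) T = cob φ T + cob ψ T := by
  unfold cob
  rw [← Finset.sum_add_distrib]
  exact Finset.sum_congr rfl fun t _ => by ring

theorem cob_sub (φ ψ : Finset U → k) (T : Finset U) :
    cob (fun S => φ S - ψ S) T = cob φ T - cob ψ T := by
  unfold cob
  rw [← Finset.sum_sub_distrib]
  exact Finset.sum_congr rfl fun t _ => by ring

theorem cob_neg (φ : Finset U → k) (T : Finset U) :
    cob (fun S => - φ S) T = - cob φ T := by
  unfold cob
  rw [← Finset.sum_neg_distrib]
  exact Finset.sum_congr rfl fun t _ => by ring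

theorem cob_zero' {φ : Finset U → k} {T : Finset U} (h : ∀ t ∈ T, φ (T.erase t) = 0) :
    cob φ T = 0 := by
  unfold cob
  exact Finset.sum_eq_zero fun t ht => by rw [h t ht, mul_zero]

theorem cob_empty (φ : Finset U → k) : cob φ ∅ = 0 := by simp [cob]

/-- The sign of `w` with respect to `S`. -/
def sg (k : Type) [Field k] (w : U) (S : Finset U) : k := (-1 : k) ^ (S.filter (· < w)).card

theorem sg_mul (w : U) (S : Finset U) : sg k w S * sg k w S = 1 := by
  unfold sg
  rw [← mul_pow]; simp

theorem sg_mul_cancel (w : U) (S : Finset U) (x : k) : sg k w S * (sg k w S * x) = x := by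
  rw [← mul_assoc, sg_mul, one_mul]

theorem sg_ne (w : U) (S : Finset U) : sg k w S ≠ 0 := by
  intro h
  have := sg_mul (k := k) w S
  rw [h] at this
  simp at this

/-- The key identity. -/
theorem cob_insert (φ : Finset U → k) {w : U} {T : Finset U} (hw : w ∉ T) :
    cob φ (insert w T) = sg k w T * (φ T - cob (fun S => sg k w S * φ (insert w S)) T) := by
  unfold cob
  rw [Finset.sum_insert hw, mul_sub, Finset.mul_sum, sub_eq_add_neg, ← Finset.sum_neg_distrib]
  congr 1
  · rw [Finset.erase_insert hw]
    unfold sg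
    congr 2
    rw [Finset.filter_insert, if_neg (lt_irrefl w)]
  · refine Finset.sum_congr rfl fun t ht => ?_
    have htw : t ≠ w := fun h => hw (h ▸ ht)
    have hwt : w ∉ T.erase t := fun h => hw (Finset.mem_of_mem_erase h)
    have he : (insert w T).erase t = insert w (T.erase t) := by
      rw [Finset.erase_insert_of_ne htw.symm]
    rw [he]
    unfold sg
    have h1 : ((insert w T).filter (· < t)).card = (T.filter (· < t)).card + (if w < t then 1 else 0) := by
      rw [Finset.filter_insert]
      split_ifs with h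
      · rw [Finset.card_insert_of_notMem]
        intro h'; exact hw (Finset.mem_of_mem_filter _ h')
      · rfl
    have h2 : (T.filter (· < w)).card = ((T.erase t).filter (· < w)).card + (if t < w then 1 else 0) := by
      conv_lhs => rw [← Finset.insert_erase ht]
      rw [Finset.filter_insert]
      split_ifs with h
      · rw [Finset.card_insert_of_notMem]
        intro h'; exact (Finset.notMem_erase t T) (Finset.mem_of_mem_filter _ h')
      · rfl
    rw [h1, h2]
    have h3 : ((-1 : k) ^ ((T.erase t).filter (· < w)).card) * ((-1 : k) ^ ((T.erase t).filter (· < w)).card) = 1 := by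
      rw [← mul_pow]; simp
    rcases lt_or_gt_of_ne htw with h | h
    · rw [if_neg (not_lt.mpr h.le), if_pos h, add_zero, pow_add, pow_one]
      linear_combination (-1 : k) ^ (T.filter (· < t)).card * φ (insert w (T.erase t)) * (-h3)
    · rw [if_pos h, if_neg (not_lt.mpr h.le), add_zero, pow_add, pow_one]
      linear_combination (-1 : k) ^ (T.filter (· < t)).card * φ (insert w (T.erase t)) * h3

theorem cob_cob (ψ : Finset U → k) (T : Finset U) : cob (cob ψ) T = 0 := by
  induction T using Finset.induction_on generalizing ψ with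
  | empty => exact cob_empty _
  | insert w T hw ih =>
    rw [cob_insert _ hw]
    have h1 : cob (fun S => sg k w S * cob ψ (insert w S)) T
        = cob (fun S => ψ S - cob (fun R => sg k w R * ψ (insert w R)) S) T := by
      refine cob_congr fun t ht => ?_
      have hwt : w ∉ T.erase t := fun h => hw (Finset.mem_of_mem_erase h)
      rw [cob_insert ψ hwt, sg_mul_cancel]
    rw [h1, cob_sub, ih]
    ring

theorem cob_sub_cob (φ ψ : Finset U → k) (T : Finset U) :
    cob (fun S => φ S - cob ψ S) T = cob φ T := by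
  rw [cob_sub, cob_cob, sub_zero]

end Basic

theorem tConeT : TConeT := by
  intro k _ U _ K hK w hw t i _ φ hφ
  classical
  refine ⟨fun S => if w ∈ S then 0 else sg k w S * φ (insert w S), fun T hT hc => ?_⟩
  by_cases hwT : w ∈ T
  · obtain ⟨T', hT', rfl⟩ : ∃ T', w ∉ T' ∧ T = insert w T' :=
      ⟨T.erase w, Finset.notMem_erase w T, (Finset.insert_erase hwT).symm⟩
    rw [cob_insert _ hT', if_neg hT']
    have : cob (fun S => sg k w S * (if w ∈ insert w S then (0 : k)
        else sg k w (insert w S) * φ (insert w (insert w S)))) T' = 0 := by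
      refine cob_zero' fun t _ => ?_
      rw [if_pos (Finset.mem_insert_self _ _), mul_zero]
    rw [this, sub_zero, sg_mul_cancel]
  · have h1 := hφ (insert w T) (hw T hT) (by rw [Finset.card_insert_of_notMem hwT, hc])
    rw [cob_insert _ hwT] at h1
    have h2 := (mul_eq_zero.mp h1).resolve_left (sg_ne w T)
    rw [sub_eq_zero] at h2
    rw [h2]
    refine cob_congr fun t _ => ?_
    rw [if_neg (fun h => hwT (Finset.mem_of_mem_erase h))]

theorem tGlue : TGlue := by
  intro k _ U _ K hK w t hdel hlk i hi φ hφ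
  classical
  obtain ⟨ψ, hψ⟩ := hdel i hi φ fun T hT hc => hφ T hT.2 hc
  have hφ' : ∀ T, K T → T.card = i + 1 → cob (fun S => φ S - cob ψ S) T = 0 := by
    intro T hT hc
    rw [cob_sub_cob]; exact hφ T hT hc
  have hzero : ∀ T, K T → w ∉ T → T.card = i → φ T - cob ψ T = 0 := by
    intro T hT hw hc
    rw [hψ T ⟨hw, hT⟩ hc, sub_self]
  rcases Nat.eq_zero_or_pos i with rfl | hpos
  · refine ⟨ψ, fun T hT hc => ?_⟩
    have hT0 : T = ∅ := Finset.card_eq_zero.mp hc
    subst hT0
    exact hψ ∅ ⟨Finset.notMem_empty w, hT⟩ rfl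
  obtain ⟨j, rfl⟩ : ∃ j, i = j + 1 := ⟨i - 1, by omega⟩
  obtain ⟨χ, hχ⟩ := hlk j (by push_cast at hi; linarith)
    (fun S => sg k w S * (φ (insert w S) - cob ψ (insert w S))) (by
      intro T hT hc
      have h1 := hφ' (insert w T) hT.2 (by rw [Finset.card_insert_of_notMem hT.1, hc])
      rw [cob_insert _ hT.1] at h1
      have h2 := (mul_eq_zero.mp h1).resolve_left (sg_ne w T)
      rw [hzero T (hK _ _ (Finset.subset_insert w T) hT.2) hT.1 hc, zero_sub, neg_eq_zero] at h2
      exact h2)
  refine ⟨fun S => ψ S + (if w ∈ S then - (sg k w (S.erase w) * χ (S.erase w)) else 0),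
    fun T hT hc => ?_⟩
  rw [cob_add]
  by_cases hwT : w ∈ T
  · obtain ⟨T', hT', rfl⟩ : ∃ T', w ∉ T' ∧ T = insert w T' :=
      ⟨T.erase w, Finset.notMem_erase w T, (Finset.insert_erase hwT).symm⟩
    have hc' : T'.card = j := by
      rw [Finset.card_insert_of_notMem hT'] at hc; omega
    rw [cob_insert (fun S => if w ∈ S then - (sg k w (S.erase w) * χ (S.erase w)) else 0) hT',
      if_neg hT']
    have h3 : cob (fun S => sg k w S * (if w ∈ insert w S then
        - (sg k w ((insert w S).erase w) * χ ((insert w S).erase w)) else 0)) T'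
        = - cob χ T' := by
      rw [← cob_neg]
      refine cob_congr fun t _ => ?_
      have hwt : w ∉ T'.erase t := fun h => hT' (Finset.mem_of_mem_erase h)
      rw [if_pos (Finset.mem_insert_self _ _), Finset.erase_insert hwt, mul_neg, sg_mul_cancel]
    rw [h3, ← hχ T' ⟨hT', hT⟩ hc', zero_sub, neg_neg, sg_mul_cancel]
    ring
  · have h3 : cob (fun S => if w ∈ S then - (sg k w (S.erase w) * χ (S.erase w)) else 0) T = 0 := by
      refine cob_zero' fun t _ => ?_
      rw [if_neg (fun h => hwT (Finset.mem_of_mem_erase h))]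
    rw [h3, add_zero]
    exact hψ T ⟨hwT, hT⟩ hc

theorem tDel : TDel := by
  intro k _ U _ K hK w t hKv hlk i hi φ hφ
  classical
  have hsub : ∀ T, lk w K T → del w K T := fun T hT =>
    ⟨hT.1, hK _ _ (Finset.subset_insert w T) hT.2⟩
  obtain ⟨χ, hχ⟩ := hlk i hi φ fun T hT hc => hφ T (hsub T hT) hc
  obtain ⟨ψ, hψ⟩ := hKv i hi
    (fun S => if w ∈ S then sg k w (S.erase w) * χ (S.erase w) else φ S) (by
      intro T hT hc
      by_cases hwT : w ∈ T
      · obtain ⟨T', hT', rfl⟩ : ∃ T', w ∉ T' ∧ T = insert w T' :=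
          ⟨T.erase w, Finset.notMem_erase w T, (Finset.insert_erase hwT).symm⟩
        have hc' : T'.card = i := by
          rw [Finset.card_insert_of_notMem hT'] at hc; omega
        rw [cob_insert _ hT', if_neg hT']
        have h3 : cob (fun S => sg k w S * (if w ∈ insert w S then
            (sg k w ((insert w S).erase w) * χ ((insert w S).erase w)) else φ (insert w S))) T'
            = cob χ T' := by
          refine cob_congr fun t _ => ?_
          have hwt : w ∉ T'.erase t := fun h => hT' (Finset.mem_of_mem_erase h)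
          rw [if_pos (Finset.mem_insert_self _ _), Finset.erase_insert hwt, sg_mul_cancel]
        rw [h3, ← hχ T' ⟨hT', hT⟩ hc', sub_self, mul_zero]
      · rw [← hφ T ⟨hwT, hT⟩ hc]
        refine cob_congr fun t _ => ?_
        rw [if_neg (fun h => hwT (Finset.mem_of_mem_erase h))])
  refine ⟨ψ, fun T hT hc => ?_⟩
  rw [← hψ T hT.2 hc, if_neg hT.1]

theorem tLk : TLk := by
  intro k _ U _ K hK w t hKv hdel i hi φ hφ
  classical
  have hsub : ∀ T, lk w K T → del w K T := fun T hT =>
    ⟨hT.1, hK _ _ (Finset.subset_insert w T) hT.2⟩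
  obtain ⟨ψ, hψ⟩ := hKv (i + 1) (by push_cast; linarith)
    (fun S => if w ∈ S then sg k w (S.erase w) * φ (S.erase w) else 0) (by
      intro T hT hc
      by_cases hwT : w ∈ T
      · obtain ⟨T', hT', rfl⟩ : ∃ T', w ∉ T' ∧ T = insert w T' :=
          ⟨T.erase w, Finset.notMem_erase w T, (Finset.insert_erase hwT).symm⟩
        have hc' : T'.card = i + 1 := by
          rw [Finset.card_insert_of_notMem hT'] at hc; omega
        rw [cob_insert _ hT', if_neg hT']
        have h3 : cob (fun S => sg k w S * (if w ∈ insert w S then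
            (sg k w ((insert w S).erase w) * φ ((insert w S).erase w)) else 0)) T'
            = cob φ T' := by
          refine cob_congr fun t _ => ?_
          have hwt : w ∉ T'.erase t := fun h => hT' (Finset.mem_of_mem_erase h)
          rw [if_pos (Finset.mem_insert_self _ _), Finset.erase_insert hwt, sg_mul_cancel]
        rw [h3, hφ T' ⟨hT', hT⟩ hc', sub_self, mul_zero]
      · refine cob_zero' fun t _ => ?_
        rw [if_neg (fun h => hwT (Finset.mem_of_mem_erase h))])
  obtain ⟨η, hη⟩ := hdel i hi ψ (by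
    intro T hT hc
    rw [← hψ T hT.2 hc, if_neg hT.1])
  refine ⟨fun S => η S - sg k w S * ψ (insert w S), fun T hT hc => ?_⟩
  have h1 := hψ (insert w T) hT.2 (by rw [Finset.card_insert_of_notMem hT.1, hc])
  rw [if_pos (Finset.mem_insert_self _ _), Finset.erase_insert hT.1, cob_insert _ hT.1] at h1
  have h2 := mul_left_cancel₀ (sg_ne w T) h1
  rw [h2, cob_sub, ← hη T (hsub T hT) hc]

section Emb

variable {U U' : Type} [LinearOrder U] [LinearOrder U'] {k : Type} [Field k]

theorem cob_map (e : U ↪o U') (φ : Finset U' → k) (T : Finset U) :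
    cob φ (T.map e.toEmbedding) = cob (fun S => φ (S.map e.toEmbedding)) T := by
  unfold cob
  rw [Finset.sum_map]
  refine Finset.sum_congr rfl fun t _ => ?_
  have h1 : ((T.map e.toEmbedding).filter (· < e.toEmbedding t)).card
      = (T.filter (· < t)).card := by
    rw [Finset.filter_map, Finset.card_map]
    congr 1
    ext x
    simp
  have h2 : (T.map e.toEmbedding).erase (e.toEmbedding t) = (T.erase t).map e.toEmbedding := by
    rw [Finset.map_erase]
  rw [h1, h2]

end Emb

theorem tEmb : TEmb := by
  intro k _ U U' _ _ e K t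
  classical
  have key : ∀ i : ℕ, Ex k K i ↔
      Ex k (fun T' : Finset U' => ∃ T, K T ∧ T' = T.map e.toEmbedding) i := by
    intro i
    constructor
    · intro h φ' hφ'
      obtain ⟨ψ, hψ⟩ := h (fun S => φ' (S.map e.toEmbedding)) (by
        intro T hT hc
        rw [← cob_map]
        exact hφ' _ ⟨T, hT, rfl⟩ (by rw [Finset.card_map, hc]))
      refine ⟨fun S' => ψ (S'.preimage e (e.injective.injOn)), ?_⟩
      rintro _ ⟨T, hT, rfl⟩ hc
      rw [Finset.card_map] at hc
      rw [cob_map]
      have := hψ T hT hc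
      rw [this]
      refine cob_congr fun t _ => ?_
      congr 1
      ext x
      simp
    · intro h φ hφ
      obtain ⟨ψ', hψ'⟩ := h (fun S' => φ (S'.preimage e (e.injective.injOn))) (by
        rintro _ ⟨T, hT, rfl⟩ hc
        rw [Finset.card_map] at hc
        rw [cob_map, ← hφ T hT hc]
        refine cob_congr fun t _ => ?_
        congr 1
        ext x
        simp)
      refine ⟨fun S => ψ' (S.map e.toEmbedding), fun T hT hc => ?_⟩
      rw [← cob_map, ← hψ' _ ⟨T, hT, rfl⟩ (by rw [Finset.card_map, hc])]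
      congr 1
      ext x
      simp
  constructor
  · intro h i hi; exact (key i).mp (h i hi)
  · intro h i hi; exact (key i).mpr (h i hi)

section Rel

variable {U : Type} [LinearOrder U] {k : Type} [Field k]

/-- Relative exactness of a pair of families. -/
def RelEx (k : Type) [Field k] (X Y : Finset U → Prop) (i : ℕ) : Prop :=
  ∀ φ : Finset U → k, (∀ T, Y T → T.card = i → φ T = 0) →
    (∀ T, X T → T.card = i + 1 → cob φ T = 0) →
    ∃ ψ : Finset U → k, (∀ T, Y T → T.card + 1 = i → ψ T = 0) ∧
      ∀ T, X T → T.card = i → φ T = cob ψ T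

theorem ex_co_iff {X Y : Finset U → Prop} {w : U} (hX : ∀ T, X T → w ∉ T)
    (hYX : ∀ T, Y T → X T) (i : ℕ) : Ex k (Co w X Y) i ↔ RelEx k X Y i := by
  classical
  constructor
  · intro h φ hφY hφX
    obtain ⟨ψ, hψ⟩ := h (fun S => if w ∈ S then 0 else φ S) (by
      intro T hT hc
      rcases hT with ⟨hw, hT⟩ | ⟨hw, hT⟩
      · rw [← hφX T hT hc]
        refine cob_congr fun t _ => ?_
        rw [if_neg (fun h => hw (Finset.mem_of_mem_erase h))]
      · obtain ⟨T', hT', rfl⟩ : ∃ T', w ∉ T' ∧ T = insert w T' :=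
          ⟨T.erase w, Finset.notMem_erase w T, (Finset.insert_erase hw).symm⟩
        rw [Finset.erase_insert hT'] at hT
        have hc' : T'.card = i := by
          rw [Finset.card_insert_of_notMem hT'] at hc; omega
        rw [cob_insert _ hT', if_neg hT', hφY T' hT hc']
        have h3 : cob (fun S => sg k w S * (if w ∈ insert w S then (0 : k)
            else φ (insert w S))) T' = 0 := by
          refine cob_zero' fun t _ => ?_
          rw [if_pos (Finset.mem_insert_self _ _), mul_zero]
        rw [h3, sub_self, mul_zero])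
    refine ⟨fun S => ψ S - cob (fun R => sg k w R * ψ (insert w R)) S, ?_, ?_⟩
    · intro T hT hc
      have hwT : w ∉ T := hX T (hYX T hT)
      have h1 := hψ (insert w T) (Or.inr ⟨Finset.mem_insert_self _ _, by
        rw [Finset.erase_insert hwT]; exact hT⟩) (by
        rw [Finset.card_insert_of_notMem hwT, hc])
      rw [if_pos (Finset.mem_insert_self _ _), cob_insert _ hwT] at h1
      exact (mul_eq_zero.mp h1.symm).resolve_left (sg_ne w T)
    · intro T hT hc
      rw [cob_sub_cob, ← hψ T (Or.inl ⟨hX T hT, hT⟩) hc, if_neg (hX T hT)]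
  · intro h φ hφ
    -- make it vanish on the sets containing `w`
    set ψ₀ : Finset U → k := fun S => if w ∈ S then 0 else sg k w S * φ (insert w S) with hψ₀
    have hz : ∀ T, w ∈ T → φ T - cob ψ₀ T = 0 := by
      intro T hw
      obtain ⟨T', hT', rfl⟩ : ∃ T', w ∉ T' ∧ T = insert w T' :=
        ⟨T.erase w, Finset.notMem_erase w T, (Finset.insert_erase hw).symm⟩
      rw [cob_insert _ hT']
      have h3 : cob (fun S => sg k w S * ψ₀ (insert w S)) T' = 0 := by
        refine cob_zero' fun t _ => ?_
        rw [hψ₀]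
        simp only [Finset.mem_insert_self, if_true, mul_zero]
      rw [h3, sub_zero, hψ₀]
      simp only [hT', if_false]
      rw [sg_mul_cancel, sub_self]
    obtain ⟨ψ₁, hψ₁Y, hψ₁X⟩ := h (fun S => φ S - cob ψ₀ S) (by
      intro T hT hc
      have hwT : w ∉ T := hX T (hYX T hT)
      have h1 : cob (fun S => φ S - cob ψ₀ S) (insert w T) = 0 := by
        rw [cob_sub_cob]
        exact hφ (insert w T) (Or.inr ⟨Finset.mem_insert_self _ _, by
          rw [Finset.erase_insert hwT]; exact hT⟩) (by
          rw [Finset.card_insert_of_notMem hwT, hc])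
      rw [cob_insert _ hwT] at h1
      have h2 := (mul_eq_zero.mp h1).resolve_left (sg_ne w T)
      have h3 : cob (fun S => sg k w S * (φ (insert w S) - cob ψ₀ (insert w S))) T = 0 := by
        refine cob_zero' fun t _ => ?_
        rw [hz _ (Finset.mem_insert_self _ _), mul_zero]
      rw [h3, sub_zero] at h2
      exact h2) (by
      intro T hT hc
      rw [cob_sub_cob]
      exact hφ T (Or.inl ⟨hX T hT, hT⟩) hc)
    refine ⟨fun S => ψ₀ S + (if w ∈ S then 0 else ψ₁ S), fun T hT hc => ?_⟩
    rw [cob_add]
    rcases hT with ⟨hw, hT⟩ | ⟨hw, hT⟩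
    · have h3 : cob (fun S => if w ∈ S then (0 : k) else ψ₁ S) T = cob ψ₁ T := by
        refine cob_congr fun t _ => ?_
        rw [if_neg (fun h => hw (Finset.mem_of_mem_erase h))]
      rw [h3, ← hψ₁X T hT hc]
      ring
    · have hz' := hz T hw
      obtain ⟨T', hT', rfl⟩ : ∃ T', w ∉ T' ∧ T = insert w T' :=
        ⟨T.erase w, Finset.notMem_erase w T, (Finset.insert_erase hw).symm⟩
      rw [Finset.erase_insert hT'] at hT
      have hc' : T'.card + 1 = i := by
        rw [Finset.card_insert_of_notMem hT'] at hc; omega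
      rw [cob_insert (fun S => if w ∈ S then (0 : k) else ψ₁ S) hT', if_neg hT',
        hψ₁Y T' hT hc']
      have h3 : cob (fun S => sg k w S * (if w ∈ insert w S then (0 : k)
          else ψ₁ (insert w S))) T' = 0 := by
        refine cob_zero' fun t _ => ?_
        rw [if_pos (Finset.mem_insert_self _ _), mul_zero]
      rw [h3, sub_self, mul_zero, add_zero]
      exact sub_eq_zero.mp hz'

end Rel

theorem tTripleMid : TTripleMid := by
  intro k _ U _ X Y Z _ _ _ hYX hZY w hX t h1 h2 i hi
  rw [ex_co_iff hX hYX]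
  intro φ hφY hφX
  obtain ⟨ψ, hψZ, hψX⟩ := (ex_co_iff hX (fun T hT => hYX T (hZY T hT)) i).mp (h1 i hi) φ
    (fun T hT hc => hφY T (hZY T hT) hc) hφX
  rcases Nat.eq_zero_or_pos i with rfl | hpos
  · exact ⟨ψ, fun T _ hc => absurd hc (by omega), hψX⟩
  obtain ⟨j, rfl⟩ : ∃ j, i = j + 1 := ⟨i - 1, by omega⟩
  obtain ⟨η, _, hηX⟩ := (ex_co_iff (fun T hT => hX T (hYX T hT)) hZY j).mp
    (h2 j (by push_cast at hi; linarith)) ψ
    (fun T hT hc => hψZ T hT (by omega))
    (fun T hT hc => by rw [← hψX T (hYX T hT) hc]; exact hφY T hT hc)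
  refine ⟨fun S => ψ S - cob η S, ?_, ?_⟩
  · intro T hT hc
    show ψ T - cob η T = 0
    rw [hηX T hT (by omega), sub_self]
  · intro T hT hc
    rw [cob_sub_cob]; exact hψX T hT hc

theorem tTripleTrans : TTripleTrans := by
  intro k _ U _ X Y Z _ _ _ hYX hZY w hX t h1 h2 i hi
  rw [ex_co_iff hX (fun T hT => hYX T (hZY T hT))]
  intro φ hφZ hφX
  obtain ⟨ψ, hψZ, hψY⟩ := (ex_co_iff (fun T hT => hX T (hYX T hT)) hZY i).mp (h2 i hi) φ
    hφZ (fun T hT hc => hφX T (hYX T hT) hc)
  obtain ⟨η, hηY, hηX⟩ := (ex_co_iff hX hYX i).mp (h1 i hi) (fun S => φ S - cob ψ S)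
    (fun T hT hc => by rw [hψY T hT hc, sub_self])
    (fun T hT hc => by rw [cob_sub_cob]; exact hφX T hT hc)
  refine ⟨fun S => ψ S + η S, ?_, ?_⟩
  · intro T hT hc
    show ψ T + η T = 0
    rw [hψZ T hT hc, hηY T (hZY T hT) hc, add_zero]
  · intro T hT hc
    rw [cob_add, ← hηX T hT hc]
    ring

end Pool.Agent.REG
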