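import Pool.Agent.REG.ResGr

/-!
A graded free resolution with generators in degrees at most `r + i` bounds Koszul homology.
-/

set_option autoImplicit false

namespace Pool.Agent.REG

open Finset MvPolynomial

theorem tResA : TResA := by
  intro k _ n J r h i d hd
  obtain ⟨b, deg, g, D, hspan, hg, hD, hex0, hex, hdeg⟩ := h
  obtain ⟨d, rfl⟩ : ∃ d', d = d' + 1 := ⟨d - 1, by omega⟩
  -- homogeneity of the matrices
  have hDH : ∀ (i : ℕ) (s : Fin (b i)) (c : Fin (b (i + 1))),
      HG (deg i s) (deg (i + 1) c) (D i s c) := by
    intro i s c m hm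
    rcases hD i s c with h0 | ⟨h1, h2⟩
    · rw [h0] at hm; simp at hm
    · have := homog_iff.1 h2 m hm
      omega
  -- kernels are images
  have hker : ∀ i, LinearMap.ker (D i).mulVecLin = LinearMap.range (D (i + 1)).mulVecLin := by
    intro i
    ext v
    rw [LinearMap.mem_ker, LinearMap.mem_range, Matrix.mulVecLin_apply]
    exact hex i v
  -- all syzygy modules
  have key : ∀ (i j d : ℕ), r + j + 1 ≤ d →
      KX k n (GM (deg j) (LinearMap.range (D j).mulVecLin)) i d := by
    intro i
    induction i with
    | zero =>
      intro j d hd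
      refine kx_range_zero (hDH j) (fun c => ?_)
      have := hdeg (j + 1) c
      omega
    | succ i ih =>
      intro j d hd
      refine kx_range_succ (hDH j) ?_
      rw [hker j]
      exact ih (j + 1) (d + 1) (by omega)
  -- the ideal itself
  let A : Matrix (Fin 1) (Fin (b 0)) (MvPolynomial (Fin n) k) := fun _ j => g j
  have hA : ∀ s c, HG ((fun _ : Fin 1 => 0) s) (deg 0 c) (A s c) := by
    intro s c m hm
    have := homog_iff.1 (hg c) m hm
    simpa using this
  have hAker : LinearMap.ker A.mulVecLin = LinearMap.range (D 0).mulVecLin := by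
    ext v
    rw [LinearMap.mem_ker, LinearMap.mem_range, Matrix.mulVecLin_apply]
    have h1 := hex0 v
    constructor
    · intro h2
      exact h1.1 (congrFun h2 0)
    · intro h2
      funext s
      exact h1.2 h2
  have hArange : LinearMap.range A.mulVecLin = J1 J := by
    ext v
    rw [LinearMap.mem_range, mem_J1, ← hspan, Ideal.mem_span_range_iff_exists_fun]
    constructor
    · rintro ⟨w, rfl⟩
      refine ⟨w, ?_⟩
      rw [Matrix.mulVecLin_apply]
      simp only [Matrix.mulVec, dotProduct, A]
      exact Finset.sum_congr rfl (fun j _ => mul_comm _ _)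
    · rintro ⟨w, hw⟩
      refine ⟨w, ?_⟩
      funext s
      have hs : s = 0 := Subsingleton.elim _ _
      subst hs
      rw [Matrix.mulVecLin_apply, ← hw]
      simp only [Matrix.mulVec, dotProduct, A]
      exact Finset.sum_congr rfl (fun j _ => mul_comm _ _)
  rw [kosEx_iff, ← hArange]
  cases i with
  | zero =>
    refine kx_range_zero hA (fun c => ?_)
    have := hdeg 0 c
    omega
  | succ i =>
    refine kx_range_succ hA ?_
    rw [hAker]
    exact key i 0 (d + 1) (by omega)

end Pool.Agent.REG
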