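import Pool.Agent.REG.ResCommon

/-!
Vanishing of Koszul homology gives a graded free resolution.
-/

set_option autoImplicit false

namespace Pool.Agent.REG

open MvPolynomial Finset

variable {k : Type} [Field k] {n : ℕ}

section Proj

variable {b : ℕ} (deg : Fin b → ℕ)

/-- Projection to degree `e`. -/
noncomputable def pj (e : ℕ) (v : Fin b → MvPolynomial (Fin n) k) :
    Fin b → MvPolynomial (Fin n) k := fun j =>
  if deg j ≤ e then homogeneousComponent (e - deg j) (v j) else 0

theorem coeff_pj (e : ℕ) (v : Fin b → MvPolynomial (Fin n) k) (j : Fin b) (c : Fin n →₀ ℕ) :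
    coeff c (pj deg e v j) = if c.degree + deg j = e then coeff c (v j) else 0 := by
  unfold pj
  split_ifs with h1 h2 h2
  · rw [coeff_homogeneousComponent, if_pos (by omega)]
  · rw [coeff_homogeneousComponent, if_neg (by omega)]
  · omega
  · exact coeff_zero _

theorem pj_mem (e : ℕ) (v : Fin b → MvPolynomial (Fin n) k) : pj deg e v ∈ HV k n deg e := by
  intro j c h
  rw [coeff_pj] at h
  by_contra hne
  rw [if_neg hne] at h
  exact h rfl

theorem pj_self (e : ℕ) (v : Fin b → MvPolynomial (Fin n) k) (hv : v ∈ HV k n deg e) :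
    pj deg e v = v := by
  funext j
  ext c
  rw [coeff_pj]
  split_ifs with h
  · rfl
  · by_contra hne
    exact h (hv j c (fun h' => hne h'.symm))

theorem pj_mulVec {a : ℕ} (dega : Fin a → ℕ)
    (A : Matrix (Fin a) (Fin b) (MvPolynomial (Fin n) k))
    (hA : ∀ s c m, coeff m (A s c) ≠ 0 → m.degree + dega s = deg c) (e : ℕ)
    (w : Fin b → MvPolynomial (Fin n) k) :
    A.mulVec (pj deg e w) = pj dega e (A.mulVec w) := by
  classical
  funext i
  ext c
  rw [coeff_pj]
  have h1 : ∀ u : Fin b → MvPolynomial (Fin n) k, coeff c (A.mulVec u i) =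
      ∑ j, ∑ x ∈ HasAntidiagonal.antidiagonal c, coeff x.1 (A i j) * coeff x.2 (u j) := by
    intro u
    show coeff c (∑ j, A i j * u j) = _
    rw [coeff_sum]
    exact Finset.sum_congr rfl fun j _ => coeff_mul _ _ _
  rw [h1, h1]
  by_cases hc : c.degree + dega i = e
  · rw [if_pos hc]
    refine Finset.sum_congr rfl fun j _ => Finset.sum_congr rfl fun x hx => ?_
    by_cases h0 : coeff x.1 (A i j) = 0
    · rw [h0, zero_mul, zero_mul]
    · have h2 := hA i j _ h0
      have h3 : x.1.degree + x.2.degree = c.degree := by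
        rw [← map_add, HasAntidiagonal.mem_antidiagonal.mp hx]
      rw [coeff_pj, if_pos (by omega)]
  · rw [if_neg hc]
    refine Finset.sum_eq_zero fun j _ => Finset.sum_eq_zero fun x hx => ?_
    by_cases h0 : coeff x.1 (A i j) = 0
    · rw [h0, zero_mul]
    · have h2 := hA i j _ h0
      have h3 : x.1.degree + x.2.degree = c.degree := by
        rw [← map_add, HasAntidiagonal.mem_antidiagonal.mp hx]
      rw [coeff_pj, if_neg (by omega), mul_zero]

/-- The graded pieces of a submodule. -/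
noncomputable def GP (M : Submodule (MvPolynomial (Fin n) k) (Fin b → MvPolynomial (Fin n) k))
    (e : ℕ) : AddSubgroup (Fin b → MvPolynomial (Fin n) k) := HV k n deg e ⊓ M.toAddSubgroup

theorem mem_GP {M : Submodule (MvPolynomial (Fin n) k) (Fin b → MvPolynomial (Fin n) k)}
    {e : ℕ} {v : Fin b → MvPolynomial (Fin n) k} :
    v ∈ GP deg M e ↔ v ∈ HV k n deg e ∧ v ∈ M := by
  simp [GP]

end Proj

theorem bd_apply {b : ℕ} (f : Finset (Fin n) → (Fin b → MvPolynomial (Fin n) k))
    (T : Finset (Fin n)) (j : Fin b) :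
    bd k f T j = ∑ t ∈ Finset.univ \ T,
      (-1 : MvPolynomial (Fin n) k) ^ (T.filter (· < t)).card * X t * f (insert t T) j := by
  unfold bd
  rw [Finset.sum_apply]
  rfl

section Span

variable {b : ℕ} (deg : Fin b → ℕ)
  (M : Submodule (MvPolynomial (Fin n) k) (Fin b → MvPolynomial (Fin n) k))

/-- Graded submodules. -/
def Grd : Prop := ∀ v ∈ M, ∀ e : ℕ, pj deg e v ∈ M

/-- Homogeneous elements of degree at most `ρ`. -/
def HS (ρ : ℕ) : Set (Fin b → MvPolynomial (Fin n) k) := {v | v ∈ M ∧ ∃ e, e ≤ ρ ∧ v ∈ HV k n deg e}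

theorem hom_mem_span (ρ : ℕ) (hk : ∀ d : ℕ, ρ < d + 1 → KX k n (GP deg M) 0 d) (e : ℕ) :
    ∀ v ∈ M, v ∈ HV k n deg e → v ∈ Submodule.span (MvPolynomial (Fin n) k) (HS deg M ρ) := by
  induction e with
  | zero =>
    intro v hv hh
    exact Submodule.subset_span ⟨hv, 0, Nat.zero_le _, hh⟩
  | succ d ih =>
    intro v hv hh
    by_cases hd : d + 1 ≤ ρ
    · exact Submodule.subset_span ⟨hv, d + 1, hd, hh⟩
    obtain ⟨g, -, hg, hfg⟩ := hk d (by omega) (fun T => if T = ∅ then v else 0) (by
        intro T hT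
        rw [if_neg]
        intro h
        rw [h] at hT
        simp at hT) (by
        intro T
        by_cases h : T = ∅
        · simp only [if_pos h]; exact ⟨hh, hv⟩
        · simp only [if_neg h]; exact (GP deg M (d + 1)).zero_mem) (by
        intro T
        unfold bd
        refine Finset.sum_eq_zero fun t _ => ?_
        show _ • (if insert t T = ∅ then v else 0) = 0
        rw [if_neg (Finset.insert_ne_empty _ _), smul_zero])
    have h1 := hfg ∅
    rw [if_pos rfl] at h1
    rw [h1]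
    unfold bd
    exact Submodule.sum_mem _ fun t _ => Submodule.smul_mem _ _ (ih _ (hg _).2 (hg _).1)

theorem sum_pj (v : Fin b → MvPolynomial (Fin n) k) :
    ∃ N : ℕ, v = ∑ e ∈ Finset.range N, pj deg e v := by
  refine ⟨(∑ j, ((v j).totalDegree + deg j)) + 1, ?_⟩
  set N := (∑ j, ((v j).totalDegree + deg j)) + 1 with hN
  funext j
  rw [Finset.sum_apply]
  have hj : (v j).totalDegree + deg j < N := by
    have := Finset.single_le_sum (f := fun j => (v j).totalDegree + deg j)
      (fun _ _ => Nat.zero_le _) (Finset.mem_univ j)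
    omega
  have h1 : ∑ e ∈ Finset.range N, pj deg e v j =
      ∑ e ∈ Finset.Ico (deg j) N, homogeneousComponent (e - deg j) (v j) := by
    rw [← Finset.sum_subset (s₁ := Finset.Ico (deg j) N)]
    · refine Finset.sum_congr rfl fun e he => ?_
      unfold pj
      rw [if_pos (Finset.mem_Ico.mp he).1]
    · intro e he
      exact Finset.mem_range.mpr (Finset.mem_Ico.mp he).2
    · intro e he he'
      unfold pj
      rw [if_neg]
      intro h
      exact he' (Finset.mem_Ico.mpr ⟨h, Finset.mem_range.mp he⟩)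
  rw [h1, Finset.sum_Ico_eq_sum_range]
  simp only [Nat.add_sub_cancel_left]
  conv_lhs => rw [← sum_homogeneousComponent (v j)]
  refine Finset.sum_subset ?_ ?_
  · intro e he
    rw [Finset.mem_range] at he ⊢
    omega
  · intro e _ he
    rw [Finset.mem_range] at he
    exact homogeneousComponent_eq_zero _ _ (by omega)

theorem span_HS (ρ : ℕ) (hgr : Grd deg M)
    (hk : ∀ d : ℕ, ρ < d + 1 → KX k n (GP deg M) 0 d) :
    Submodule.span (MvPolynomial (Fin n) k) (HS deg M ρ) = M := by
  refine le_antisymm (Submodule.span_le.mpr fun v hv => hv.1) ?_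
  intro v hv
  obtain ⟨N, hN⟩ := sum_pj deg v
  rw [hN]
  exact Submodule.sum_mem _ fun e _ => hom_mem_span deg M ρ hk e _ (hgr v hv e) (pj_mem deg e v)

theorem exists_gens (ρ : ℕ) (hgr : Grd deg M)
    (hk : ∀ d : ℕ, ρ < d + 1 → KX k n (GP deg M) 0 d) :
    ∃ (b' : ℕ) (deg' : Fin b' → ℕ) (G : Fin b' → (Fin b → MvPolynomial (Fin n) k)),
      (∀ c, deg' c ≤ ρ) ∧ (∀ c, G c ∈ HV k n deg (deg' c)) ∧
      Submodule.span (MvPolynomial (Fin n) k) (Set.range G) = M := by
  have hfg : (Submodule.span (MvPolynomial (Fin n) k) (HS deg M ρ)).FG :=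
    IsNoetherian.noetherian _
  obtain ⟨s, hs, hspan⟩ := Submodule.fg_span_iff_fg_span_finset_subset (HS deg M ρ) |>.mp hfg
  rw [span_HS deg M ρ hgr hk] at hspan
  have hG : ∀ c : Fin s.card, ((s.equivFin.symm c : s) : Fin b → MvPolynomial (Fin n) k) ∈
      HS deg M ρ := fun c => hs (s.equivFin.symm c).2
  choose h1 deg' h2 h3 using hG
  refine ⟨s.card, deg', fun c => (s.equivFin.symm c : s), h2, h3, ?_⟩
  rw [hspan]
  congr 1
  ext v
  constructor
  · rintro ⟨c, rfl⟩
    exact (s.equivFin.symm c).2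
  · intro hv
    exact ⟨s.equivFin ⟨v, hv⟩, by simp⟩

end Span

/-- A graded submodule of a graded free module whose Koszul homology vanishes above `ρ`. -/
structure St (k : Type) [Field k] (n ρ : ℕ) where
  b : ℕ
  deg : Fin b → ℕ
  Z : Submodule (MvPolynomial (Fin n) k) (Fin b → MvPolynomial (Fin n) k)
  gr : Grd deg Z
  kx : ∀ j d : ℕ, ρ < d + 1 → KX k n (GP deg Z) j d

/-- The next syzygy module. -/
structure Nx {k : Type} [Field k] {n ρ : ℕ} (s : St k n ρ) where
  t : St k n (ρ + 1)
  D : Matrix (Fin s.b) (Fin t.b) (MvPolynomial (Fin n) k)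
  hdeg : ∀ c, t.deg c ≤ ρ
  hD : ∀ i j, D i j = 0 ∨ (s.deg i ≤ t.deg j ∧ (D i j).IsHomogeneous (t.deg j - s.deg i))
  hrange : ∀ v, v ∈ s.Z ↔ ∃ w, D.mulVec w = v
  hker : ∀ w, w ∈ t.Z ↔ D.mulVec w = 0

theorem nx_nonempty {ρ : ℕ} (s : St k n ρ) : Nonempty (Nx s) := by
  obtain ⟨b', deg', G, h1, h2, h3⟩ := exists_gens s.deg s.Z ρ s.gr (s.kx 0)
  let D : Matrix (Fin s.b) (Fin b') (MvPolynomial (Fin n) k) := fun i j => G j i
  have hHG : ∀ i j m, coeff m (D i j) ≠ 0 → m.degree + s.deg i = deg' j :=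
    fun i j c hc => h2 j i c hc
  have hrange : ∀ v, v ∈ s.Z ↔ ∃ w, D.mulVec w = v := by
    intro v
    rw [← h3, Submodule.mem_span_range_iff_exists_fun]
    have : ∀ w : Fin b' → MvPolynomial (Fin n) k, D.mulVec w = ∑ c, w c • G c := by
      intro w
      funext i
      rw [Finset.sum_apply]
      show ∑ c, D i c * w c = ∑ c, (w c • G c) i
      refine Finset.sum_congr rfl fun c _ => ?_
      rw [Pi.smul_apply, smul_eq_mul, mul_comm]
    simp only [this]
  refine ⟨⟨⟨b', deg', LinearMap.ker D.mulVecLin, ?_, ?_⟩, D, h1, ?_, hrange, ?_⟩⟩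
  · intro w hw e
    rw [LinearMap.mem_ker, Matrix.mulVecLin_apply] at hw ⊢
    rw [pj_mulVec deg' s.deg D hHG, hw]
    funext j
    unfold pj
    split_ifs
    · rw [Pi.zero_apply, map_zero]
    · rfl
  · intro j d hd
    obtain ⟨d', rfl⟩ : ∃ d', d = d' + 1 := ⟨d - 1, by omega⟩
    have hfree : KX k n (HV k n deg') j (d' + 1) := by
      refine kx_free deg' (Or.inr ?_)
      intro c
      have := h1 c
      omega
    have hm : ∀ e, ∀ x ∈ HV k n deg' e, D.mulVecLin x ∈ GP s.deg s.Z e := by
      intro e x hx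
      rw [mem_GP, Matrix.mulVecLin_apply]
      refine ⟨?_, (hrange _).mpr ⟨x, rfl⟩⟩
      rw [← pj_self deg' e x hx, pj_mulVec deg' s.deg D hHG]
      exact pj_mem _ _ _
    have hs : ∀ e, ∀ y ∈ GP s.deg s.Z e, ∃ x ∈ HV k n deg' e, D.mulVecLin x = y := by
      intro e y hy
      rw [mem_GP] at hy
      obtain ⟨w, hw⟩ := (hrange y).mp hy.2
      refine ⟨pj deg' e w, pj_mem _ _ _, ?_⟩
      rw [Matrix.mulVecLin_apply, pj_mulVec deg' s.deg D hHG, hw]
      exact pj_self _ _ _ hy.1
    exact kx_ker k D.mulVecLin (HV_XG deg') hm hs hfree (s.kx (j + 1) d' (by omega))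
  · intro i j
    by_cases h0 : D i j = 0
    · exact Or.inl h0
    · right
      obtain ⟨c, hc⟩ := exists_coeff_ne_zero h0
      have h4 := hHG i j c hc
      refine ⟨by show s.deg i ≤ deg' j; omega, ?_⟩
      intro c' hc'
      have h5 := hHG i j c' hc'
      have h6 : Finsupp.weight (1 : Fin n → ℕ) c' = c'.degree := by
        rw [Finsupp.degree_eq_weight_one]; rfl
      rw [h6]
      show c'.degree = deg' j - s.deg i
      omega
  · intro w
    rw [LinearMap.mem_ker, Matrix.mulVecLin_apply]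

/-- Choice of the next syzygy module. -/
noncomputable def nxt {ρ : ℕ} (s : St k n ρ) : Nx s := Classical.choice (nx_nonempty s)

/-- The first module: the ideal. -/
noncomputable def st0 (J : Ideal (MvPolynomial (Fin n) k)) (r : ℕ) (hJ : Homog J)
    (hK : ∀ i d : ℕ, r < d → KosEx k J i d) : St k n r where
  b := 1
  deg := fun _ => 0
  Z := Submodule.comap (LinearMap.proj (R := MvPolynomial (Fin n) k)
    (φ := fun _ : Fin 1 => MvPolynomial (Fin n) k) 0) J
  gr := by
    intro v hv e
    rw [Submodule.mem_comap, LinearMap.proj_apply] at hv ⊢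
    show (if 0 ≤ e then homogeneousComponent (e - 0) (v 0) else 0) ∈ J
    rw [if_pos (Nat.zero_le _)]
    exact hJ _ hv _
  kx := by
    intro i d hd f hf0 hfG hcyc
    obtain ⟨g, hg0, hg1, hg2⟩ := hK i (d + 1) hd (fun T => f T 0) (fun T hT => by
        rw [hf0 T hT]; rfl) (fun T => ⟨((mem_GP _).mp (hfG T)).2, by
        intro c hc
        have h1 := ((mem_GP _).mp (hfG T)).1 0 c hc
        have h6 : Finsupp.weight (1 : Fin n → ℕ) c = c.degree := by
          rw [Finsupp.degree_eq_weight_one]; rfl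
        rw [h6]
        simpa using h1⟩) (fun T => by
        have h1 := congrFun (hcyc T) 0
        rw [bd_apply] at h1
        exact h1)
    refine ⟨fun U _ => g U, fun U hU => ?_, fun U => (mem_GP _).mpr ⟨?_, (hg1 U).1⟩,
      fun T => ?_⟩
    · funext j
      exact hg0 U hU
    · intro j c hc
      have h1 := (hg1 U).2
      have h2 : c.degree = d := by
        by_contra hne
        exact hc (h1.coeff_eq_zero (by simpa using hne))
      simpa using h2
    · funext j
      rw [bd_apply]
      have hj : j = 0 := Subsingleton.elim _ _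
      rw [hj]
      exact hg2 T

/-- The sequence of syzygy modules. -/
noncomputable def sq (J : Ideal (MvPolynomial (Fin n) k)) (r : ℕ) (hJ : Homog J)
    (hK : ∀ i d : ℕ, r < d → KosEx k J i d) : (i : ℕ) → St k n (r + i)
  | 0 => st0 J r hJ hK
  | i + 1 => (nxt (sq J r hJ hK i)).t

theorem tResB : TResB := by
  intro k _ n J r hJ hK
  let s := sq J r hJ hK
  let D0 : Matrix (Fin 1) (Fin (s 1).b) (MvPolynomial (Fin n) k) := (nxt (s 0)).D
  have hD0 : ∀ j, D0 0 j = 0 ∨ (0 ≤ (s 1).deg j ∧ (D0 0 j).IsHomogeneous ((s 1).deg j - 0)) :=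
    fun j => (nxt (s 0)).hD (0 : Fin 1) j
  have h0 : ∀ v : MvPolynomial (Fin n) k, v ∈ J ↔
      ∃ w, D0.mulVec w = (fun _ => v) := fun v => (nxt (s 0)).hrange (fun _ => v)
  have hk0 : ∀ w, w ∈ (s 1).Z ↔ D0.mulVec w = 0 := (nxt (s 0)).hker
  have hsum : ∀ w, D0.mulVec w 0 = ∑ j, D0 0 j * w j := fun w => rfl
  refine ⟨fun i => (s (i + 1)).b, fun i => (s (i + 1)).deg,
    fun j => D0 0 j, fun i => (nxt (s (i + 1))).D, ?_, ?_, ?_, ?_, ?_, ?_⟩
  · ext v
    rw [h0 v]
    rw [Ideal.mem_span_range_iff_exists_fun]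
    constructor
    · rintro ⟨c, hc⟩
      refine ⟨c, ?_⟩
      funext j
      have hj : j = (0 : Fin 1) := Subsingleton.elim _ _
      rw [hj, ← hc, hsum]
      exact Finset.sum_congr rfl fun _ _ => mul_comm _ _
    · rintro ⟨w, hw⟩
      refine ⟨w, ?_⟩
      have := congrFun hw (0 : Fin 1)
      rw [← this, hsum]
      exact Finset.sum_congr rfl fun _ _ => mul_comm _ _
  · intro j
    rcases hD0 j with h | h
    · show (D0 0 j).IsHomogeneous _
      rw [h]; exact isHomogeneous_zero _ _ _
    · exact h.2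
  · intro i a c
    exact (nxt (s (i + 1))).hD a c
  · intro v
    have h1 := hk0 v
    have h2 := (nxt (s 1)).hrange v
    constructor
    · intro h
      refine h2.mp (h1.mpr ?_)
      funext j
      have hj : j = (0 : Fin 1) := Subsingleton.elim _ _
      rw [hj]
      exact h
    · intro h
      exact congrFun (h1.mp (h2.mpr h)) (0 : Fin 1)
  · intro i v
    have h1 := (nxt (s (i + 1))).hker v
    have h2 := (nxt (s (i + 2))).hrange v
    exact ⟨fun h => h2.mp (h1.mpr h), fun h => h1.mp (h2.mpr h)⟩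
  · intro i j
    exact (nxt (s i)).hdeg j

end Pool.Agent.REG
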