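import Pool.Agent.REG.Targets

/-!
Koszul type complexes versus degree complexes (job TAKA).
-/

set_option autoImplicit false

namespace Pool.Agent.REG

open Finset

namespace Taka

variable {V : Type} [LinearOrder V]

/-- The exponent vector in the definition of `KA`. -/
def ex (Q : Finset V) (N : ℕ) (a : V → ℕ) (T : Finset V) : V → ℕ :=
  fun v => a v + (if v ∈ T then 1 else 0) + (if v ∈ T ∧ v ∈ Q then N else 0)

/-- The faces avoiding `v` when the exponent of `v` is `c`. -/
def XC (mem : (V → ℕ) → Prop) (P Q : Finset V) (N : ℕ) (a : V → ℕ) (v : V) (c : ℕ)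
    (T : Finset V) : Prop :=
  v ∉ T ∧ T ⊆ P ∧ ¬ mem (Function.update (ex Q N a T) v c)

theorem XC_down {mem : (V → ℕ) → Prop} (hup : UpMem mem) (P Q : Finset V) (N : ℕ) (a : V → ℕ)
    (v : V) (c : ℕ) : Down (XC mem P Q N a v c) := by
  rintro S T hST ⟨hv, hP, hm⟩
  refine ⟨fun h => hv (hST h), hST.trans hP, fun h => hm (hup _ _ ?_ h)⟩
  intro u
  by_cases huv : u = v
  · subst huv; simp
  · rw [Function.update_of_ne huv, Function.update_of_ne huv]
    unfold ex
    refine Nat.add_le_add (Nat.add_le_add le_rfl ?_) ?_
    · by_cases h1 : u ∈ S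
      · rw [if_pos h1, if_pos (hST h1)]
      · rw [if_neg h1]; exact Nat.zero_le _
    · by_cases h1 : u ∈ S ∧ u ∈ Q
      · rw [if_pos h1, if_pos ⟨hST h1.1, h1.2⟩]
      · rw [if_neg h1]; exact Nat.zero_le _

theorem XC_mono {mem : (V → ℕ) → Prop} (hup : UpMem mem) (P Q : Finset V) (N : ℕ) (a : V → ℕ)
    (v : V) {c c' : ℕ} (hc : c ≤ c') (T : Finset V) (h : XC mem P Q N a v c' T) :
    XC mem P Q N a v c T := by
  refine ⟨h.1, h.2.1, fun hm => h.2.2 (hup _ _ ?_ hm)⟩
  intro u
  by_cases huv : u = v
  · subst huv; simpa using hc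
  · rw [Function.update_of_ne huv, Function.update_of_ne huv]

theorem XC_cap {mem : (V → ℕ) → Prop} (hup : UpMem mem) {N : ℕ} (hcap : CapMem mem N)
    (P Q : Finset V) (a : V → ℕ) (v : V) {c c' : ℕ} (hc' : N ≤ c')
    (T : Finset V) (h : XC mem P Q N a v c' T) : XC mem P Q N a v c T := by
  refine ⟨h.1, h.2.1, fun hm => h.2.2 (hup _ _ ?_ (hcap _ hm))⟩
  intro u
  by_cases huv : u = v
  · subst huv
    simp only [Function.update_self]
    exact (min_le_right _ _).trans hc'
  · simp only [Function.update_of_ne huv]
    exact min_le_left _ _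

theorem XC_update (mem : (V → ℕ) → Prop) (P Q : Finset V) (N : ℕ) (a : V → ℕ)
    (v : V) (b c : ℕ) :
    XC mem P Q N (Function.update a v b) v c = XC mem P Q N a v c := by
  funext T
  unfold XC
  have : Function.update (ex Q N (Function.update a v b) T) v c =
      Function.update (ex Q N a T) v c := by
    funext u
    by_cases huv : u = v
    · subst huv; simp
    · rw [Function.update_of_ne huv, Function.update_of_ne huv]
      unfold ex
      rw [Function.update_of_ne huv]
  rw [this]

theorem KA_iff (mem : (V → ℕ) → Prop) (P Q : Finset V) (N : ℕ) (a : V → ℕ) (T : Finset V) :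
    KA mem P Q N a T ↔ T ⊆ P ∧ ¬ mem (ex Q N a T) := Iff.rfl

/-- The family at `Q` as a union of a base and a cone. -/
theorem KA_co (mem : (V → ℕ) → Prop) (P Q Q' : Finset V) (N : ℕ) (a : V → ℕ) (v : V)
    (hv : v ∈ P) (hQ : v ∉ Q) (hQ' : ∀ u, u ≠ v → (u ∈ Q' ↔ u ∈ Q)) (c : ℕ)
    (hc : c = a v + 1 + (if v ∈ Q' then N else 0)) :
    KA mem P Q' N a = Co v (XC mem P Q N a v (a v)) (XC mem P Q N a v c) := by
  funext T
  rw [KA_iff]
  apply propext
  unfold Co
  by_cases hT : v ∈ T
  · have e1 : Function.update (ex Q N a (T.erase v)) v c = ex Q' N a T := by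
      funext u
      by_cases huv : u = v
      · subst huv
        rw [Function.update_self, hc]
        unfold ex
        simp [hT]
      · rw [Function.update_of_ne huv]
        unfold ex
        have h1 : u ∈ T.erase v ↔ u ∈ T := by simp [huv]
        simp only [h1, hQ' u huv]
    constructor
    · rintro ⟨h1, h2⟩
      right
      refine ⟨hT, Finset.notMem_erase _ _, (Finset.erase_subset _ _).trans h1, ?_⟩
      rw [e1]
      exact h2
    · rintro (⟨h, _⟩ | ⟨_, _, h1, h2⟩)
      · exact absurd hT h
      · refine ⟨?_, by rwa [e1] at h2⟩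
        intro u hu
        by_cases huv : u = v
        · rw [huv]; exact hv
        · exact h1 (Finset.mem_erase.2 ⟨huv, hu⟩)
  · have e1 : Function.update (ex Q N a T) v (a v) = ex Q' N a T := by
      funext u
      by_cases huv : u = v
      · subst huv
        rw [Function.update_self]
        unfold ex
        simp [hT]
      · rw [Function.update_of_ne huv]
        unfold ex
        simp only [hQ' u huv]
    constructor
    · rintro ⟨h1, h2⟩
      left
      exact ⟨hT, hT, h1, by rw [e1]; exact h2⟩
    · rintro (⟨_, _, h1, h2⟩ | ⟨h, _⟩)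
      · exact ⟨h1, by rwa [e1] at h2⟩
      · exact absurd h hT

theorem KA_co_not (mem : (V → ℕ) → Prop) (P Q : Finset V) (N : ℕ) (a : V → ℕ) (v : V)
    (hv : v ∈ P) (hQ : v ∉ Q) :
    KA mem P Q N a = Co v (XC mem P Q N a v (a v)) (XC mem P Q N a v (a v + 1)) :=
  KA_co mem P Q Q N a v hv hQ (fun _ _ => Iff.rfl) _ (by simp [hQ])

theorem KA_co_mem (mem : (V → ℕ) → Prop) (P Q : Finset V) (N : ℕ) (a : V → ℕ) (v : V)
    (hv : v ∈ P) (hQ : v ∉ Q) :
    KA mem P (insert v Q) N a =
      Co v (XC mem P Q N a v (a v)) (XC mem P Q N a v (a v + 1 + N)) :=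
  KA_co mem P Q (insert v Q) N a v hv hQ (fun u hu => by simp [hu]) _ (by simp)

theorem sum_update [Fintype V] (a : V → ℕ) (v : V) :
    (((∑ u, Function.update a v (a v + 1) u : ℕ) : ℤ)) = ((∑ u, a u : ℕ) : ℤ) + 1 := by
  have h : (∑ u, Function.update a v (a v + 1) u) = (∑ u, a u) + 1 := by
    rw [Finset.sum_update_of_mem (Finset.mem_univ v), ← Finset.add_sum_erase _ _ (Finset.mem_univ v),
      Finset.sdiff_singleton_eq_erase]
    ring
  rw [h]
  push_cast
  ring

end Taka

open Taka

theorem tTakaUp (hMid : TTripleMid) : TTakaUp := by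
  intro k _ V _ _ mem N hup hcap P R hP
  have key : ∀ Q : Finset V, Q ⊆ P → ∀ a : V → ℕ, (∀ v, v ∉ P → a v = 0) →
      Van k (KA mem P (P \ Q) N a) (R - ((∑ v, a v : ℕ) : ℤ)) := by
    intro Q
    induction Q using Finset.induction_on with
    | empty =>
      intro _ a ha
      rw [Finset.sdiff_empty]
      exact hP a ha
    | insert v Q hvQ ih =>
      intro hQP a ha
      have hvP : v ∈ P := hQP (Finset.mem_insert_self _ _)
      have hQP' : Q ⊆ P := (Finset.subset_insert _ _).trans hQP
      have hins : insert v (P \ insert v Q) = P \ Q := by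
        ext u
        simp only [Finset.mem_insert, Finset.mem_sdiff]
        by_cases huv : u = v
        · subst huv; simp [hvP, hvQ]
        · simp [huv]
      have hnot : v ∉ P \ insert v Q := by simp
      set Q' := P \ insert v Q with hQ'
      have h1 := ih hQP' a ha
      rw [← hins, KA_co_mem mem P Q' N a v hvP hnot] at h1
      have h2 := ih hQP' (Function.update a v (a v + 1)) (by
        intro u hu
        have : u ≠ v := fun h => hu (h ▸ hvP)
        rw [Function.update_of_ne this]
        exact ha u hu)
      rw [← hins, KA_co_mem mem P Q' N _ v hvP hnot, XC_update, XC_update,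
        Function.update_self, sum_update] at h2
      have h3 : XC mem P Q' N a v (a v + 1 + 1 + N) = XC mem P Q' N a v (a v + 1 + N) := by
        funext T
        exact propext ⟨fun h => XC_mono hup _ _ _ _ _ (by omega) _ h,
          fun h => XC_cap hup hcap _ _ _ _ (by omega) _ h⟩
      rw [h3] at h2
      rw [KA_co_not mem P Q' N a v hvP hnot]
      refine hMid k V _ _ (XC mem P Q' N a v (a v + 1 + N)) (XC_down hup _ _ _ _ _ _)
        (XC_down hup _ _ _ _ _ _) (XC_down hup _ _ _ _ _ _)
        (fun T h => XC_mono hup _ _ _ _ _ (by omega) _ h)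
        (fun T h => XC_mono hup _ _ _ _ _ (by omega) _ h) v (fun T h => h.1) _ h1 ?_
      have : R - ((∑ v, a v : ℕ) : ℤ) - 1 = R - (((∑ v, a v : ℕ) : ℤ) + 1) := by ring
      rw [this]
      exact h2
  intro a ha
  have := key P (Finset.Subset.refl _) a ha
  rwa [Finset.sdiff_self] at this

theorem tTakaDown (hCone : TConeT) (hTrans : TTripleTrans) : TTakaDown := by
  intro k _ V _ _ mem N hup hcap P R hP
  have key : ∀ Q : Finset V, Q ⊆ P → ∀ a : V → ℕ, (∀ v, v ∉ P → a v = 0) →
      Van k (KA mem P Q N a) (R - ((∑ v, a v : ℕ) : ℤ)) := by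
    intro Q
    induction Q using Finset.induction_on with
    | empty =>
      intro _ a ha
      exact hP a ha
    | insert v Q hvQ ih =>
      intro hQP
      have hvP : v ∈ P := hQP (Finset.mem_insert_self _ _)
      have hQP' : Q ⊆ P := (Finset.subset_insert _ _).trans hQP
      have main : ∀ m : ℕ, ∀ a : V → ℕ, (∀ v, v ∉ P → a v = 0) → N ≤ a v + m →
          Van k (KA mem P (insert v Q) N a) (R - ((∑ v, a v : ℕ) : ℤ)) := by
        intro m
        induction m with
        | zero =>
          intro a ha hN
          rw [KA_co_mem mem P Q N a v hvP hvQ]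
          have h3 : XC mem P Q N a v (a v + 1 + N) = XC mem P Q N a v (a v) := by
            funext T
            exact propext ⟨fun h => XC_mono hup _ _ _ _ _ (by omega) _ h,
              fun h => XC_cap hup hcap _ _ _ _ (by omega) _ h⟩
          rw [h3]
          refine hCone k V _ ?_ v ?_ _
          · intro S T hST hT
            have hd := XC_down hup P Q N a v (a v)
            rcases hT with ⟨h1, h2⟩ | ⟨h1, h2⟩
            · exact Or.inl ⟨fun h => h1 (hST h), hd _ _ hST h2⟩
            · by_cases hS : v ∈ S
              · exact Or.inr ⟨hS, hd _ _ (Finset.erase_subset_erase _ hST) h2⟩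
              · refine Or.inl ⟨hS, hd _ _ ?_ h2⟩
                intro u hu
                exact Finset.mem_erase.2 ⟨fun h => hS (h ▸ hu), hST hu⟩
          · intro T hT
            rcases hT with ⟨h1, h2⟩ | ⟨h1, h2⟩
            · refine Or.inr ⟨Finset.mem_insert_self _ _, ?_⟩
              rw [Finset.erase_insert h1]
              exact h2
            · rw [Finset.insert_eq_self.2 h1]
              exact Or.inr ⟨h1, h2⟩
        | succ m ihm =>
          intro a ha hN
          have h1 := ih hQP' a ha
          rw [KA_co_not mem P Q N a v hvP hvQ] at h1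
          have h2 := ihm (Function.update a v (a v + 1)) (by
            intro u hu
            have : u ≠ v := fun h => hu (h ▸ hvP)
            rw [Function.update_of_ne this]
            exact ha u hu) (by rw [Function.update_self]; omega)
          rw [KA_co_mem mem P Q N _ v hvP hvQ, XC_update, XC_update,
            Function.update_self, sum_update] at h2
          have h3 : XC mem P Q N a v (a v + 1 + 1 + N) = XC mem P Q N a v (a v + 1 + N) := by
            funext T
            exact propext ⟨fun h => XC_mono hup _ _ _ _ _ (by omega) _ h,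
              fun h => XC_cap hup hcap _ _ _ _ (by omega) _ h⟩
          rw [h3] at h2
          rw [KA_co_mem mem P Q N a v hvP hvQ]
          exact hTrans k V _ _ _ (XC_down hup _ _ _ _ _ _)
            (XC_down hup _ _ _ _ _ _) (XC_down hup _ _ _ _ _ _)
            (fun T h => XC_mono hup _ _ _ _ _ (by omega) _ h)
            (fun T h => XC_mono hup _ _ _ _ _ (by omega) _ h) v (fun T h => h.1) _ h1
            (h2.mono (by omega))
      intro a ha
      exact main N a ha (by omega)
  intro a ha
  exact key P (Finset.Subset.refl _) a ha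

end Pool.Agent.REG
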