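import Pool.Agent.REG.Induct

/-!
The abstract upper bound `TUpper`.
-/

set_option autoImplicit false

namespace Pool.Agent.REG

open Finset

variable {U : Type} [LinearOrder U]

theorem mem_NB {Γ : SimpleGraph U} {V C T : Finset U} {c : U} :
    c ∈ NB Γ V C T ↔ c ∈ C ∧ (c ∈ T ∨ ∃ v ∈ T, v ∈ V ∧ Γ.Adj v c) := by
  classical
  unfold NB
  simp only [Finset.mem_union, Finset.mem_inter, Finset.mem_filter]
  constructor
  · rintro (⟨h1, h2⟩ | ⟨h1, v, ⟨h2, h3⟩, h4⟩)
    · exact ⟨h2, Or.inl h1⟩
    · exact ⟨h1, Or.inr ⟨v, h2, h3, h4⟩⟩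
  · rintro ⟨h1, h2 | ⟨v, h2, h3, h4⟩⟩
    · exact Or.inl ⟨h2, h1⟩
    · exact Or.inr ⟨h1, v, ⟨h2, h3⟩, h4⟩

/-- monotonicity of `B ↦ |B| + ν(C \ B)` -/
theorem matching_count_mono {Γ : SimpleGraph U} {C : Finset U} {q : ℤ} {B B' : Finset U}
    (hB : B ⊆ B') (hB' : B' ⊆ C)
    (h : ∀ M, IsM Γ (C \ B') M → (B'.card : ℤ) + (M.card : ℤ) ≤ q) :
    ∀ M, IsM Γ (C \ B) M → (B.card : ℤ) + (M.card : ℤ) ≤ q := by
  -- use the already proved closure of `KF` with the trivial complex
  have h1 := KF_down (Γ := Γ) (L := fun T => T = ∅)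
    (fun S T hST hT => by subst hT; exact Finset.subset_empty.mp hST) C ∅ q B B' hB
    ⟨Finset.sdiff_eq_empty_iff_subset.mpr hB', Finset.disjoint_empty_right _, fun M hM => by
      rw [Finset.inter_eq_left.mpr hB']; exact h M hM⟩
  intro M hM
  have h2 := h1.2.2 M hM
  rwa [Finset.inter_eq_left.mpr (hB.trans hB')] at h2

theorem XF_down {Γ : SimpleGraph U} (V C R : Finset U) (q : ℤ) : Down (XF Γ V C R q) := by
  rintro S T hST ⟨h1, h2, h3, h4⟩
  refine ⟨hST.trans h1, Finset.disjoint_of_subset_left hST h2, ?_, ?_⟩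
  · intro x hx y hy
    exact h3 x (Finset.inter_subset_inter hST le_rfl hx) y (Finset.inter_subset_inter hST le_rfl hy)
  · refine matching_count_mono ?_ ?_ h4
    · intro c hc
      rw [mem_NB] at hc ⊢
      refine ⟨hc.1, ?_⟩
      rcases hc.2 with h | ⟨v, hv, hvV, hadj⟩
      · exact Or.inl (hST h)
      · exact Or.inr ⟨v, hST hv, hvV, hadj⟩
    · exact fun c hc => (mem_NB.mp hc).1

theorem XF_del {Γ : SimpleGraph U} (V C R : Finset U) (q : ℤ) (w : U) (T : Finset U) :
    XF Γ V C (insert w R) q T ↔ del w (XF Γ V C R q) T := by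
  unfold del XF
  rw [Finset.disjoint_insert_right]
  tauto

theorem XF_lk {Γ : SimpleGraph U} {V C R : Finset U} (hVC : Disjoint V C) (q : ℤ) {w : U}
    (hwC : w ∈ C) (hwR : w ∉ R) (T : Finset U) :
    lk w (XF Γ V C R q) T ↔ XF Γ V (C.erase w) R (q - 1) T := by
  have hwV : w ∉ V := fun h => (Finset.disjoint_left.mp hVC h) hwC
  have e1 : (insert w T) ∩ V = T ∩ V := Finset.insert_inter_of_notMem hwV
  have e2 : w ∉ T → NB Γ V C (insert w T) = insert w (NB Γ V (C.erase w) T) := by
    intro hwT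
    ext c
    constructor
    · intro h
      obtain ⟨h1, h2⟩ := mem_NB.mp h
      by_cases hcw : c = w
      · exact Finset.mem_insert.mpr (Or.inl hcw)
      · refine Finset.mem_insert_of_mem (mem_NB.mpr ⟨Finset.mem_erase.mpr ⟨hcw, h1⟩, ?_⟩)
        rcases h2 with h2 | ⟨v, hv, hvV, hadj⟩
        · rcases Finset.mem_insert.mp h2 with h2 | h2
          · exact absurd h2 hcw
          · exact Or.inl h2
        · rcases Finset.mem_insert.mp hv with h | h
          · exact absurd (h ▸ hvV) hwV
          · exact Or.inr ⟨v, h, hvV, hadj⟩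
    · intro h
      rcases Finset.mem_insert.mp h with h | h
      · subst h; exact mem_NB.mpr ⟨hwC, Or.inl (Finset.mem_insert_self _ _)⟩
      · obtain ⟨h2, h3⟩ := mem_NB.mp h
        refine mem_NB.mpr ⟨Finset.mem_of_mem_erase h2, ?_⟩
        rcases h3 with h3 | ⟨v, hv, hvV, hadj⟩
        · exact Or.inl (Finset.mem_insert_of_mem h3)
        · exact Or.inr ⟨v, Finset.mem_insert_of_mem hv, hvV, hadj⟩
  have e3 : w ∉ NB Γ V (C.erase w) T := fun h => (Finset.notMem_erase w C) (mem_NB.mp h).1
  have e4 : C \ insert w (NB Γ V (C.erase w) T) = (C.erase w) \ NB Γ V (C.erase w) T := by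
    ext y
    simp only [Finset.mem_sdiff, Finset.mem_insert, Finset.mem_erase, not_or]
    tauto
  constructor
  · rintro ⟨hwT, h1, h2, h3, h4⟩
    refine ⟨?_, (Finset.disjoint_insert_left.mp h2).2, ?_, ?_⟩
    · intro y hy
      rcases Finset.mem_union.mp (h1 (Finset.mem_insert_of_mem hy)) with h | h
      · exact Finset.mem_union_left _ h
      · exact Finset.mem_union_right _ (Finset.mem_erase.mpr ⟨fun h' => hwT (h' ▸ hy), h⟩)
    · rwa [e1] at h3
    · intro M hM
      rw [e2 hwT, e4] at h4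
      have := h4 M hM
      rw [Finset.card_insert_of_notMem e3] at this
      push_cast at this
      linarith
  · rintro ⟨h1, h2, h3, h4⟩
    have hwT : w ∉ T := by
      intro hw
      rcases Finset.mem_union.mp (h1 hw) with h | h
      · exact hwV h
      · exact Finset.notMem_erase w C h
    refine ⟨hwT, ?_, Finset.disjoint_insert_left.mpr ⟨hwR, h2⟩, ?_, ?_⟩
    · intro y hy
      rcases Finset.mem_insert.mp hy with h | h
      · rw [h]; exact Finset.mem_union_right _ hwC
      · rcases Finset.mem_union.mp (h1 h) with h' | h'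
        · exact Finset.mem_union_left _ h'
        · exact Finset.mem_union_right _ (Finset.mem_of_mem_erase h')
    · rwa [e1]
    · intro M hM
      rw [e2 hwT, e4] at hM
      have := h4 M hM
      rw [e2 hwT, Finset.card_insert_of_notMem e3]
      push_cast
      linarith

/-- Descent in `R`. -/
theorem XF_descent (k : Type) [Field k] (hDel : TDel) (Γ : SimpleGraph U) (V : Finset U) (t : ℤ)
    (R : Finset U) : ∀ (C : Finset U) (q : ℤ), Disjoint V C → R ⊆ C →
      (∀ R' ⊆ R, Van k (XF Γ V (C \ R') ∅ (q - R'.card)) t) → Van k (XF Γ V C R q) t := by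
  induction R using Finset.induction_on with
  | empty =>
    intro C q _ _ h
    have := h ∅ (Finset.empty_subset _)
    simpa using this
  | insert w R hwR ih =>
    intro C q hVC hRC h
    have hwC : w ∈ C := hRC (Finset.mem_insert_self _ _)
    have hRC' : R ⊆ C := fun y hy => hRC (Finset.mem_insert_of_mem hy)
    refine Van.congr ?_ (XF_del V C R q w)
    refine hDel k U _ (XF_down V C R q) w t ?_ ?_
    · exact ih C q hVC hRC' (fun R' hR' => h R' (hR'.trans (Finset.subset_insert _ _)))
    · refine Van.congr ?_ (XF_lk hVC q hwC hwR)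
      refine ih (C.erase w) (q - 1)
        (Finset.disjoint_of_subset_right (Finset.erase_subset _ _) hVC) ?_ ?_
      · exact fun y hy => Finset.mem_erase.mpr ⟨fun h' => hwR (h' ▸ hy), hRC' hy⟩
      · intro R' hR'
        have hwR' : w ∉ R' := fun h' => hwR (hR' h')
        have h1 := h (insert w R') (Finset.insert_subset_insert w hR')
        rw [Finset.card_insert_of_notMem hwR'] at h1
        have e1 : C \ insert w R' = (C.erase w) \ R' := by
          ext y
          simp only [Finset.mem_sdiff, Finset.mem_insert, Finset.mem_erase, not_or]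
          tauto
        have e2 : q - ((R'.card + 1 : ℕ) : ℤ) = q - 1 - (R'.card : ℤ) := by push_cast; ring
        rwa [e1, e2] at h1

/-- Vertices of `V` with a neighbour in `C` may be deleted. -/
theorem XF_reduce (k : Type) [Field k] (hCone : TConeT) (hGlue : TGlue) (Γ : SimpleGraph U)
    (C : Finset U) (q t : ℤ) (D : Finset U) : ∀ V : Finset U, Disjoint V C → D ⊆ V →
      (∀ v ∈ D, ∃ c ∈ C, Γ.Adj v c) → Van k (XF Γ (V \ D) C ∅ q) t → Van k (XF Γ V C ∅ q) t := by
  induction D using Finset.induction_on with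
  | empty => intro V _ _ _ h; simpa using h
  | insert v D hv ih =>
    intro V hVC hDV hD h
    have hvV : v ∈ V := hDV (Finset.mem_insert_self _ _)
    have hvC : v ∉ C := fun h' => (Finset.disjoint_left.mp hVC hvV) h'
    obtain ⟨c, hc, hadj⟩ := hD v (Finset.mem_insert_self _ _)
    have hcV : c ∉ V := fun h' => (Finset.disjoint_left.mp hVC h') hc
    have hvc : v ≠ c := fun h' => hvC (h' ▸ hc)
    refine hGlue k U _ (XF_down V C ∅ q) v t ?_ ?_
    · -- deletion
      have h1 : Van k (XF Γ (V.erase v) C ∅ q) t := by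
        refine ih (V.erase v) (Finset.disjoint_of_subset_left (Finset.erase_subset _ _) hVC) ?_
          (fun x hx => hD x (Finset.mem_insert_of_mem hx)) ?_
        · exact fun y hy => Finset.mem_erase.mpr
            ⟨fun h' => hv (h' ▸ hy), hDV (Finset.mem_insert_of_mem hy)⟩
        · have : V \ insert v D = (V.erase v) \ D := by
            ext y
            simp only [Finset.mem_sdiff, Finset.mem_insert, Finset.mem_erase, not_or]
            tauto
          rwa [this] at h
      refine h1.congr (fun T => ?_)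
      have e1 : v ∉ T → T ∩ (V.erase v) = T ∩ V := by
        intro hT
        ext y
        simp only [Finset.mem_inter, Finset.mem_erase]
        constructor
        · rintro ⟨a, _, b⟩; exact ⟨a, b⟩
        · rintro ⟨a, b⟩; exact ⟨a, fun h' => hT (h' ▸ a), b⟩
      have e2 : v ∉ T → NB Γ (V.erase v) C T = NB Γ V C T := by
        intro hT
        ext y
        rw [mem_NB, mem_NB]
        constructor
        · rintro ⟨h1, h2 | ⟨x, hx, hxV, hadj⟩⟩
          · exact ⟨h1, Or.inl h2⟩
          · exact ⟨h1, Or.inr ⟨x, hx, Finset.mem_of_mem_erase hxV, hadj⟩⟩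
        · rintro ⟨h1, h2 | ⟨x, hx, hxV, hadj⟩⟩
          · exact ⟨h1, Or.inl h2⟩
          · exact ⟨h1, Or.inr ⟨x, hx, Finset.mem_erase.mpr ⟨fun h' => hT (h' ▸ hx), hxV⟩, hadj⟩⟩
      constructor
      · rintro ⟨hT, a, b, c', d⟩
        refine ⟨?_, b, ?_, ?_⟩
        · intro y hy
          rcases Finset.mem_union.mp (a hy) with h' | h'
          · exact Finset.mem_union_left _ (Finset.mem_erase.mpr ⟨fun h'' => hT (h'' ▸ hy), h'⟩)
          · exact Finset.mem_union_right _ h'
        · rwa [e1 hT]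
        · rwa [e2 hT]
      · rintro ⟨a, b, c', d⟩
        have hT : v ∉ T := by
          intro hT
          rcases Finset.mem_union.mp (a hT) with h' | h'
          · exact Finset.notMem_erase v V h'
          · exact hvC h'
        refine ⟨hT, ?_, b, ?_, ?_⟩
        · intro y hy
          rcases Finset.mem_union.mp (a hy) with h' | h'
          · exact Finset.mem_union_left _ (Finset.mem_of_mem_erase h')
          · exact Finset.mem_union_right _ h'
        · rwa [e1 hT] at c'
        · rwa [e2 hT] at d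
    · -- link is a cone with apex `c`
      refine hCone k U _ (lk_down (XF_down V C ∅ q) v) c (fun T hT => ?_) _
      obtain ⟨hvT, h1, h2, h3, h4⟩ := hT
      have e1 : insert v (insert c T) = insert c (insert v T) := Finset.insert_comm _ _ _
      have e2 : (insert c (insert v T)) ∩ V = (insert v T) ∩ V :=
        Finset.insert_inter_of_notMem hcV
      have e3 : NB Γ V C (insert c (insert v T)) = NB Γ V C (insert v T) := by
        ext y
        rw [mem_NB, mem_NB]
        constructor
        · rintro ⟨a, b | ⟨x, hx, hxV, hadj'⟩⟩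
          · rcases Finset.mem_insert.mp b with b | b
            · refine ⟨a, Or.inr ⟨v, Finset.mem_insert_self _ _, hvV, ?_⟩⟩
              rw [b]; exact hadj
            · exact ⟨a, Or.inl b⟩
          · rcases Finset.mem_insert.mp hx with b | b
            · exact absurd (b ▸ hxV) hcV
            · exact ⟨a, Or.inr ⟨x, b, hxV, hadj'⟩⟩
        · rintro ⟨a, b | ⟨x, hx, hxV, hadj'⟩⟩
          · exact ⟨a, Or.inl (Finset.mem_insert_of_mem b)⟩
          · exact ⟨a, Or.inr ⟨x, Finset.mem_insert_of_mem hx, hxV, hadj'⟩⟩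
      refine ⟨fun h' => ?_, ?_, Finset.disjoint_empty_right _, ?_, ?_⟩
      · rcases Finset.mem_insert.mp h' with h' | h'
        · exact hvc h'
        · exact hvT h'
      · rw [e1]
        exact Finset.insert_subset (Finset.mem_union_right _ hc) h1
      · rw [e1, e2]; exact h3
      · rw [e1, e3]; exact h4

/-- Without edges between `V` and `C` the family is a join. -/
theorem XF_join {Γ : SimpleGraph U} {V C : Finset U} (hVC : Disjoint V C)
    (hno : ∀ v ∈ V, ∀ c ∈ C, ¬ Γ.Adj v c) (q : ℤ) (T : Finset U) :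
    XF Γ V C ∅ q T ↔ KF Γ (IndF Γ V) C ∅ q T := by
  have e1 : NB Γ V C T = T ∩ C := by
    ext y
    rw [mem_NB, Finset.mem_inter]
    constructor
    · rintro ⟨a, b | ⟨x, hx, hxV, hadj⟩⟩
      · exact ⟨b, a⟩
      · exact absurd hadj (hno x hxV y a)
    · rintro ⟨a, b⟩; exact ⟨b, Or.inl a⟩
  have e2 : C \ (T ∩ C) = C \ T := by
    ext y; simp only [Finset.mem_sdiff, Finset.mem_inter]; tauto
  have e3 : T ⊆ V ∪ C → T \ C = T ∩ V := by
    intro hT
    ext y
    simp only [Finset.mem_sdiff, Finset.mem_inter]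
    constructor
    · rintro ⟨a, b⟩
      rcases Finset.mem_union.mp (hT a) with h | h
      · exact ⟨a, h⟩
      · exact absurd h b
    · rintro ⟨a, b⟩
      exact ⟨a, fun h => (Finset.disjoint_left.mp hVC b) h⟩
  unfold XF KF IndF
  rw [e1, e2]
  constructor
  · rintro ⟨a, b, c, d⟩
    refine ⟨⟨?_, ?_⟩, b, d⟩
    · rw [e3 a]; exact Finset.inter_subset_right
    · rw [e3 a]; exact c
  · rintro ⟨⟨a, a'⟩, b, d⟩
    have hT : T ⊆ V ∪ C := by
      intro y hy
      by_cases hyC : y ∈ C
      · exact Finset.mem_union_right _ hyC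
      · exact Finset.mem_union_left _ (a (Finset.mem_sdiff.mpr ⟨hy, hyC⟩))
    refine ⟨hT, b, ?_, d⟩
    rw [← e3 hT]; exact a'

omit [LinearOrder U] in
theorem IndF_down (Γ : SimpleGraph U) (W : Finset U) : Down (IndF Γ W) := by
  rintro S T hST ⟨h1, h2⟩
  exact ⟨hST.trans h1, fun x hx y hy => h2 x (hST hx) y (hST hy)⟩

/-- An isolated edge contributes a suspension. -/
theorem susp (k : Type) [Field k] (hCone : TConeT) (hLk : TLk) {Γ : SimpleGraph U}
    {W : Finset U} {u v : U} (huv : Γ.Adj u v) (hu : u ∉ W)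
    (hW : ∀ x ∈ W, ¬ Γ.Adj u x ∧ ¬ Γ.Adj v x) {t : ℤ}
    (h : Van k (IndF Γ (insert u (insert v W))) t) : Van k (IndF Γ W) (t - 1) := by
  have hne : u ≠ v := huv.ne
  have h1 := hLk k U _ (IndF_down Γ (insert u (insert v W))) u t h ?_
  · refine h1.congr (fun T => ?_)
    constructor
    · rintro ⟨a, b⟩
      refine ⟨fun h' => hu (a h'), ?_, ?_⟩
      · exact Finset.insert_subset_insert _ (a.trans (Finset.subset_insert _ _))
      · intro x hx y hy
        rcases Finset.mem_insert.mp hx with hx | hx <;> rcases Finset.mem_insert.mp hy with hy | hy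
        · rw [hx, hy]; exact Γ.irrefl
        · rw [hx]; exact (hW y (a hy)).1
        · rw [hy]; exact fun h' => (hW x (a hx)).1 h'.symm
        · exact b x hx y hy
    · rintro ⟨a, b, c⟩
      refine ⟨?_, fun x hx y hy => c x (Finset.mem_insert_of_mem hx) y (Finset.mem_insert_of_mem hy)⟩
      intro y hy
      rcases Finset.mem_insert.mp (b (Finset.mem_insert_of_mem hy)) with h' | h'
      · exact absurd (h' ▸ hy) a
      · rcases Finset.mem_insert.mp h' with h' | h'
        · exact absurd (h' ▸ huv) (c u (Finset.mem_insert_self _ _) y (Finset.mem_insert_of_mem hy))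
        · exact h'
  · refine hCone k U _ (del_down (IndF_down Γ _) u) v (fun T hT => ?_) _
    obtain ⟨a, b, c⟩ := hT
    have hT' : ∀ x ∈ T, x = v ∨ x ∈ W := by
      intro x hx
      rcases Finset.mem_insert.mp (b hx) with h' | h'
      · exact absurd (h' ▸ hx) a
      · exact Finset.mem_insert.mp h'
    refine ⟨fun h' => ?_, ?_, ?_⟩
    · rcases Finset.mem_insert.mp h' with h' | h'
      · exact hne h'
      · exact a h'
    · exact Finset.insert_subset (Finset.mem_insert_of_mem (Finset.mem_insert_self _ _)) b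
    · intro x hx y hy
      rcases Finset.mem_insert.mp hx with hx | hx <;> rcases Finset.mem_insert.mp hy with hy | hy
      · rw [hx, hy]; exact Γ.irrefl
      · rw [hx]
        rcases hT' y hy with h' | h'
        · rw [h']; exact Γ.irrefl
        · exact (hW y h').2
      · rw [hy]
        rcases hT' x hx with h' | h'
        · rw [h']; exact Γ.irrefl
        · exact fun h'' => (hW x h').2 h''.symm
      · exact c x hx y hy

theorem exists_closer {W : Type} (G' : SimpleGraph W) {x y : W} (h : G'.Reachable x y)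
    (hne : x ≠ y) : ∃ z, G'.Adj x z ∧ G'.dist z y < G'.dist x y := by
  obtain ⟨p, hp⟩ := h.exists_walk_length_eq_dist
  cases p with
  | nil => exact absurd rfl hne
  | @cons _ z _ hadj p' =>
    refine ⟨z, hadj, ?_⟩
    have h2 : G'.dist z y ≤ p'.length := SimpleGraph.dist_le p'
    rw [SimpleGraph.Walk.length_cons] at hp
    omega

/-- Component representatives with a height function. -/
theorem exists_reps (Γ : SimpleGraph U) (C : Finset U) : ∃ (S : Finset U) (d : U → ℕ) (κ : U → U),
    S ⊆ C ∧ (∀ x ∈ C, x ∉ S → ∃ y ∈ C, Γ.Adj x y ∧ d y < d x) ∧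
    (∀ x ∈ C, ∀ y ∈ C, Γ.Adj x y → κ x = κ y) ∧ (∀ s ∈ S, ∀ t ∈ S, κ s = κ t → s = t) := by
  classical
  let G' : SimpleGraph C := Γ.comap (fun x : C => (x : U))
  let rep : C → C := fun x => (G'.connectedComponentMk x).out
  have hrep : ∀ x, G'.Reachable (rep x) x := by
    intro x
    have : G'.connectedComponentMk (rep x) = G'.connectedComponentMk x :=
      (G'.connectedComponentMk x).out_eq
    exact SimpleGraph.ConnectedComponent.eq.mp this
  have hrep_adj : ∀ x y : C, G'.Adj x y → rep x = rep y := by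
    intro x y h
    have : G'.connectedComponentMk x = G'.connectedComponentMk y :=
      SimpleGraph.ConnectedComponent.eq.mpr h.reachable
    simp only [rep, this]
  have hrep_rep : ∀ x, rep (rep x) = rep x := by
    intro x
    have : G'.connectedComponentMk (rep x) = G'.connectedComponentMk x :=
      (G'.connectedComponentMk x).out_eq
    simp only [rep] at this ⊢
    rw [this]
  let κ : U → U := fun x => if h : x ∈ C then (rep ⟨x, h⟩ : U) else x
  let d : U → ℕ := fun x => if h : x ∈ C then G'.dist (rep ⟨x, h⟩) ⟨x, h⟩ else 0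
  have hκ : ∀ x (h : x ∈ C), κ x = (rep ⟨x, h⟩ : U) := fun x h => by simp [κ, h]
  have hd : ∀ x (h : x ∈ C), d x = G'.dist (rep ⟨x, h⟩) ⟨x, h⟩ := fun x h => by simp [d, h]
  refine ⟨C.filter (fun x => κ x = x), d, κ, Finset.filter_subset _ _, ?_, ?_, ?_⟩
  · intro x hx hxS
    have hne : κ x ≠ x := fun h => hxS (Finset.mem_filter.mpr ⟨hx, h⟩)
    rw [hκ x hx] at hne
    obtain ⟨y, hadj, hlt⟩ := exists_closer G' (hrep ⟨x, hx⟩).symm
      (fun h => hne (congrArg Subtype.val h).symm)
    refine ⟨(y : U), y.2, hadj, ?_⟩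
    have h1 : rep ⟨(y : U), y.2⟩ = rep ⟨x, hx⟩ := (hrep_adj _ _ hadj).symm
    rw [hd x hx, hd y y.2, h1, SimpleGraph.dist_comm, SimpleGraph.dist_comm (u := rep ⟨x, hx⟩)]
    exact hlt
  · intro x hx y hy hadj
    rw [hκ x hx, hκ y hy]
    exact congrArg _ (hrep_adj ⟨x, hx⟩ ⟨y, hy⟩ hadj)
  · intro s hs t ht hst
    rw [← (Finset.mem_filter.mp hs).2, ← (Finset.mem_filter.mp ht).2, hst]

theorem tUpper (hCone : TConeT) (hGlue : TGlue) (hDel : TDel) (hLk : TLk) (hInd : TInduct) :
    TUpper := by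
  intro k _ U _ Γ V C hVC htw r ρ q H1 H2
  classical
  apply XF_descent k hDel Γ V _ C C q hVC (Finset.Subset.refl _)
  intro R' hR'
  set C' := C \ R' with hC'
  have hC'C : C' ⊆ C := Finset.sdiff_subset
  have hcard : (C'.card : ℤ) = C.card - R'.card := by
    have := Finset.card_sdiff_add_card_eq_card hR'
    rw [hC']
    omega
  have hVC' : Disjoint V C' := Finset.disjoint_of_subset_right hC'C hVC
  set D := V.filter (fun v => ∃ c ∈ C', Γ.Adj v c) with hD
  apply XF_reduce k hCone hGlue Γ C' _ _ D V hVC' (Finset.filter_subset _ _)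
    (fun v hv => (Finset.mem_filter.mp hv).2)
  set V₀ := V \ D with hV₀
  have hV₀V : V₀ ⊆ V := Finset.sdiff_subset
  have hno : ∀ v ∈ V₀, ∀ c ∈ C', ¬ Γ.Adj v c := by
    intro v hv c hc hadj
    exact (Finset.mem_sdiff.mp hv).2 (Finset.mem_filter.mpr ⟨hV₀V hv, c, hc, hadj⟩)
  have hV₀' : ∀ v ∈ V, (∀ c ∈ C', ¬ Γ.Adj v c) → v ∈ V₀ := by
    intro v hv h
    refine Finset.mem_sdiff.mpr ⟨hv, fun h' => ?_⟩
    obtain ⟨c, hc, hadj⟩ := (Finset.mem_filter.mp h').2
    exact h c hc hadj
  have hV₀C' : Disjoint V₀ C' := Finset.disjoint_of_subset_left hV₀V hVC'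
  refine Van.congr ?_ (XF_join hV₀C' hno _)
  have hLdis : ∀ T, IndF Γ V₀ T → Disjoint T C' := fun T hT =>
    Finset.disjoint_of_subset_left hT.1 hV₀C'
  have hRn : (0 : ℤ) ≤ (R'.card : ℤ) := by positivity
  rcases C'.eq_empty_or_nonempty with hemp | hne
  · -- `C' = ∅`
    rw [hemp] at hcard ⊢
    by_cases hq : 0 ≤ q - (R'.card : ℤ)
    · refine ((H1 V₀ hV₀V).mono ?_).congr (fun T => ?_)
      · refine le_sub_iff_add_le.mpr (le_trans ?_ (le_max_left _ _))
        simp only [Finset.card_empty, Nat.cast_zero] at hcard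
        linarith
      · unfold KF
        constructor
        · rintro ⟨a, _, _⟩; simpa using a
        · intro a
          refine ⟨by simpa using a, Finset.disjoint_empty_right _, fun M hM => ?_⟩
          have hM0 : M = ∅ := by
            rw [Finset.eq_empty_iff_forall_notMem]
            intro e he
            induction e using Sym2.ind with
            | _ x y => exact absurd (hM.sub _ he x (Sym2.mem_mk_left x y)) (by simp)
          rw [hM0]
          simpa using hq
    · apply van_void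
      rintro T ⟨_, _, c⟩
      have := c ∅ (isM_empty _ _)
      simp only [Finset.inter_empty, Finset.card_empty, Nat.cast_zero] at this
      exact hq (by linarith)
  by_cases hiso : ∃ c ∈ C', ∀ c' ∈ C', ¬ Γ.Adj c c'
  · -- isolated vertex
    obtain ⟨c, hc, hciso⟩ := hiso
    obtain ⟨v, hv, hvc⟩ := htw c (hC'C hc)
    have hvV₀ : v ∈ V₀ := hV₀' v hv (fun c' hc' h => hciso c' hc' ((hvc c').mp h))
    have hvC' : v ∉ C' := fun h => (Finset.disjoint_left.mp hVC' hv) h
    have hvno : ∀ x ∈ V₀, ¬ Γ.Adj v x := by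
      intro x hx h
      exact hno x hx c hc ((hvc x).mp h).symm
    refine hCone k U _ (KF_down (IndF_down Γ V₀) C' ∅ _) v (fun T hT => ?_) _
    obtain ⟨⟨a, a'⟩, _, c'⟩ := hT
    have e1 : (insert v T) \ C' = insert v (T \ C') := Finset.insert_sdiff_of_notMem _ hvC'
    have e2 : (insert v T) ∩ C' = T ∩ C' := Finset.insert_inter_of_notMem hvC'
    have e3 : C' \ insert v T = C' \ T := by
      ext y
      simp only [Finset.mem_sdiff, Finset.mem_insert, not_or]
      constructor
      · rintro ⟨h1, _, h2⟩; exact ⟨h1, h2⟩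
      · rintro ⟨h1, h2⟩; exact ⟨h1, fun h => hvC' (h ▸ h1), h2⟩
    refine ⟨?_, Finset.disjoint_empty_right _, ?_⟩
    · rw [e1]
      refine ⟨Finset.insert_subset hvV₀ a, ?_⟩
      intro x hx y hy
      rcases Finset.mem_insert.mp hx with hx | hx <;> rcases Finset.mem_insert.mp hy with hy | hy
      · rw [hx, hy]; exact Γ.irrefl
      · rw [hx]; exact hvno y (a hy)
      · rw [hy]; exact fun h => hvno x (a hx) h.symm
      · exact a' x hx y hy
    · rw [e2, e3]; exact c'
  push Not at hiso
  -- main case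
  obtain ⟨S, d, κ, hSC, hd, hκ, hκS⟩ := exists_reps Γ C'
  have hpr : ∀ c ∈ C', ∃ c', c' ∈ C' ∧ Γ.Adj c c' := fun c hc => hiso c hc
  choose! pr hprC hpradj using hpr
  choose! tw htwV htwadj using htw
  have htw' : ∀ c ∈ C', ∀ u, Γ.Adj (tw c) u ↔ Γ.Adj c u := fun c hc => htwadj c (hC'C hc)
  have htwtw : ∀ c ∈ C', ∀ c' ∈ C', (Γ.Adj (tw c) (tw c') ↔ Γ.Adj c c') := by
    intro c hc c' hc'
    rw [htw' c hc, Γ.adj_comm, htw' c' hc', Γ.adj_comm]
  have hSne : S.Nonempty := by
    by_contra hS
    rw [Finset.not_nonempty_iff_eq_empty] at hS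
    obtain ⟨x, hx, hmin⟩ := Finset.exists_min_image C' d hne
    obtain ⟨y, hy, _, hlt⟩ := hd x hx (by simp [hS])
    exact absurd (hmin y hy) (not_le.mpr hlt)
  -- the two twins attached to a representative
  have hκtw : ∀ c ∈ C', ∀ c' ∈ C', κ c ≠ κ c' → tw c ≠ tw c' := by
    intro c hc c' hc' hne' heq
    have h1 : Γ.Adj (tw c) (pr c) := (htw' c hc _).mpr (hpradj c hc)
    rw [heq, htw' c' hc'] at h1
    exact hne' ((hκ c hc _ (hprC c hc) (hpradj c hc)).trans
      (hκ c' hc' _ (hprC c hc) h1).symm)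
  have hκpr : ∀ c ∈ C', κ (pr c) = κ c := fun c hc => (hκ c hc _ (hprC c hc) (hpradj c hc)).symm
  have hnadj : ∀ c ∈ C', ∀ c' ∈ C', κ c ≠ κ c' → ¬ Γ.Adj (tw c) (tw c') := by
    intro c hc c' hc' hne' hadj
    exact hne' (hκ c hc c' hc' ((htwtw c hc c' hc').mp hadj))
  have htwV₀ : ∀ c ∈ C', tw c ∉ V₀ := by
    intro c hc h
    exact hno _ h (pr c) (hprC c hc) ((htw' c hc _).mpr (hpradj c hc))
  have htwno : ∀ c ∈ C', ∀ x ∈ V₀, ¬ Γ.Adj (tw c) x := by
    intro c hc x hx h
    exact hno x hx c hc ((htw' c hc x).mp h).symm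
  let Wf : Finset U → Finset U := fun T => V₀ ∪ T.biUnion (fun s => {tw s, tw (pr s)})
  have hWf : ∀ T x, x ∈ Wf T ↔ x ∈ V₀ ∨ ∃ s ∈ T, x = tw s ∨ x = tw (pr s) := by
    intro T x
    simp only [Wf, Finset.mem_union, Finset.mem_biUnion, Finset.mem_insert, Finset.mem_singleton]
  have hdesc : ∀ T : Finset U, T ⊆ S → ∀ t : ℤ, Van k (IndF Γ (Wf T)) t →
      Van k (IndF Γ V₀) (t - T.card) := by
    intro T
    induction T using Finset.induction_on with
    | empty =>
      intro _ t h
      have : Wf ∅ = V₀ := by ext x; rw [hWf]; simp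
      rw [this] at h
      simpa using h
    | insert s T hs ih =>
      intro hTS t h
      have hsS : s ∈ S := hTS (Finset.mem_insert_self _ _)
      have hsC : s ∈ C' := hSC hsS
      have hTS' : T ⊆ S := fun y hy => hTS (Finset.mem_insert_of_mem hy)
      have hsep : ∀ s' ∈ T, κ s ≠ κ s' := fun s' hs' heq => hs (by
        rw [hκS s hsS s' (hTS' hs') heq]; exact hs')
      have e1 : Wf (insert s T) = insert (tw s) (insert (tw (pr s)) (Wf T)) := by
        ext x
        rw [hWf, Finset.mem_insert, Finset.mem_insert, hWf]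
        constructor
        · rintro (h | ⟨s', hs', h | h⟩)
          · exact Or.inr (Or.inr (Or.inl h))
          · rcases Finset.mem_insert.mp hs' with h' | h'
            · exact Or.inl (h' ▸ h)
            · exact Or.inr (Or.inr (Or.inr ⟨s', h', Or.inl h⟩))
          · rcases Finset.mem_insert.mp hs' with h' | h'
            · exact Or.inr (Or.inl (h' ▸ h))
            · exact Or.inr (Or.inr (Or.inr ⟨s', h', Or.inr h⟩))
        · rintro (h | h | h | ⟨s', hs', h⟩)
          · exact Or.inr ⟨s, Finset.mem_insert_self _ _, Or.inl h⟩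
          · exact Or.inr ⟨s, Finset.mem_insert_self _ _, Or.inr h⟩
          · exact Or.inl h
          · exact Or.inr ⟨s', Finset.mem_insert_of_mem hs', h⟩
      rw [e1] at h
      have hmem : ∀ c ∈ C', κ c = κ s → tw c ∉ Wf T := by
        intro c hc hcs hm
        rcases (hWf T _).mp hm with h' | ⟨s', hs', h' | h'⟩
        · exact htwV₀ c hc h'
        · exact hκtw c hc s' (hSC (hTS' hs')) (by rw [hcs]; exact hsep s' hs') h'
        · exact hκtw c hc (pr s') (hprC _ (hSC (hTS' hs')))
            (by rw [hcs, hκpr _ (hSC (hTS' hs'))]; exact hsep s' hs') h'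
      have hnad : ∀ c ∈ C', κ c = κ s → ∀ x ∈ Wf T, ¬ Γ.Adj (tw c) x := by
        intro c hc hcs x hx
        rcases (hWf T _).mp hx with h' | ⟨s', hs', h' | h'⟩
        · exact htwno c hc x h'
        · rw [h']
          exact hnadj c hc s' (hSC (hTS' hs')) (by rw [hcs]; exact hsep s' hs')
        · rw [h']
          exact hnadj c hc (pr s') (hprC _ (hSC (hTS' hs')))
            (by rw [hcs, hκpr _ (hSC (hTS' hs'))]; exact hsep s' hs')
      have h1 := susp k hCone hLk ((htwtw s hsC (pr s) (hprC s hsC)).mpr (hpradj s hsC))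
        (hmem s hsC rfl)
        (fun x hx => ⟨hnad s hsC rfl x hx, hnad (pr s) (hprC s hsC) (hκpr s hsC) x hx⟩) h
      have h2 := ih hTS' _ h1
      rw [Finset.card_insert_of_notMem hs]
      have e2 : t - ((T.card + 1 : ℕ) : ℤ) = t - 1 - (T.card : ℤ) := by push_cast; ring
      rw [e2]
      exact h2
  obtain ⟨s₁, hs₁⟩ := hSne
  have hs₁C : s₁ ∈ C' := hSC hs₁
  have hWV : Wf (S.erase s₁) ⊆ V := by
    intro x hx
    rcases (hWf _ _).mp hx with h' | ⟨s', hs', h' | h'⟩
    · exact hV₀V h'
    · rw [h']; exact htwV _ (hC'C (hSC (Finset.mem_of_mem_erase hs')))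
    · rw [h']; exact htwV _ (hC'C (hprC _ (hSC (Finset.mem_of_mem_erase hs'))))
  have hnad₁ : ∀ c ∈ C', κ c = κ s₁ → ∀ x ∈ Wf (S.erase s₁), ¬ Γ.Adj (tw c) x := by
    intro c hc hcs x hx
    have hsep : ∀ s' ∈ S.erase s₁, κ s₁ ≠ κ s' := fun s' hs' heq =>
      (Finset.ne_of_mem_erase hs') (hκS s₁ hs₁ s' (Finset.mem_of_mem_erase hs') heq).symm
    rcases (hWf _ _).mp hx with h' | ⟨s', hs', h' | h'⟩
    · exact htwno c hc x h'
    · rw [h']
      exact hnadj c hc s' (hSC (Finset.mem_of_mem_erase hs')) (by rw [hcs]; exact hsep s' hs')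
    · rw [h']
      have hs'C := hSC (Finset.mem_of_mem_erase hs')
      exact hnadj c hc (pr s') (hprC _ hs'C) (by rw [hcs, hκpr _ hs'C]; exact hsep s' hs')
  have hV1 : Van k (IndF Γ (Wf (S.erase s₁))) ρ :=
    H2 (tw s₁) (htwV _ (hC'C hs₁C)) (tw (pr s₁)) (htwV _ (hC'C (hprC _ hs₁C)))
      ((htwtw s₁ hs₁C (pr s₁) (hprC s₁ hs₁C)).mpr (hpradj s₁ hs₁C)) _ hWV
      (fun x hx => ⟨hnad₁ s₁ hs₁C rfl x hx, hnad₁ (pr s₁) (hprC _ hs₁C) (hκpr _ hs₁C) x hx⟩)
  have hV2 := hdesc (S.erase s₁) (Finset.erase_subset _ _) ρ hV1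
  have hScard : ((S.erase s₁).card : ℤ) = (S.card : ℤ) - 1 := by
    have : 0 < S.card := Finset.card_pos.mpr ⟨s₁, hs₁⟩
    rw [Finset.card_erase_of_mem hs₁]
    omega
  have hfin := hInd k U Γ (IndF Γ V₀) _ C' (IndF_down Γ V₀) hV2 hLdis C' ∅ S (q - R'.card) d
    (Finset.Subset.refl _) (Finset.empty_subset _) ⟨∅, isM_empty _ _, by simp⟩
    (by rw [Finset.sdiff_empty]; exact hSC)
    (by rw [Finset.sdiff_empty]; exact hd)
  refine hfin.mono ?_
  refine le_sub_iff_add_le.mpr (le_trans ?_ (le_max_right _ _))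
  rw [hScard, hcard]
  linarith

end Pool.Agent.REG
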