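import Pool.Agent.REG.LES
import Pool.Agent.REG.Taka
import Pool.Agent.REG.Blow
import Pool.Agent.REG.Kosz
import Pool.Agent.REG.ResA
import Pool.Agent.REG.ResB
import Pool.Agent.REG.Upper

/-!
The exact formula for the regularity of the powers of an edge ideal.
-/

set_option autoImplicit false

namespace Pool.Agent.REG

open Finset

theorem tInd : TInduct := tInduct tConeT tGlue

theorem tUp : TUpper := tUpper tConeT tGlue tDel tLk tInd

variable {k : Type} [Field k] {n : ℕ}

theorem homog_of_mem {mem : (Fin n → ℕ) → Prop} {J : Ideal (MvPolynomial (Fin n) k)}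
    (hJ : ∀ f, f ∈ J ↔ ∀ c ∈ f.support, mem (fun v => c v)) : Homog J := by
  intro f hf d
  rw [hJ] at hf ⊢
  intro c hc
  apply hf c
  rw [MvPolynomial.mem_support_iff, MvPolynomial.coeff_homogeneousComponent] at hc
  rw [MvPolynomial.mem_support_iff]
  intro h0
  apply hc
  rw [h0]
  simp

theorem regLE_iff_kos {J : Ideal (MvPolynomial (Fin n) k)} (hJ : Homog J) (r : ℕ) :
    RegLE k J r ↔ ∀ i d : ℕ, r < d → KosEx k J i d :=
  ⟨tResA k n J r, tResB k n J r hJ⟩

theorem KA_empty (mem : (Fin n → ℕ) → Prop) (P : Finset (Fin n)) (N N' : ℕ) (a : Fin n → ℕ)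
    (T : Finset (Fin n)) : KA mem P ∅ N a T ↔ KA mem P ∅ N' a T := by
  unfold KA
  simp

/-- Regularity of a monomial ideal through degree complexes. -/
theorem regLE_iff_deg {mem : (Fin n → ℕ) → Prop} (hup : UpMem mem) {N : ℕ} (hcap : CapMem mem N)
    {J : Ideal (MvPolynomial (Fin n) k)}
    (hJ : ∀ f, f ∈ J ↔ ∀ c ∈ f.support, mem (fun v => c v)) (ρ : ℕ) :
    RegLE k J ρ ↔ ∀ P : Finset (Fin n), P.Nonempty → ∀ a : Fin n → ℕ, (∀ v, v ∉ P → a v = 0) →
      Van k (KA mem P P N a) ((ρ : ℤ) - 1 - ((∑ v, a v : ℕ) : ℤ)) := by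
  rw [regLE_iff_kos (homog_of_mem hJ), Kosz.targetKos k n mem hup J hJ ρ]
  constructor
  · intro h P hP
    exact tTakaDown tConeT tTripleTrans k (Fin n) mem N hup hcap P _
      (fun a ha => (h P hP a ha).congr (fun T => KA_empty mem P N 0 a T))
  · intro h P hP a ha
    exact (tTakaUp tTripleMid k (Fin n) mem N hup hcap P _ (h P hP) a ha).congr
      (fun T => KA_empty mem P 0 N a T)

theorem card_Cop (a : Fin n → ℕ) : (Cop a).card = ∑ v, a v := by
  classical
  rw [Finset.card_eq_sum_card_fiberwise (f := sv) (t := Finset.univ)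
    (fun _ _ => Finset.mem_coe.mpr (Finset.mem_univ _))]
  exact Finset.sum_congr rfl (fun v _ => card_Cop_fiber a v)

theorem blow_adj (G : SimpleGraph (Fin n)) (z z' : ℕ ×ₗ Fin n) :
    (Blow G).Adj z z' ↔ G.Adj (sv z) (sv z') := Iff.rfl

/-- Independence families of the bottom layer. -/
theorem van_ind_map (G : SimpleGraph (Fin n)) {W' : Finset (ℕ ×ₗ Fin n)} {P : Finset (Fin n)}
    (hW' : W' ⊆ P.map (bot0 n).toEmbedding) : ∃ W ⊆ P, W' = W.map (bot0 n).toEmbedding ∧
      ∀ t, Van k (IndF (Blow G) W') t ↔ Van k (IndF G W) t := by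
  classical
  obtain ⟨W, hW, rfl⟩ := Finset.subset_map_iff.mp hW'
  refine ⟨W, hW, rfl, fun t => ?_⟩
  rw [tEmb k (Fin n) (ℕ ×ₗ Fin n) (bot0 n) (IndF G W) t]
  have : (fun T' : Finset (ℕ ×ₗ Fin n) => ∃ T, IndF G W T ∧ T' = T.map (bot0 n).toEmbedding) =
      IndF (Blow G) (W.map (bot0 n).toEmbedding) := by
    funext T'
    apply propext
    constructor
    · rintro ⟨T, ⟨h1, h2⟩, rfl⟩
      refine ⟨Finset.map_subset_map.mpr h1, ?_⟩
      intro x hx y hy
      obtain ⟨x', hx', rfl⟩ := Finset.mem_map.mp hx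
      obtain ⟨y', hy', rfl⟩ := Finset.mem_map.mp hy
      exact h2 x' hx' y' hy'
    · rintro ⟨h1, h2⟩
      obtain ⟨T, hT, rfl⟩ := Finset.subset_map_iff.mp h1
      exact ⟨T, ⟨hT, fun x hx y hy => h2 _ (Finset.mem_map_of_mem _ hx) _
        (Finset.mem_map_of_mem _ hy)⟩, rfl⟩
  rw [this]

theorem upper_deg (G : SimpleGraph (Fin n)) (q : ℕ) (r ρ : ℤ)
    (H1 : ∀ W : Finset (Fin n), Van k (IndF G W) r)
    (H2 : ∀ u v : Fin n, G.Adj u v → ∀ W : Finset (Fin n), (∀ x ∈ W, ¬ G.Adj u x ∧ ¬ G.Adj v x) →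
      Van k (IndF G W) ρ) (N : ℕ) (hN : q ≤ N) (P : Finset (Fin n)) (a : Fin n → ℕ)
    (ha : ∀ v, v ∉ P → a v = 0) :
    Van k (KA (memP G (q + 1)) P P N a) (max (q + r) (2 * q + 1 + ρ) - ((∑ v, a v : ℕ) : ℤ)) := by
  rw [tEmb k (Fin n) (ℕ ×ₗ Fin n) (bot0 n)]
  refine Van.congr ?_ (fun T' => (tBlow k n G q N P a hN ha T').symm)
  rw [← card_Cop a]
  apply tUp k (ℕ ×ₗ Fin n) (Blow G) (P.map (bot0 n).toEmbedding) (Cop a)
  · rw [Finset.disjoint_left]
    intro z hz hz'
    have h1 := (mem_map_bot0.mp hz).1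
    have h2 := (mem_Cop.mp hz').1
    omega
  · intro c hc
    have h2 := mem_Cop.mp hc
    refine ⟨bot0 n (sv c), ?_, fun u => Iff.rfl⟩
    rw [mem_map_bot0]
    refine ⟨rfl, ?_⟩
    change sv c ∈ P
    by_contra hcP
    have := ha _ hcP
    omega
  · intro W' hW'
    obtain ⟨W, hW, rfl, hiff⟩ := van_ind_map (k := k) G hW'
    exact (hiff r).mpr (H1 W)
  · intro u _ v _ huv W' hW' hx
    obtain ⟨W, hW, rfl, hiff⟩ := van_ind_map (k := k) G hW'
    refine (hiff ρ).mpr (H2 (sv u) (sv v) huv W (fun x hxW => ?_))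
    exact hx (bot0 n x) (Finset.mem_map_of_mem _ hxW)

/-- The exact formula. -/
theorem tFormula : TFormula := by
  intro k _ n G s ρ hedge hs
  classical
  obtain ⟨u₀, v₀, h₀⟩ := hedge
  rw [regLE_iff_deg (tUpMem n G s) (tCapMem n G s s le_rfl) (tMemPow k n G s) ρ]
  constructor
  · intro h
    have hB : ∀ u v : Fin n, G.Adj u v → ∀ W : Finset (Fin n),
        (∀ x ∈ W, ¬ G.Adj u x ∧ ¬ G.Adj v x) → Van k (IndF G W) ((ρ : ℤ) - 2 * s) := by
      intro u v huv W hW
      have h1 := h (insert u (insert v W)) (Finset.insert_nonempty _ _)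
        (fun x => if x = u ∨ x = v then s - 1 else 0) (by
          intro x hx
          rw [if_neg]
          rintro (rfl | rfl)
          · exact hx (Finset.mem_insert_self _ _)
          · exact hx (Finset.mem_insert_of_mem (Finset.mem_insert_self _ _)))
      have h2 := h1.congr (fun T =>
        (tInd2 n G s s W u v hs (by omega) huv hW T).symm)
      have hsum : (∑ x : Fin n, (if x = u ∨ x = v then s - 1 else 0)) = 2 * (s - 1) := by
        rw [← Finset.sum_filter, Finset.sum_const, smul_eq_mul]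
        congr 1
        have : Finset.univ.filter (fun x : Fin n => x = u ∨ x = v) = {u, v} := by
          ext x; simp
        rw [this, Finset.card_pair huv.ne]
      rw [hsum] at h2
      have huW : u ∉ W := fun h' => (hW u h').2 huv.symm
      have h3 := susp k tConeT tLk huv huW hW h2
      refine h3.mono ?_
      have : ((2 * (s - 1) : ℕ) : ℤ) = 2 * ((s : ℤ) - 1) := by
        push_cast [Nat.cast_sub hs]; ring
      rw [this]
      linarith
    refine ⟨fun W => ?_, hB⟩
    rcases W.eq_empty_or_nonempty with hW | ⟨v, hv⟩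
    · subst hW
      refine (hB u₀ v₀ h₀ ∅ (by simp)).mono ?_
      have : (0 : ℤ) ≤ (s : ℤ) := by positivity
      linarith
    · have h1 := h W ⟨v, hv⟩ (fun x => if x = v then s - 1 else 0) (by
          intro x hx
          rw [if_neg]
          rintro rfl
          exact hx hv)
      have h2 := h1.congr (fun T => (tInd1 n G s s W v hs (by omega) hv T).symm)
      have hsum : (∑ x : Fin n, (if x = v then s - 1 else 0)) = s - 1 := by simp
      rw [hsum] at h2
      refine h2.mono ?_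
      rw [Nat.cast_sub hs]
      push_cast
      linarith
  · rintro ⟨h1, h2⟩ P _ a ha
    obtain ⟨q, rfl⟩ : ∃ q, s = q + 1 := ⟨s - 1, by omega⟩
    refine (upper_deg G q _ _ h1 h2 (q + 1) (by omega) P a ha).mono ?_
    rw [sub_le_sub_iff_right]
    apply max_le
    · push_cast; linarith
    · push_cast; linarith

end Pool.Agent.REG
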