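import Pool.Agent.REG.Targets

/-!
Two exchange lemmas for matchings.
-/

set_option autoImplicit false

namespace Pool.Agent.REG

open Finset

variable {U : Type} [LinearOrder U]

omit [LinearOrder U] in
theorem IsM.mono {Γ : SimpleGraph U} {S S' : Finset U} {M : Finset (Sym2 U)} (h : IsM Γ S M)
    (hS : S ⊆ S') : IsM Γ S' M :=
  ⟨h.edge, fun e he x hx => hS (h.sub e he x hx), h.disj⟩

omit [LinearOrder U] in
theorem IsM.subset {Γ : SimpleGraph U} {S : Finset U} {M M' : Finset (Sym2 U)} (h : IsM Γ S M)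
    (hM : M' ⊆ M) : IsM Γ S M' :=
  ⟨fun e he => h.edge e (hM he), fun e he => h.sub e (hM he),
    fun e he f hf => h.disj e (hM he) f (hM hf)⟩

omit [LinearOrder U] in
theorem isM_empty (Γ : SimpleGraph U) (S : Finset U) : IsM Γ S ∅ :=
  ⟨by simp, by simp, by simp⟩

/-- Adding an edge between two uncovered vertices. -/
theorem IsM.add {Γ : SimpleGraph U} {S : Finset U} {M : Finset (Sym2 U)} (h : IsM Γ S M)
    {x y : U} (hxy : Γ.Adj x y) (hx : x ∈ S) (hy : y ∈ S) (hx' : ∀ e ∈ M, x ∉ e)
    (hy' : ∀ e ∈ M, y ∉ e) : IsM Γ S (insert s(x, y) M) ∧ s(x, y) ∉ M := by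
  refine ⟨⟨?_, ?_, ?_⟩, fun hm => hx' _ hm (Sym2.mem_mk_left x y)⟩
  · intro e he
    rcases Finset.mem_insert.mp he with rfl | he
    · exact hxy
    · exact h.edge e he
  · intro e he z hz
    rcases Finset.mem_insert.mp he with rfl | he
    · rcases Sym2.mem_iff.mp hz with rfl | rfl
      · exact hx
      · exact hy
    · exact h.sub e he z hz
  · intro e he f hf z hze hzf
    rcases Finset.mem_insert.mp he with he1 | he1 <;>
      rcases Finset.mem_insert.mp hf with hf1 | hf1
    · rw [he1, hf1]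
    · exfalso
      rw [he1] at hze
      rcases Sym2.mem_iff.mp hze with h1 | h1
      · exact hx' f hf1 (h1 ▸ hzf)
      · exact hy' f hf1 (h1 ▸ hzf)
    · exfalso
      rw [hf1] at hzf
      rcases Sym2.mem_iff.mp hzf with h1 | h1
      · exact hx' e he1 (h1 ▸ hze)
      · exact hy' e he1 (h1 ▸ hze)
    · exact h.disj e he1 f hf1 z hze hzf

theorem lemmaA {Γ : SimpleGraph U} {S X R : Finset U} {b : U} (hRS : R ⊆ S) (hSX : S ⊆ X)
    (hb : b ∉ X) (hsat : Sat Γ (insert b X) R) (hns : ¬ Sat Γ X R) {M : Finset (Sym2 U)}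
    (hM : IsM Γ S M) : ∃ M', IsM Γ (insert b S) M' ∧ M.card + 1 ≤ M'.card := by
  classical
  obtain ⟨A, hA, hAR⟩ := hsat
  let f : Finset (Sym2 U) → ℕ := fun N => N.card * (A.card + 1) + (N ∩ A).card
  have hfin : ∀ N, IsM Γ S N → N ∈ (S.sym2).powerset.filter (fun N => IsM Γ S N) := by
    intro N hN
    refine Finset.mem_filter.mpr ⟨Finset.mem_powerset.mpr ?_, hN⟩
    intro e he
    rw [Finset.mem_sym2_iff]
    exact fun x hx => hN.sub e he x hx
  obtain ⟨N, hN, hmax⟩ := Finset.exists_max_image ((S.sym2).powerset.filter (fun N => IsM Γ S N)) f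
    ⟨M, hfin M hM⟩
  have hNM : IsM Γ S N := (Finset.mem_filter.mp hN).2
  have hmax' : ∀ N', IsM Γ S N' → f N' ≤ f N := fun N' h => hmax N' (hfin N' h)
  have hcard : M.card ≤ N.card := by
    by_contra hlt
    have h1 := hmax' M hM
    have h2 : (N ∩ A).card ≤ A.card := Finset.card_le_card Finset.inter_subset_right
    have h3 : (N.card + 1) * (A.card + 1) ≤ M.card * (A.card + 1) :=
      Nat.mul_le_mul_right _ (by omega)
    simp only [f] at h1
    nlinarith
  -- partners of uncovered vertices of `R` lie outside `S`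
  have key : ∀ r ∈ R, (∀ e ∈ N, r ∉ e) → ∀ r', s(r, r') ∈ A → r' ∉ S := by
    intro r hr hrN r' hrr' hr'S
    have hadj : Γ.Adj r r' := hA.edge _ hrr'
    have heN : s(r, r') ∉ N := fun h => hrN _ h (Sym2.mem_mk_left r r')
    by_cases hc : ∃ g ∈ N, r' ∈ g
    · obtain ⟨g, hgN, hrg⟩ := hc
      have hgA : g ∉ A := by
        intro hgA
        have := hA.disj g hgA _ hrr' r' hrg (Sym2.mem_mk_right r r')
        exact heN (this ▸ hgN)
      have h1 : IsM Γ S (N.erase g) := hNM.subset (Finset.erase_subset _ _)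
      have h2 := h1.add hadj (hRS hr) hr'S (fun e he => hrN e (Finset.mem_of_mem_erase he))
        (fun e he hre => Finset.ne_of_mem_erase he
          (hNM.disj e (Finset.mem_of_mem_erase he) g hgN r' hre hrg))
      have h3 := hmax' _ h2.1
      have h4 : (insert s(r, r') (N.erase g)).card = N.card := by
        rw [Finset.card_insert_of_notMem h2.2, Finset.card_erase_of_mem hgN]
        have : 0 < N.card := Finset.card_pos.mpr ⟨g, hgN⟩
        omega
      have h5 : (N ∩ A).card < ((insert s(r, r') (N.erase g)) ∩ A).card := by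
        apply Finset.card_lt_card
        rw [Finset.ssubset_iff_of_subset]
        · exact ⟨s(r, r'), Finset.mem_inter.mpr ⟨Finset.mem_insert_self _ _, hrr'⟩,
            fun h => heN (Finset.mem_inter.mp h).1⟩
        · intro e he
          have he' := Finset.mem_inter.mp he
          refine Finset.mem_inter.mpr ⟨Finset.mem_insert_of_mem (Finset.mem_erase.mpr
            ⟨fun h => hgA (h ▸ he'.2), he'.1⟩), he'.2⟩
      simp only [f] at h3
      rw [h4] at h3
      omega
    · push Not at hc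
      have h2 := hNM.add hadj (hRS hr) hr'S hrN hc
      have h3 := hmax' _ h2.1
      have h4 : (insert s(r, r') N).card = N.card + 1 := Finset.card_insert_of_notMem h2.2
      have h5 : (N ∩ A).card ≤ A.card := Finset.card_le_card Finset.inter_subset_right
      simp only [f] at h3
      rw [h4] at h3
      nlinarith
  -- some uncovered vertex of `R` is matched to `b`
  have hex : ∃ r ∈ R, (∀ e ∈ N, r ∉ e) ∧ s(r, b) ∈ A := by
    by_contra hno
    push Not at hno
    apply hns
    refine ⟨N ∪ A.filter (fun e => ∃ r ∈ R, r ∈ e ∧ ∀ g ∈ N, r ∉ g), ⟨?_, ?_, ?_⟩, ?_⟩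
    · intro e he
      rcases Finset.mem_union.mp he with he | he
      · exact hNM.edge e he
      · exact hA.edge e (Finset.mem_filter.mp he).1
    · intro e he x hx
      rcases Finset.mem_union.mp he with he | he
      · exact hSX (hNM.sub e he x hx)
      · obtain ⟨heA, r, hrR, hre, hrN⟩ := Finset.mem_filter.mp he
        rcases Finset.mem_insert.mp (hA.sub e heA x hx) with rfl | hxX
        · exfalso
          have hrx : r ≠ x := fun h => hb (h ▸ hSX (hRS hrR))
          have : e = s(r, x) := (Sym2.mem_and_mem_iff hrx).mp ⟨hre, hx⟩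
          exact hno r hrR hrN (this ▸ heA)
        · exact hxX
    · have cross : ∀ e ∈ N, ∀ g ∈ A.filter (fun e => ∃ r ∈ R, r ∈ e ∧ ∀ g ∈ N, r ∉ g), ∀ x,
          x ∈ e → x ∈ g → False := by
        intro e he g hg x hxe hxg
        obtain ⟨hgA, r, hrR, hrg, hrN⟩ := Finset.mem_filter.mp hg
        have hrx : r ≠ x := fun h => hrN e he (h ▸ hxe)
        have : g = s(r, x) := (Sym2.mem_and_mem_iff hrx).mp ⟨hrg, hxg⟩
        exact key r hrR hrN x (this ▸ hgA) (hNM.sub e he x hxe)
      intro e he g hg x hxe hxg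
      rcases Finset.mem_union.mp he with he | he <;> rcases Finset.mem_union.mp hg with hg | hg
      · exact hNM.disj e he g hg x hxe hxg
      · exact (cross e he g hg x hxe hxg).elim
      · exact (cross g hg e he x hxg hxe).elim
      · exact hA.disj e (Finset.mem_filter.mp he).1 g (Finset.mem_filter.mp hg).1 x hxe hxg
    · intro r hr
      by_cases hc : ∃ e ∈ N, r ∈ e
      · obtain ⟨e, he, hre⟩ := hc
        exact ⟨e, Finset.mem_union_left _ he, hre⟩
      · push Not at hc
        obtain ⟨e, he, hre⟩ := hAR r hr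
        exact ⟨e, Finset.mem_union_right _ (Finset.mem_filter.mpr ⟨he, r, hr, hre, hc⟩), hre⟩
  obtain ⟨r, hrR, hrN, hrb⟩ := hex
  have h1 : IsM Γ (insert b S) N := hNM.mono (Finset.subset_insert _ _)
  have h2 := h1.add (hA.edge _ hrb : Γ.Adj r b) (Finset.mem_insert_of_mem (hRS hrR))
    (Finset.mem_insert_self _ _) hrN (fun e he hbe => hb (hSX (hNM.sub e he b hbe)))
  refine ⟨_, h2.1, ?_⟩
  rw [Finset.card_insert_of_notMem h2.2]
  omega

theorem lemmaB {Γ : SimpleGraph U} {C R S : Finset U} {w a : U} (hsat : Sat Γ C R)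
    (hwC : w ∈ C) (hns : ¬ Sat Γ C (insert w R)) (haC : a ∈ C)
    (haR : a ∉ R) (hadj : Γ.Adj w a) (hS1 : insert w R ⊆ S) (hS2 : S ⊆ C.erase a)
    {M : Finset (Sym2 U)} (hM : IsM Γ S M) :
    ∃ M', IsM Γ (insert a S) M' ∧ M.card + 1 ≤ M'.card := by
  classical
  obtain ⟨A, hA, hAR⟩ := hsat
  have hwA : ∀ e ∈ A, w ∉ e := by
    intro e he hwe
    apply hns
    refine ⟨A, hA, fun r hr => ?_⟩
    rcases Finset.mem_insert.mp hr with rfl | hr
    · exact ⟨e, he, hwe⟩
    · exact hAR r hr
  -- `a` is covered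
  have haA : ∃ e ∈ A, a ∈ e := by
    by_contra hno
    push Not at hno
    have h := hA.add hadj hwC haC hwA hno
    apply hns
    refine ⟨_, h.1, fun r hr => ?_⟩
    rcases Finset.mem_insert.mp hr with rfl | hr
    · exact ⟨_, Finset.mem_insert_self _ _, Sym2.mem_mk_left _ _⟩
    · obtain ⟨e, he, hre⟩ := hAR r hr
      exact ⟨e, Finset.mem_insert_of_mem he, hre⟩
  obtain ⟨e, heA, hae⟩ := haA
  obtain ⟨a', rfl⟩ := Sym2.mem_iff_exists.mp hae
  have haa' : Γ.Adj a a' := hA.edge _ heA
  -- the exchanged matching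
  have hA' : IsM Γ C (A.erase s(a, a')) := hA.subset (Finset.erase_subset _ _)
  have hB := hA'.add hadj hwC haC (fun e he => hwA e (Finset.mem_of_mem_erase he))
    (fun e he hae' => Finset.ne_of_mem_erase he
      (hA.disj e (Finset.mem_of_mem_erase he) _ heA a hae' hae))
  have hBcov : ∀ r ∈ R, r ≠ a' → ∃ e ∈ insert s(w, a) (A.erase s(a, a')), r ∈ e := by
    intro r hr hra'
    obtain ⟨g, hg, hrg⟩ := hAR r hr
    have hra : r ≠ a := fun h => haR (h ▸ hr)
    refine ⟨g, Finset.mem_insert_of_mem (Finset.mem_erase.mpr ⟨?_, hg⟩), hrg⟩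
    rintro rfl
    rcases Sym2.mem_iff.mp hrg with h | h
    · exact hra h
    · exact hra' h
  have ha'R : a' ∈ R := by
    by_contra hno
    apply hns
    refine ⟨_, hB.1, fun r hr => ?_⟩
    rcases Finset.mem_insert.mp hr with rfl | hr
    · exact ⟨_, Finset.mem_insert_self _ _, Sym2.mem_mk_left _ _⟩
    · exact hBcov r hr (fun h => hno (h ▸ hr))
  -- apply lemma A to `R₁`
  have hR1S : insert w (R.erase a') ⊆ S :=
    (Finset.insert_subset_insert _ (Finset.erase_subset _ _)).trans hS1
  refine lemmaA (X := C.erase a) (R := insert w (R.erase a')) hR1S hS2 (Finset.notMem_erase a C)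
    ?_ ?_ hM
  · rw [Finset.insert_erase haC]
    refine ⟨_, hB.1, fun r hr => ?_⟩
    rcases Finset.mem_insert.mp hr with rfl | hr
    · exact ⟨_, Finset.mem_insert_self _ _, Sym2.mem_mk_left _ _⟩
    · exact hBcov r (Finset.mem_of_mem_erase hr) (Finset.ne_of_mem_erase hr)
  · rintro ⟨A₃, hA₃, hcov⟩
    have hA₃C : IsM Γ C A₃ := hA₃.mono (Finset.erase_subset _ _)
    apply hns
    by_cases hc : ∃ e ∈ A₃, a' ∈ e
    · refine ⟨A₃, hA₃C, fun r hr => ?_⟩
      rcases Finset.mem_insert.mp hr with rfl | hr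
      · exact hcov _ (Finset.mem_insert_self _ _)
      · by_cases hra : r = a'
        · rw [hra]; exact hc
        · exact hcov r (Finset.mem_insert_of_mem (Finset.mem_erase.mpr ⟨hra, hr⟩))
    · push Not at hc
      have h := hA₃C.add haa' haC (hA.sub _ heA a' (Sym2.mem_mk_right _ _))
        (fun e he hae' => (Finset.notMem_erase a C) (hA₃.sub e he a hae')) hc
      refine ⟨_, h.1, fun r hr => ?_⟩
      rcases Finset.mem_insert.mp hr with rfl | hr
      · obtain ⟨e, he, hre⟩ := hcov r (Finset.mem_insert_self _ _)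
        exact ⟨e, Finset.mem_insert_of_mem he, hre⟩
      · by_cases hra : r = a'
        · rw [hra]; exact ⟨_, Finset.mem_insert_self _ _, Sym2.mem_mk_right _ _⟩
        · obtain ⟨e, he, hre⟩ := hcov r (Finset.mem_insert_of_mem (Finset.mem_erase.mpr ⟨hra, hr⟩))
          exact ⟨e, Finset.mem_insert_of_mem he, hre⟩

end Pool.Agent.REG
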