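import Pool.Agent.REG.Targets

/-!
Membership in powers of the edge ideal, and the two special degree complexes that are
independence complexes.
-/

set_option autoImplicit false

namespace Pool.Agent.REG

open Finset

theorem tUpMem : TUpMem := by
  intro n G s a b hab h
  obtain ⟨e, he, hs⟩ := h
  exact ⟨e, he, fun v => (hs v).trans (hab v)⟩

/-- The number of times `v` is used by the edge `p`. -/
def use {n : ℕ} (p : Fin n × Fin n) (v : Fin n) : ℕ :=
  (if p.1 = v then 1 else 0) + (if p.2 = v then 1 else 0)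

theorem use_le_one {n : ℕ} {G : SimpleGraph (Fin n)} {p : Fin n × Fin n} (h : G.Adj p.1 p.2)
    (v : Fin n) : use p v ≤ 1 := by
  unfold use
  have hne := h.ne
  split_ifs with h1 h2 <;> simp
  exact hne (h1.trans h2.symm)

theorem sum_use_le {n : ℕ} {G : SimpleGraph (Fin n)} {s : ℕ} {e : Fin s → Fin n × Fin n}
    (he : ∀ j, G.Adj (e j).1 (e j).2) (v : Fin n) : (∑ j, use (e j) v) ≤ s := by
  calc (∑ j, use (e j) v) ≤ ∑ _j : Fin s, 1 := Finset.sum_le_sum (fun j _ => use_le_one (he j) v)
    _ = s := by simp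

theorem memP_iff {n : ℕ} (G : SimpleGraph (Fin n)) (s : ℕ) (c : Fin n → ℕ) :
    memP G s c ↔ ∃ e : Fin s → Fin n × Fin n, (∀ j, G.Adj (e j).1 (e j).2) ∧
      ∀ v, (∑ j, use (e j) v) ≤ c v := Iff.rfl

theorem tCapMem : TCapMem := by
  intro n G s N hsN a h
  obtain ⟨e, he, hs⟩ := h
  exact ⟨e, he, fun v => le_min (hs v) ((sum_use_le he v).trans hsN)⟩

/-- Exponent vector of a product of `s` edges. -/
def expSet {n : ℕ} (G : SimpleGraph (Fin n)) (s : ℕ) : Set (Fin n →₀ ℕ) :=
  {m | ∃ e : Fin s → Fin n × Fin n, (∀ j, G.Adj (e j).1 (e j).2) ∧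
    m = ∑ j, (Finsupp.single (e j).1 1 + Finsupp.single (e j).2 1)}

theorem edgeIdeal_eq (k : Type) [Field k] {n : ℕ} (G : SimpleGraph (Fin n)) :
    edgeIdeal k n G = Ideal.span ((fun s => MvPolynomial.monomial s (1 : k)) '' expSet G 1) := by
  unfold edgeIdeal
  congr 1
  ext f
  constructor
  · rintro ⟨i, j, hij, rfl⟩
    refine ⟨Finsupp.single i 1 + Finsupp.single j 1, ⟨fun _ => (i, j), fun _ => hij, by simp⟩, ?_⟩
    simp [MvPolynomial.X, MvPolynomial.monomial_mul]
  · rintro ⟨m, ⟨e, he, rfl⟩, rfl⟩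
    refine ⟨(e 0).1, (e 0).2, he 0, ?_⟩
    simp [MvPolynomial.X, MvPolynomial.monomial_mul]

theorem edgeIdeal_pow (k : Type) [Field k] {n : ℕ} (G : SimpleGraph (Fin n)) (s : ℕ) :
    edgeIdeal k n G ^ s =
      Ideal.span ((fun s => MvPolynomial.monomial s (1 : k)) '' expSet G s) := by
  induction s with
  | zero =>
    rw [pow_zero, Ideal.one_eq_top]
    symm
    rw [Ideal.eq_top_iff_one]
    refine Ideal.subset_span ⟨0, ⟨fun j => j.elim0, fun j => j.elim0, by simp⟩, ?_⟩
    simp
  | succ s ih =>
    rw [pow_succ, ih, edgeIdeal_eq, Ideal.span_mul_span']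
    congr 1
    ext f
    constructor
    · rintro ⟨_, ⟨m, ⟨e, he, rfl⟩, rfl⟩, _, ⟨m', ⟨e', he', rfl⟩, rfl⟩, rfl⟩
      refine ⟨_, ⟨Fin.snoc (α := fun _ => Fin n × Fin n) e (e' 0), ?_, rfl⟩, ?_⟩
      · intro j
        refine Fin.lastCases ?_ (fun i => ?_) j
        · simpa using he' 0
        · simpa using he i
      · simp only [Fin.sum_univ_castSucc, Fin.snoc_castSucc, Fin.snoc_last,
          MvPolynomial.monomial_mul, mul_one]
        simp
    · rintro ⟨m, ⟨e, he, rfl⟩, rfl⟩
      refine ⟨_, ⟨_, ⟨fun j => e j.castSucc, fun j => he _, rfl⟩, rfl⟩, _,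
        ⟨_, ⟨fun _ => e (Fin.last s), fun _ => he _, rfl⟩, rfl⟩, ?_⟩
      simp only [Fin.sum_univ_castSucc, MvPolynomial.monomial_mul, mul_one]
      simp

theorem tMemPow : TMemPow := by
  intro k _ n G s f
  rw [edgeIdeal_pow, MvPolynomial.mem_ideal_span_monomial_image]
  refine forall_congr' fun c => forall_congr' fun _ => ?_
  constructor
  · rintro ⟨m, ⟨e, he, rfl⟩, hm⟩
    refine ⟨e, he, fun v => ?_⟩
    have := hm v
    rw [Finsupp.finsetSum_apply] at this
    simpa [Finsupp.single_apply] using this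
  · rintro ⟨e, he, hm⟩
    refine ⟨_, ⟨e, he, rfl⟩, fun v => ?_⟩
    have := hm v
    rw [Finsupp.finsetSum_apply]
    simpa [Finsupp.single_apply] using this

/-- Two adjacent vertices with large exponents. -/
theorem memP_of_adj {n : ℕ} {G : SimpleGraph (Fin n)} {s : ℕ} {c : Fin n → ℕ} {x y : Fin n}
    (h : G.Adj x y) (hx : s ≤ c x) (hy : s ≤ c y) : memP G s c := by
  rw [memP_iff]
  refine ⟨fun _ => (x, y), fun _ => h, fun v => ?_⟩
  have hne := h.ne
  simp only [use, Finset.sum_const, Finset.card_univ, Fintype.card_fin, smul_eq_mul]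
  split_ifs with h1 h2 h2
  · exact absurd (h1.trans h2.symm) hne
  · subst h1; omega
  · subst h2; omega
  · omega

/-- Each edge of a family below `c` has both ends in the support of `c`. -/
theorem pos_of_sum {n : ℕ} {s : ℕ} {c : Fin n → ℕ} {e : Fin s → Fin n × Fin n}
    (h : ∀ v, (∑ j, use (e j) v) ≤ c v) (j : Fin s) : 0 < c (e j).1 ∧ 0 < c (e j).2 := by
  have key : ∀ v, use (e j) v ≤ c v := fun v =>
    (Finset.single_le_sum (f := fun j => use (e j) v) (fun _ _ => Nat.zero_le _)
      (Finset.mem_univ j)).trans (h v)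
  constructor
  · have := key (e j).1
    simp only [use, if_true] at this
    omega
  · have := key (e j).2
    simp only [use, if_true] at this
    omega

theorem le_sum_use {n : ℕ} {s : ℕ} {e : Fin s → Fin n × Fin n} (v : Fin n)
    (h : ∀ j, (e j).1 = v ∨ (e j).2 = v) : s ≤ ∑ j, use (e j) v := by
  calc s = ∑ _j : Fin s, 1 := by simp
    _ ≤ _ := Finset.sum_le_sum (fun j _ => by
      unfold use
      rcases h j with h | h
      · rw [if_pos h]; omega
      · rw [if_pos h]; omega)

theorem tInd1 : TInd1 := by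
  intro n G s N W v hs hsN hv T
  constructor
  · rintro ⟨hTW, hT⟩
    refine ⟨hTW, fun x hx y hy hxy => hT ?_⟩
    refine memP_of_adj hxy ?_ ?_
    · rw [if_pos hx, if_pos ⟨hx, hTW hx⟩]; omega
    · rw [if_pos hy, if_pos ⟨hy, hTW hy⟩]; omega
  · rintro ⟨hTW, hT⟩
    refine ⟨hTW, ?_⟩
    rw [memP_iff]
    rintro ⟨e, he, hsum⟩
    have hmem : ∀ j x, (x = (e j).1 ∨ x = (e j).2) → x = v ∨ x ∈ T := by
      intro j x hx
      have hp : 0 < (if x = v then s - 1 else 0) + (if x ∈ T then 1 else 0) +
          (if x ∈ T ∧ x ∈ W then N else 0) := by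
        rcases hx with rfl | rfl
        · exact (pos_of_sum hsum j).1
        · exact (pos_of_sum hsum j).2
      by_contra hcon
      push Not at hcon
      rw [if_neg hcon.1, if_neg hcon.2, if_neg (fun h => hcon.2 h.1)] at hp
      omega
    by_cases hvT : v ∈ T
    · have j0 : Fin s := ⟨0, hs⟩
      refine hT (e j0).1 ?_ (e j0).2 ?_ (he j0)
      · rcases hmem j0 _ (Or.inl rfl) with h | h
        · rw [h]; exact hvT
        · exact h
      · rcases hmem j0 _ (Or.inr rfl) with h | h
        · rw [h]; exact hvT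
        · exact h
    · have huse : ∀ j, (e j).1 = v ∨ (e j).2 = v := by
        intro j
        by_contra hcon
        push Not at hcon
        refine hT (e j).1 ?_ (e j).2 ?_ (he j)
        · exact (hmem j _ (Or.inl rfl)).resolve_left hcon.1
        · exact (hmem j _ (Or.inr rfl)).resolve_left hcon.2
      have h1 := le_sum_use v huse
      have h2 := hsum v
      beta_reduce at h2
      rw [if_pos rfl, if_neg hvT, if_neg (fun h => hvT h.1)] at h2
      omega

theorem tInd2 : TInd2 := by
  intro n G s N W u v hs hsN huv hW T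
  have hvW : v ∉ W := fun h => (hW v h).1 huv
  have huW : u ∉ W := fun h => (hW u h).2 huv.symm
  constructor
  · rintro ⟨hTW, hT⟩
    refine ⟨hTW, fun x hx y hy hxy => hT ?_⟩
    refine memP_of_adj hxy ?_ ?_
    · rw [if_pos hx, if_pos ⟨hx, hTW hx⟩]; omega
    · rw [if_pos hy, if_pos ⟨hy, hTW hy⟩]; omega
  · rintro ⟨hTW, hT⟩
    refine ⟨hTW, ?_⟩
    rw [memP_iff]
    rintro ⟨e, he, hsum⟩
    have hmem : ∀ j x, (x = (e j).1 ∨ x = (e j).2) → (x = u ∨ x = v) ∨ x ∈ T := by
      intro j x hx
      have hp : 0 < (if x = u ∨ x = v then s - 1 else 0) + (if x ∈ T then 1 else 0) +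
          (if x ∈ T ∧ x ∈ insert u (insert v W) then N else 0) := by
        rcases hx with rfl | rfl
        · exact (pos_of_sum hsum j).1
        · exact (pos_of_sum hsum j).2
      by_contra hcon
      push Not at hcon
      rw [if_neg (by tauto), if_neg hcon.2, if_neg (fun h => hcon.2 h.1)] at hp
      omega
    have hmem' : ∀ j x, (x = (e j).1 ∨ x = (e j).2) → x = u ∨ x = v ∨ x ∈ W := by
      intro j x hx
      rcases hmem j x hx with h | h
      · tauto
      · have := hTW h
        simpa using this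
    have hedge : ∀ j, (((e j).1 = u ∧ (e j).2 = v) ∨ ((e j).1 = v ∧ (e j).2 = u)) := by
      intro j
      have h1 := hmem' j _ (Or.inl rfl)
      have h2 := hmem' j _ (Or.inr rfl)
      have hadj := he j
      rcases h1 with h1 | h1 | h1
      · rcases h2 with h2 | h2 | h2
        · exact absurd (h1.trans h2.symm) hadj.ne
        · exact Or.inl ⟨h1, h2⟩
        · rw [h1] at hadj
          exact absurd hadj (hW _ h2).1
      · rcases h2 with h2 | h2 | h2
        · exact Or.inr ⟨h1, h2⟩
        · exact absurd (h1.trans h2.symm) hadj.ne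
        · rw [h1] at hadj
          exact absurd hadj (hW _ h2).2
      · rcases h2 with h2 | h2 | h2
        · rw [h2] at hadj
          exact absurd hadj.symm (hW _ h1).1
        · rw [h2] at hadj
          exact absurd hadj.symm (hW _ h1).2
        · exfalso
          have a1 : (e j).1 ∈ T := (hmem j _ (Or.inl rfl)).resolve_left (by
            rintro (h | h)
            · exact huW (h ▸ h1)
            · exact hvW (h ▸ h1))
          have a2 : (e j).2 ∈ T := (hmem j _ (Or.inr rfl)).resolve_left (by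
            rintro (h | h)
            · exact huW (h ▸ h2)
            · exact hvW (h ▸ h2))
          exact hT _ a1 _ a2 hadj
    have hnot : u ∉ T ∨ v ∉ T := by
      by_contra hcon
      push Not at hcon
      exact hT u hcon.1 v hcon.2 huv
    rcases hnot with huT | hvT
    · have h1 := le_sum_use u (e := e) (fun j => by rcases hedge j with h | h <;> tauto)
      have h2 := hsum u
      beta_reduce at h2
      rw [if_pos (Or.inl rfl), if_neg huT, if_neg (fun h => huT h.1)] at h2
      omega
    · have h1 := le_sum_use v (e := e) (fun j => by rcases hedge j with h | h <;> tauto)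
      have h2 := hsum v
      beta_reduce at h2
      rw [if_pos (Or.inr rfl), if_neg hvT, if_neg (fun h => hvT h.1)] at h2
      omega

end Pool.Agent.REG
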