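import Mathlib

/-!
Edge ideals and Castelnuovo-Mumford regularity.
-/

set_option autoImplicit false

namespace Pool.Agent.REG

open MvPolynomial

/-- The edge ideal of a graph on `Fin n`. -/
noncomputable def edgeIdeal (k : Type) [Field k] (n : ℕ) (G : SimpleGraph (Fin n)) :
    Ideal (MvPolynomial (Fin n) k) :=
  Ideal.span {f | ∃ i j : Fin n, G.Adj i j ∧ f = X i * X j}

/-- `J` has a graded free resolution `... → F_1 → F_0 → J → 0` by finitely generated graded free
modules with `F_i` generated in degrees at most `r + i`; that is, `reg J ≤ r`. -/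
def RegLE (k : Type) [Field k] {n : ℕ} (J : Ideal (MvPolynomial (Fin n) k)) (r : ℕ) : Prop :=
  ∃ (b : ℕ → ℕ) (deg : ∀ i : ℕ, Fin (b i) → ℕ)
    (g : Fin (b 0) → MvPolynomial (Fin n) k)
    (d : ∀ i : ℕ, Matrix (Fin (b i)) (Fin (b (i + 1))) (MvPolynomial (Fin n) k)),
    Ideal.span (Set.range g) = J ∧
    (∀ j : Fin (b 0), (g j).IsHomogeneous (deg 0 j)) ∧
    (∀ (i : ℕ) (s : Fin (b i)) (c : Fin (b (i + 1))),
      d i s c = 0 ∨
        (deg i s ≤ deg (i + 1) c ∧ (d i s c).IsHomogeneous (deg (i + 1) c - deg i s))) ∧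
    (∀ v : Fin (b 0) → MvPolynomial (Fin n) k,
      (∑ j, g j * v j = 0) ↔ ∃ w, Matrix.mulVec (d 0) w = v) ∧
    (∀ (i : ℕ) (v : Fin (b (i + 1)) → MvPolynomial (Fin n) k),
      Matrix.mulVec (d i) v = 0 ↔ ∃ w, Matrix.mulVec (d (i + 1)) w = v) ∧
    (∀ (i : ℕ) (j : Fin (b i)), deg i j ≤ r + i)

/-- Castelnuovo-Mumford regularity of an ideal: the least `r` such that there is a graded free
resolution by finitely generated free modules `F_i` generated in degrees at most `r + i`. -/
noncomputable def reg (k : Type) [Field k] {n : ℕ} (J : Ideal (MvPolynomial (Fin n) k)) : ℕ :=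
  sInf {r | RegLE k J r}

/-- For an edge `u v` of `G`: the graph `G` with all edges meeting a neighbour of `u` or of `v`
removed; that is, the induced graph outside the closed neighbourhood of the edge, together with
isolated vertices. -/
def away {n : ℕ} (G : SimpleGraph (Fin n)) (u v : Fin n) : SimpleGraph (Fin n) where
  Adj x y := G.Adj x y ∧ (¬ G.Adj u x ∧ ¬ G.Adj v x) ∧ (¬ G.Adj u y ∧ ¬ G.Adj v y)
  symm := ⟨fun _ _ h => ⟨h.1.symm, h.2.2, h.2.1⟩⟩
  loopless := ⟨fun _ h => G.irrefl h.1⟩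

/-- The maximum over the edges `e` of `G` of `reg S/I(G - N[e])`. -/
noncomputable def rho (k : Type) [Field k] {n : ℕ} (G : SimpleGraph (Fin n)) : ℕ := by
  classical
  exact (Finset.univ.filter (fun e : Fin n × Fin n => G.Adj e.1 e.2)).sup
    (fun e => reg k (edgeIdeal k n (away G e.1 e.2)) - 1)

end Pool.Agent.REG
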