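import Pool.Agent.REG.Targets

/-!
Koszul complexes with coefficients in graded modules over a polynomial ring: exactness for free
modules and dimension shifting.
-/

set_option autoImplicit false

namespace Pool.Agent.REG

open Finset MvPolynomial

section Koszul

variable (k : Type) [Field k] {n : ℕ}
variable {N : Type} [AddCommGroup N] [Module (MvPolynomial (Fin n) k) N]
variable {N' : Type} [AddCommGroup N'] [Module (MvPolynomial (Fin n) k) N']

/-- Koszul boundary. -/
noncomputable def bd (f : Finset (Fin n) → N) (T : Finset (Fin n)) : N :=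
  ∑ t ∈ univ \ T,
    ((-1 : MvPolynomial (Fin n) k) ^ (T.filter (· < t)).card * X t) • f (insert t T)

theorem bd_map (π : N →ₗ[MvPolynomial (Fin n) k] N') (f : Finset (Fin n) → N)
    (T : Finset (Fin n)) : bd k (fun T => π (f T)) T = π (bd k f T) := by
  unfold bd
  rw [map_sum]
  simp only [map_smul]

theorem bd_sub (f g : Finset (Fin n) → N) (T : Finset (Fin n)) :
    bd k (fun T => f T - g T) T = bd k f T - bd k g T := by
  unfold bd
  rw [← Finset.sum_sub_distrib]
  simp only [smul_sub]

theorem filter_insert_card {t u : Fin n} {T : Finset (Fin n)} (ht : t ∉ T) :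
    ((insert t T).filter (· < u)).card = (T.filter (· < u)).card + if t < u then 1 else 0 := by
  rw [Finset.filter_insert]
  split_ifs with h
  · rw [Finset.card_insert_of_notMem]
    intro h'
    exact ht (mem_filter.1 h').1
  · rfl

theorem bd_bd (f : Finset (Fin n) → N) (T : Finset (Fin n)) : bd k (bd k f) T = 0 := by
  unfold bd
  simp_rw [Finset.smul_sum, smul_smul]
  rw [Finset.sum_sigma']
  refine Finset.sum_involution (fun p _ => ⟨p.2, p.1⟩) ?_ ?_ ?_ ?_
  · rintro ⟨t, u⟩ h
    simp only [mem_sigma, mem_sdiff, mem_univ, true_and, mem_insert, not_or] at h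
    obtain ⟨ht, hut, hu⟩ := h
    simp only
    rw [filter_insert_card ht, filter_insert_card hu, Finset.insert_comm t u T, ← add_smul]
    have : ((-1 : MvPolynomial (Fin n) k) ^ (T.filter (· < t)).card * X t *
        ((-1) ^ ((T.filter (· < u)).card + if t < u then 1 else 0) * X u) +
        (-1) ^ (T.filter (· < u)).card * X u *
        ((-1) ^ ((T.filter (· < t)).card + if u < t then 1 else 0) * X t)) = 0 := by
      rcases lt_or_gt_of_ne hut with h | h
      · rw [if_neg (lt_asymm h), if_pos h]
        ring
      · rw [if_pos h, if_neg (lt_asymm h)]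
        ring
    rw [this, zero_smul]
  · rintro ⟨t, u⟩ h _ h'
    simp only [mem_sigma, mem_sdiff, mem_univ, true_and, mem_insert, not_or] at h
    simp only [Sigma.mk.injEq] at h'
    exact h.2.1 h'.1
  · rintro ⟨t, u⟩ h
    simp only [mem_sigma, mem_sdiff, mem_univ, true_and, mem_insert, not_or] at h ⊢
    exact ⟨h.2.2, fun h' => h.2.1 h'.symm, h.1⟩
  · rintro ⟨t, u⟩ _
    rfl

/-- boundaries of chains in card `i + 1` are supported in card `i` -/
theorem bd_supp {f : Finset (Fin n) → N} {i : ℕ} (hf : ∀ T, T.card ≠ i + 1 → f T = 0)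
    (T : Finset (Fin n)) (hT : T.card ≠ i) : bd k f T = 0 := by
  unfold bd
  apply Finset.sum_eq_zero
  intro t ht
  simp only [mem_sdiff, mem_univ, true_and] at ht
  rw [hf, smul_zero]
  rw [Finset.card_insert_of_notMem ht]
  omega

theorem bd_supp0 {f : Finset (Fin n) → N} (hf : ∀ T, T.card ≠ 0 → f T = 0)
    (T : Finset (Fin n)) : bd k f T = 0 := by
  unfold bd
  apply Finset.sum_eq_zero
  intro t ht
  simp only [mem_sdiff, mem_univ, true_and] at ht
  rw [hf, smul_zero]
  rw [Finset.card_insert_of_notMem ht]
  omega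

/-- The variables raise the degree by one. -/
def XG (G : ℕ → AddSubgroup N) : Prop :=
  ∀ (e : ℕ) (x : N) (t : Fin n), x ∈ G e → (X t : MvPolynomial (Fin n) k) • x ∈ G (e + 1)

theorem bd_mem {G : ℕ → AddSubgroup N} (hG : XG k (n := n) G) {e : ℕ} {f : Finset (Fin n) → N}
    (hf : ∀ T, f T ∈ G e) (T : Finset (Fin n)) : bd k f T ∈ G (e + 1) := by
  unfold bd
  apply AddSubgroup.sum_mem
  intro t _
  have h := hG e _ t (hf (insert t T))
  rw [mul_smul]
  rcases neg_one_pow_eq_or (MvPolynomial (Fin n) k) (T.filter (· < t)).card with h1 | h1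
  · rw [h1, one_smul]; exact h
  · rw [h1, neg_smul, one_smul]; exact AddSubgroup.neg_mem _ h

variable (n) in
/-- Koszul exactness in homological degree `i` for coefficients of degree `d + 1`. -/
def KX (G : ℕ → AddSubgroup N) (i d : ℕ) : Prop :=
  ∀ f : Finset (Fin n) → N, (∀ T, T.card ≠ i → f T = 0) → (∀ T, f T ∈ G (d + 1)) →
    (∀ T, bd k f T = 0) →
    ∃ g : Finset (Fin n) → N, (∀ T, T.card ≠ i + 1 → g T = 0) ∧ (∀ T, g T ∈ G d) ∧
      ∀ T, f T = bd k g T

/-- The graded kernel of a map. -/
noncomputable def GK (π : N →ₗ[MvPolynomial (Fin n) k] N') (G : ℕ → AddSubgroup N) (e : ℕ) : AddSubgroup N :=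
  G e ⊓ (LinearMap.ker π).toAddSubgroup

theorem mem_GK {π : N →ₗ[MvPolynomial (Fin n) k] N'} {G : ℕ → AddSubgroup N} {e : ℕ} {x : N} :
    x ∈ GK k π G e ↔ x ∈ G e ∧ π x = 0 := by
  simp [GK]

/-- lifting of chains -/
theorem lift_chain (π : N →ₗ[MvPolynomial (Fin n) k] N') {G : ℕ → AddSubgroup N}
    {G' : ℕ → AddSubgroup N'} {e : ℕ} (hs : ∀ y ∈ G' e, ∃ x ∈ G e, π x = y) {i : ℕ}
    {f : Finset (Fin n) → N'} (hf : ∀ T, T.card ≠ i → f T = 0) (hf' : ∀ T, f T ∈ G' e) :
    ∃ F : Finset (Fin n) → N, (∀ T, T.card ≠ i → F T = 0) ∧ (∀ T, F T ∈ G e) ∧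
      ∀ T, π (F T) = f T := by
  classical
  choose F0 h1 h2 using fun T => hs (f T) (hf' T)
  refine ⟨fun T => if T.card = i then F0 T else 0, ?_, ?_, ?_⟩
  · intro T hT
    dsimp only
    rw [if_neg hT]
  · intro T
    dsimp only
    split_ifs
    · exact h1 T
    · exact AddSubgroup.zero_mem _
  · intro T
    dsimp only
    split_ifs with h
    · exact h2 T
    · rw [map_zero, hf T h]

/-- Dimension shift, homological degree `0`. -/
theorem kx_quot_zero (π : N →ₗ[MvPolynomial (Fin n) k] N') {G : ℕ → AddSubgroup N}
    {G' : ℕ → AddSubgroup N'} (hπ : ∀ e, ∀ x ∈ G e, π x ∈ G' e)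
    (hs : ∀ e, ∀ y ∈ G' e, ∃ x ∈ G e, π x = y) {d : ℕ} (h : KX k n G 0 d) : KX k n G' 0 d := by
  intro f hf hfd hc
  obtain ⟨F, hF1, hF2, hF3⟩ := lift_chain k π (hs (d + 1)) hf hfd
  obtain ⟨g, hg1, hg2, hg3⟩ := h F hF1 hF2 (bd_supp0 k hF1)
  refine ⟨fun T => π (g T), fun T hT => by simp only [hg1 T hT, map_zero], fun T => hπ _ _ (hg2 T),
    fun T => ?_⟩
  rw [bd_map, ← hg3, hF3]

/-- Dimension shift, positive homological degree. -/
theorem kx_quot_succ (π : N →ₗ[MvPolynomial (Fin n) k] N') {G : ℕ → AddSubgroup N}
    {G' : ℕ → AddSubgroup N'} (hG : XG k (n := n) G) (hπ : ∀ e, ∀ x ∈ G e, π x ∈ G' e)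
    (hs : ∀ e, ∀ y ∈ G' e, ∃ x ∈ G e, π x = y) {i d : ℕ} (h : KX k n G (i + 1) d)
    (h' : KX k n (GK k π G) i (d + 1)) : KX k n G' (i + 1) d := by
  intro f hf hfd hc
  obtain ⟨F, hF1, hF2, hF3⟩ := lift_chain k π (hs (d + 1)) hf hfd
  have hFf : (fun T => π (F T)) = f := funext hF3
  obtain ⟨g', hg1', hg2', hg3'⟩ := h' (bd k F) (bd_supp k hF1) (fun T => by
      rw [mem_GK]
      refine ⟨bd_mem k hG hF2 T, ?_⟩
      rw [← bd_map, hFf]
      exact hc T) (bd_bd k F)
  obtain ⟨g, hg1, hg2, hg3⟩ := h (fun T => F T - g' T)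
    (fun T hT => by simp only [hF1 T hT, hg1' T hT, sub_zero])
    (fun T => AddSubgroup.sub_mem _ (hF2 T) ((mem_GK k).1 (hg2' T)).1)
    (fun T => by rw [bd_sub, ← hg3', sub_self])
  refine ⟨fun T => π (g T), fun T hT => by simp only [hg1 T hT, map_zero], fun T => hπ _ _ (hg2 T),
    fun T => ?_⟩
  rw [bd_map, ← hg3, map_sub, hF3, ((mem_GK k).1 (hg2' T)).2, sub_zero]

/-- Dimension shift for the kernel. -/
theorem kx_ker (π : N →ₗ[MvPolynomial (Fin n) k] N') {G : ℕ → AddSubgroup N}
    {G' : ℕ → AddSubgroup N'} (hG : XG k (n := n) G) (hπ : ∀ e, ∀ x ∈ G e, π x ∈ G' e)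
    (hs : ∀ e, ∀ y ∈ G' e, ∃ x ∈ G e, π x = y) {i d : ℕ} (h : KX k n G i (d + 1))
    (h' : KX k n G' (i + 1) d) : KX k n (GK k π G) i (d + 1) := by
  intro f hf hfd hc
  obtain ⟨g, hg1, hg2, hg3⟩ := h f hf (fun T => ((mem_GK k).1 (hfd T)).1) hc
  have hgf : bd k g = f := funext fun T => (hg3 T).symm
  obtain ⟨g2, hg21, hg22, hg23⟩ := h' (fun T => π (g T))
    (fun T hT => by simp only [hg1 T hT, map_zero]) (fun T => hπ _ _ (hg2 T))
    (fun T => by rw [bd_map, hgf]; exact ((mem_GK k).1 (hfd T)).2)
  obtain ⟨F, hF1, hF2, hF3⟩ := lift_chain k π (hs d) hg21 hg22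
  have hFf : (fun T => π (F T)) = g2 := funext hF3
  refine ⟨fun T => g T - bd k F T, ?_, ?_, ?_⟩
  · intro T hT
    simp only [hg1 T hT, bd_supp k hF1 T hT, sub_zero]
  · intro T
    rw [mem_GK]
    refine ⟨AddSubgroup.sub_mem _ (hg2 T) (bd_mem k hG hF2 T), ?_⟩
    rw [map_sub, ← bd_map, hFf, ← hg23, sub_self]
  · intro T
    rw [bd_sub, bd_bd, sub_zero, hg3]

end Koszul

section Res

variable {k : Type} [Field k] {n : ℕ}

open Classical in
/-- Restriction of a polynomial to the monomials satisfying a predicate. -/
noncomputable def res (Pd : (Fin n →₀ ℕ) → Prop) (p : MvPolynomial (Fin n) k) :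
    MvPolynomial (Fin n) k :=
  ∑ c ∈ p.support.filter Pd, monomial c (coeff c p)

open Classical in
theorem coeff_res (Pd : (Fin n →₀ ℕ) → Prop) (p : MvPolynomial (Fin n) k) (c : Fin n →₀ ℕ) :
    coeff c (res Pd p) = if Pd c then coeff c p else 0 := by
  unfold res
  rw [coeff_sum]
  simp only [coeff_monomial]
  rw [Finset.sum_ite_eq']
  by_cases h : Pd c
  · by_cases h2 : coeff c p = 0
    · simp [h2]
    · rw [if_pos h, if_pos]
      exact mem_filter.2 ⟨mem_support_iff.2 h2, h⟩
  · rw [if_neg h, if_neg]
    intro h2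
    exact h (mem_filter.1 h2).2

/-- Division by the variable `v` of the part not involving smaller variables. -/
noncomputable def Dv (v : Fin n) (p : MvPolynomial (Fin n) k) : MvPolynomial (Fin n) k :=
  (res (fun c => ∀ w < v, c w = 0) p).divMonomial (Finsupp.single v 1)

open Classical in
theorem coeff_Dv (v : Fin n) (p : MvPolynomial (Fin n) k) (c : Fin n →₀ ℕ) :
    coeff c (Dv v p) = if ∀ w < v, c w = 0 then coeff (Finsupp.single v 1 + c) p else 0 := by
  unfold Dv
  rw [coeff_divMonomial, coeff_res]
  have : (∀ w < v, (Finsupp.single v 1 + c : Fin n →₀ ℕ) w = 0) ↔ ∀ w < v, c w = 0 := by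
    apply forall_congr'
    intro w
    apply imp_congr_right
    intro hw
    rw [Finsupp.add_apply, Finsupp.single_eq_of_ne (ne_of_lt hw), zero_add]
  simp only [this]

theorem Dv_zero (v : Fin n) : Dv v (0 : MvPolynomial (Fin n) k) = 0 := by
  ext c
  rw [coeff_Dv]
  simp

/-- Homogeneous vectors of degree `e` in a free module with generators of degrees `deg`. -/
def HV (k : Type) [Field k] (n : ℕ) {b : ℕ} (deg : Fin b → ℕ) (e : ℕ) :
    AddSubgroup (Fin b → MvPolynomial (Fin n) k) where
  carrier := {v | ∀ j c, coeff c (v j) ≠ 0 → c.degree + deg j = e}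
  add_mem' := by
    intro v w hv hw j c h
    rw [Pi.add_apply, coeff_add] at h
    by_cases h1 : coeff c (v j) = 0
    · rw [h1, zero_add] at h
      exact hw j c h
    · exact hv j c h1
  zero_mem' := by
    intro j c h
    exact absurd (by simp) h
  neg_mem' := by
    intro v hv j c h
    rw [Pi.neg_apply, coeff_neg] at h
    exact hv j c (fun h' => h (by rw [h', neg_zero]))

theorem mem_HV {b : ℕ} {deg : Fin b → ℕ} {e : ℕ} {v : Fin b → MvPolynomial (Fin n) k} :
    v ∈ HV k n deg e ↔ ∀ j c, coeff c (v j) ≠ 0 → c.degree + deg j = e := Iff.rfl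

theorem HV_XG {b : ℕ} (deg : Fin b → ℕ) : XG k (n := n) (HV k n deg) := by
  classical
  intro e x t hx j c h
  rw [Pi.smul_apply, smul_eq_mul, coeff_X_mul'] at h
  split_ifs at h with h1
  · have h2 := hx j _ h
    have h3 : (c - Finsupp.single t 1) + Finsupp.single t 1 = c := by
      apply tsub_add_cancel_of_le
      rw [Finsupp.single_le_iff]
      exact Nat.one_le_iff_ne_zero.2 (Finsupp.mem_support_iff.1 h1)
    rw [← h3, map_add, Finsupp.degree_single]
    omega
  · exact absurd rfl h

theorem coeff_bd {b : ℕ} (f : Finset (Fin n) → (Fin b → MvPolynomial (Fin n) k))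
    (T : Finset (Fin n)) (j : Fin b) (c : Fin n →₀ ℕ) :
    coeff c (bd k f T j) = ∑ t ∈ univ \ T, (-1 : k) ^ (T.filter (· < t)).card *
      (if c t = 0 then 0 else coeff (c - Finsupp.single t 1) (f (insert t T) j)) := by
  classical
  unfold bd
  rw [Finset.sum_apply, coeff_sum]
  apply Finset.sum_congr rfl
  intro t _
  rw [Pi.smul_apply, smul_eq_mul]
  have h1 : (-1 : MvPolynomial (Fin n) k) ^ (T.filter (· < t)).card =
      C ((-1 : k) ^ (T.filter (· < t)).card) := by
    rw [map_pow, map_neg, map_one]
  rw [h1, mul_assoc, coeff_C_mul, coeff_X_mul']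
  congr 1
  by_cases h2 : c t = 0
  · rw [if_pos h2, if_neg]
    simpa using h2
  · rw [if_neg h2, if_pos]
    exact Finsupp.mem_support_iff.2 h2

open Classical in
/-- The contraction of the Koszul complex of a free module. -/
noncomputable def ctr {b : ℕ} (f : Finset (Fin n) → (Fin b → MvPolynomial (Fin n) k))
    (T : Finset (Fin n)) : Fin b → MvPolynomial (Fin n) k :=
  if h : T.Nonempty then fun j => Dv (T.min' h) (f (T.erase (T.min' h)) j) else 0

theorem ctr_eq {b : ℕ} (f : Finset (Fin n) → (Fin b → MvPolynomial (Fin n) k))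
    {T : Finset (Fin n)} {v : Fin n} (hv : v ∈ T) (hm : ∀ u ∈ T, v ≤ u) :
    ctr f T = fun j => Dv v (f (T.erase v) j) := by
  have h : T.Nonempty := ⟨v, hv⟩
  have h1 : T.min' h = v := le_antisymm (T.min'_le v hv) (hm _ (T.min'_mem h))
  unfold ctr
  rw [dif_pos h, h1]

/-- The Koszul complex of a graded free module is exact in positive homological degree, and in
high internal degree. -/
theorem kx_free {b : ℕ} (deg : Fin b → ℕ) {i d : ℕ} (h : 1 ≤ i ∨ ∀ j, deg j ≤ d) :
    KX k n (HV k n deg) i d := by
  classical
  intro f hf hfd hc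
  refine ⟨ctr f, ?_, ?_, ?_⟩
  · intro T hT
    unfold ctr
    split_ifs with h1
    · have h2 : (T.erase (T.min' h1)).card ≠ i := by
        rw [Finset.card_erase_of_mem (T.min'_mem h1)]
        have := Finset.card_pos.2 h1
        omega
      ext j
      simp [hf _ h2, Dv_zero]
    · rfl
  · intro T
    unfold ctr
    split_ifs with h1
    · intro j c hcoeff
      rw [coeff_Dv] at hcoeff
      split_ifs at hcoeff with h2
      · have h3 := hfd _ j _ hcoeff
        rw [map_add, Finsupp.degree_single] at h3
        omega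
      · exact absurd rfl hcoeff
    · exact AddSubgroup.zero_mem _
  · intro T
    funext j
    ext c
    rw [coeff_bd]
    by_cases hP : (c.support ∪ T).Nonempty
    · obtain ⟨v, hvP, hvm⟩ : ∃ v ∈ c.support ∪ T, ∀ u ∈ c.support ∪ T, v ≤ u :=
        ⟨_, Finset.min'_mem _ hP, fun u hu => Finset.min'_le _ u hu⟩
      have hlow : ∀ w < v, c w = 0 := by
        intro w hw
        by_contra h1
        exact absurd (hvm w (mem_union_left _ (Finsupp.mem_support_iff.2 h1))) (not_le.2 hw)
      by_cases hvT : v ∈ T
      · -- the minimum is in `T`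
        have hcyc := congrArg (coeff (Finsupp.single v 1 + c)) (congrFun (hc (T.erase v)) j)
        rw [coeff_bd, Pi.zero_apply, coeff_zero] at hcyc
        have hset : univ \ T.erase v = insert v (univ \ T) := by
          ext u
          simp only [mem_sdiff, mem_univ, true_and, mem_erase, mem_insert]
          tauto
        have hvn : v ∉ univ \ T := by simp [hvT]
        rw [hset, Finset.sum_insert hvn] at hcyc
        have hz : ((T.erase v).filter (· < v)).card = 0 := by
          rw [Finset.card_eq_zero, Finset.filter_eq_empty_iff]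
          intro u hu
          exact not_lt.2 (hvm u (mem_union_right _ (mem_of_mem_erase hu)))
        have hcv : ¬ (Finsupp.single v 1 + c : Fin n →₀ ℕ) v = 0 := by
          rw [Finsupp.add_apply, Finsupp.single_eq_same]; omega
        rw [hz, pow_zero, one_mul, if_neg hcv, Finset.insert_erase hvT, add_tsub_cancel_left] at hcyc
        rw [eq_neg_of_add_eq_zero_left hcyc, ← Finset.sum_neg_distrib]
        apply Finset.sum_congr rfl
        intro t ht
        have htT : t ∉ T := by simpa using ht
        have htv : t ≠ v := fun h' => htT (h' ▸ hvT)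
        have e1 : (Finsupp.single v 1 + c : Fin n →₀ ℕ) t = c t := by
          rw [Finsupp.add_apply, Finsupp.single_eq_of_ne htv, zero_add]
        rw [e1]
        by_cases hct : c t = 0
        · rw [if_pos hct, if_pos hct, mul_zero, mul_zero, neg_zero]
        · rw [if_neg hct, if_neg hct]
          have htP : t ∈ c.support ∪ T := mem_union_left _ (Finsupp.mem_support_iff.2 hct)
          have hvt : v < t := lt_of_le_of_ne (hvm t htP) (Ne.symm htv)
          have e2 : ctr f (insert t T) = fun j => Dv v (f ((insert t T).erase v) j) := by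
            apply ctr_eq f (mem_insert_of_mem hvT)
            intro u hu
            rcases mem_insert.1 hu with rfl | hu
            · exact hvt.le
            · exact hvm u (mem_union_right _ hu)
          have e3 : (insert t T).erase v = insert t (T.erase v) :=
            Finset.erase_insert_of_ne htv
          have e4 : ∀ w < v, (c - Finsupp.single t 1 : Fin n →₀ ℕ) w = 0 := by
            intro w hw
            rw [Finsupp.tsub_apply, hlow w hw, Nat.zero_sub]
          have e5 : Finsupp.single v 1 + (c - Finsupp.single t 1) =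
              Finsupp.single v 1 + c - Finsupp.single t 1 := by
            rw [add_tsub_assoc_of_le]
            rw [Finsupp.single_le_iff]
            exact Nat.one_le_iff_ne_zero.2 hct
          have e6 : (T.filter (· < t)).card = ((T.erase v).filter (· < t)).card + 1 := by
            rw [← Finset.insert_erase hvT, Finset.filter_insert, if_pos hvt,
              Finset.card_insert_of_notMem, Finset.insert_erase hvT]
            intro h'
            exact (Finset.mem_erase.1 (mem_filter.1 h').1).1 rfl
          rw [e2]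
          simp only
          rw [coeff_Dv, if_pos e4, e3, e5, e6, pow_succ]
          ring
      · -- the minimum is not in `T`
        have hvc : c v ≠ 0 := by
          rcases mem_union.1 hvP with h1 | h1
          · exact Finsupp.mem_support_iff.1 h1
          · exact absurd h1 hvT
        rw [Finset.sum_eq_single v]
        · have hz : (T.filter (· < v)).card = 0 := by
            rw [Finset.card_eq_zero, Finset.filter_eq_empty_iff]
            intro u hu
            exact not_lt.2 (hvm u (mem_union_right _ hu))
          have e2 : ctr f (insert v T) = fun j => Dv v (f ((insert v T).erase v) j) := by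
            apply ctr_eq f (mem_insert_self _ _)
            intro u hu
            rcases mem_insert.1 hu with rfl | hu
            · exact le_rfl
            · exact hvm u (mem_union_right _ hu)
          have e4 : ∀ w < v, (c - Finsupp.single v 1 : Fin n →₀ ℕ) w = 0 := by
            intro w hw
            rw [Finsupp.tsub_apply, hlow w hw, Nat.zero_sub]
          have e5 : Finsupp.single v 1 + (c - Finsupp.single v 1) = c := by
            apply add_tsub_cancel_of_le
            rw [Finsupp.single_le_iff]
            exact Nat.one_le_iff_ne_zero.2 hvc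
          rw [if_neg hvc, hz, pow_zero, one_mul, e2]
          simp only
          rw [coeff_Dv, if_pos e4, Finset.erase_insert hvT, e5]
        · intro t ht htv
          have htT : t ∉ T := by simpa using ht
          by_cases hct : c t = 0
          · rw [if_pos hct, mul_zero]
          · rw [if_neg hct]
            have htP : t ∈ c.support ∪ T := mem_union_left _ (Finsupp.mem_support_iff.2 hct)
            have hvt : v < t := lt_of_le_of_ne (hvm t htP) (Ne.symm htv)
            have hne : (insert t T).Nonempty := ⟨t, mem_insert_self _ _⟩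
            have hmm := (insert t T).min'_mem hne
            have hvm' : v < (insert t T).min' hne := by
              rcases mem_insert.1 hmm with h1 | h1
              · rw [h1]; exact hvt
              · exact lt_of_le_of_ne (hvm _ (mem_union_right _ h1)) (fun h' => hvT (h' ▸ h1))
            have e2 := ctr_eq f hmm (fun u hu => Finset.min'_le _ u hu)
            rw [e2]
            simp only
            rw [coeff_Dv, if_neg, mul_zero]
            intro h1
            have h2 := h1 v hvm'
            rw [Finsupp.tsub_apply, Finsupp.single_eq_of_ne (Ne.symm htv), Nat.sub_zero] at h2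
            exact hvc h2
        · intro h1
          exact absurd (by simp [hvT]) h1
    · -- multidegree zero
      rw [Finset.not_nonempty_iff_eq_empty, Finset.union_eq_empty] at hP
      obtain ⟨hc0, rfl⟩ := hP
      have hc0' : c = 0 := Finsupp.support_eq_empty.1 hc0
      subst hc0'
      rw [Finset.sum_eq_zero]
      · rcases h with h | h
        · rw [hf ∅ (by simp; omega)]
          simp
        · by_contra hne
          have h1 := hfd ∅ j 0 hne
          have h2 := h j
          simp at h1
          omega
      · intro t _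
        simp

end Res

end Pool.Agent.REG
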