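import Pool.Agent.REG.ResCommon

/-!
Graded maps between graded free modules, homogeneous components, and Koszul homology of ideals.
-/

set_option autoImplicit false

namespace Pool.Agent.REG

open Finset MvPolynomial

variable {k : Type} [Field k] {n : ℕ}

/-- Projection to the component of degree `e`. -/
noncomputable def pr {b : ℕ} (deg : Fin b → ℕ) (e : ℕ) (v : Fin b → MvPolynomial (Fin n) k) :
    Fin b → MvPolynomial (Fin n) k :=
  fun j => res (fun c => c.degree + deg j = e) (v j)

theorem coeff_pr {b : ℕ} (deg : Fin b → ℕ) (e : ℕ) (v : Fin b → MvPolynomial (Fin n) k)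
    (j : Fin b) (c : Fin n →₀ ℕ) :
    coeff c (pr deg e v j) = if c.degree + deg j = e then coeff c (v j) else 0 := by
  classical
  unfold pr
  rw [coeff_res]
  by_cases h : c.degree + deg j = e
  · rw [if_pos h, if_pos h]
  · rw [if_neg h, if_neg h]

theorem pr_mem {b : ℕ} (deg : Fin b → ℕ) (e : ℕ) (v : Fin b → MvPolynomial (Fin n) k) :
    pr deg e v ∈ HV k n deg e := by
  intro j c h
  rw [coeff_pr] at h
  by_contra h'
  exact h (if_neg h')

theorem pr_eq_self {b : ℕ} {deg : Fin b → ℕ} {e : ℕ} {v : Fin b → MvPolynomial (Fin n) k}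
    (h : v ∈ HV k n deg e) : pr deg e v = v := by
  funext j
  ext c
  rw [coeff_pr]
  by_cases h1 : coeff c (v j) = 0
  · rw [h1]; simp
  · rw [if_pos (h j c h1)]

theorem pr_eq_zero {b : ℕ} {deg : Fin b → ℕ} {e e' : ℕ} {v : Fin b → MvPolynomial (Fin n) k}
    (h : v ∈ HV k n deg e) (hne : e ≠ e') : pr deg e' v = 0 := by
  funext j
  ext c
  rw [coeff_pr, Pi.zero_apply, coeff_zero]
  by_cases h1 : coeff c (v j) = 0
  · rw [h1]; simp
  · rw [if_neg]
    intro h2
    exact hne ((h j c h1).symm.trans h2)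

/-- A vector is the sum of its components. -/
theorem exists_sum_pr {b : ℕ} (deg : Fin b → ℕ) (v : Fin b → MvPolynomial (Fin n) k) :
    ∃ E : ℕ, v = ∑ e ∈ range E, pr deg e v := by
  refine ⟨(∑ j, ((v j).totalDegree + deg j)) + 1, ?_⟩
  funext j
  ext c
  rw [Finset.sum_apply, coeff_sum]
  simp only [coeff_pr]
  by_cases h1 : coeff c (v j) = 0
  · rw [h1]; simp
  · rw [Finset.sum_ite_eq, if_pos]
    rw [mem_range]
    have h2 : c.degree ≤ (v j).totalDegree := by
      have := le_totalDegree (mem_support_iff.2 h1)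
      rw [Finsupp.degree_eq_sum]
      rw [Finsupp.sum_fintype _ _ (fun _ => rfl)] at this
      exact this
    have h3 : (v j).totalDegree + deg j ≤ ∑ j, ((v j).totalDegree + deg j) :=
      Finset.single_le_sum (f := fun j => (v j).totalDegree + deg j) (fun _ _ => Nat.zero_le _)
        (mem_univ j)
    omega

/-- `p` is homogeneous of degree `b - a`. -/
def HG (a b : ℕ) (p : MvPolynomial (Fin n) k) : Prop := ∀ c, coeff c p ≠ 0 → c.degree + a = b

theorem pr_mulVec {a b : ℕ} {dega : Fin a → ℕ} {degb : Fin b → ℕ}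
    {A : Matrix (Fin a) (Fin b) (MvPolynomial (Fin n) k)}
    (hA : ∀ s c, HG (dega s) (degb c) (A s c)) (e : ℕ) (w : Fin b → MvPolynomial (Fin n) k) :
    pr dega e (A.mulVec w) = A.mulVec (pr degb e w) := by
  classical
  funext s
  ext m
  rw [coeff_pr]
  simp only [Matrix.mulVec, dotProduct]
  rw [coeff_sum, coeff_sum]
  have key : ∀ c : Fin b, coeff m (A s c * pr degb e w c) =
      if m.degree + dega s = e then coeff m (A s c * w c) else 0 := by
    intro c
    rw [coeff_mul, coeff_mul]
    by_cases h : m.degree + dega s = e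
    · rw [if_pos h]
      apply Finset.sum_congr rfl
      rintro ⟨u, v⟩ huv
      rw [Finset.HasAntidiagonal.mem_antidiagonal] at huv
      simp only at huv ⊢
      by_cases h1 : coeff u (A s c) = 0
      · rw [h1]; simp
      · rw [coeff_pr, if_pos]
        have h2 := hA s c u h1
        rw [← huv, map_add] at h
        omega
    · rw [if_neg h]
      apply Finset.sum_eq_zero
      rintro ⟨u, v⟩ huv
      rw [Finset.HasAntidiagonal.mem_antidiagonal] at huv
      simp only at huv ⊢
      by_cases h1 : coeff u (A s c) = 0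
      · rw [h1]; simp
      · rw [coeff_pr, if_neg, mul_zero]
        have h2 := hA s c u h1
        rw [← huv, map_add] at h
        omega
  simp only [key]
  by_cases h : m.degree + dega s = e
  · simp only [if_pos h]
  · simp only [if_neg h, Finset.sum_const_zero]

theorem mulVec_mem {a b : ℕ} {dega : Fin a → ℕ} {degb : Fin b → ℕ}
    {A : Matrix (Fin a) (Fin b) (MvPolynomial (Fin n) k)}
    (hA : ∀ s c, HG (dega s) (degb c) (A s c)) {e : ℕ} {w : Fin b → MvPolynomial (Fin n) k}
    (hw : w ∈ HV k n degb e) : A.mulVec w ∈ HV k n dega e := by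
  rw [← pr_eq_self hw, ← pr_mulVec hA]
  exact pr_mem _ _ _

/-- Homogeneous elements of a submodule of a graded free module. -/
noncomputable def GM {a : ℕ} (deg : Fin a → ℕ) (M : Submodule (MvPolynomial (Fin n) k)
    (Fin a → MvPolynomial (Fin n) k)) (e : ℕ) : AddSubgroup (Fin a → MvPolynomial (Fin n) k) :=
  HV k n deg e ⊓ M.toAddSubgroup

theorem mem_GM {a : ℕ} {deg : Fin a → ℕ} {M : Submodule (MvPolynomial (Fin n) k)
    (Fin a → MvPolynomial (Fin n) k)} {e : ℕ} {x : Fin a → MvPolynomial (Fin n) k} :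
    x ∈ GM deg M e ↔ x ∈ HV k n deg e ∧ x ∈ M := Iff.rfl

theorem GM_XG {a : ℕ} (deg : Fin a → ℕ) (M : Submodule (MvPolynomial (Fin n) k)
    (Fin a → MvPolynomial (Fin n) k)) : XG k (n := n) (GM deg M) := by
  intro e x t hx
  exact ⟨HV_XG deg e x t hx.1, M.smul_mem _ hx.2⟩

section Range

variable {a b : ℕ} {dega : Fin a → ℕ} {degb : Fin b → ℕ}
  {A : Matrix (Fin a) (Fin b) (MvPolynomial (Fin n) k)}

theorem range_map (hA : ∀ s c, HG (dega s) (degb c) (A s c)) :
    ∀ e, ∀ x ∈ HV k n degb e, A.mulVecLin x ∈ GM dega (LinearMap.range A.mulVecLin) e := by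
  intro e x hx
  exact ⟨mulVec_mem hA hx, ⟨x, rfl⟩⟩

theorem range_surj (hA : ∀ s c, HG (dega s) (degb c) (A s c)) :
    ∀ e, ∀ y ∈ GM dega (LinearMap.range A.mulVecLin) e, ∃ x ∈ HV k n degb e,
      A.mulVecLin x = y := by
  rintro e y ⟨hy, ⟨w, hw⟩⟩
  refine ⟨pr degb e w, pr_mem _ _ _, ?_⟩
  rw [Matrix.mulVecLin_apply, ← pr_mulVec hA, ← Matrix.mulVecLin_apply, hw, pr_eq_self hy]

theorem GK_eq_GM : GK k A.mulVecLin (HV k n degb) = GM degb (LinearMap.ker A.mulVecLin) := rfl

/-- Koszul exactness of the image of a homogeneous matrix, homological degree `0`. -/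
theorem kx_range_zero (hA : ∀ s c, HG (dega s) (degb c) (A s c)) {d : ℕ} (hd : ∀ c, degb c ≤ d) :
    KX k n (GM dega (LinearMap.range A.mulVecLin)) 0 d :=
  kx_quot_zero k A.mulVecLin (range_map hA) (range_surj hA) (kx_free degb (Or.inr hd))

/-- Koszul exactness of the image of a homogeneous matrix, positive homological degree. -/
theorem kx_range_succ (hA : ∀ s c, HG (dega s) (degb c) (A s c)) {i d : ℕ}
    (h : KX k n (GM degb (LinearMap.ker A.mulVecLin)) i (d + 1)) :
    KX k n (GM dega (LinearMap.range A.mulVecLin)) (i + 1) d :=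
  kx_quot_succ k A.mulVecLin (HV_XG degb) (range_map hA) (range_surj hA)
    (kx_free degb (Or.inl (by omega))) (by rw [GK_eq_GM]; exact h)

/-- Koszul exactness of the kernel of a homogeneous matrix. -/
theorem kx_kernel (hA : ∀ s c, HG (dega s) (degb c) (A s c)) {i d : ℕ}
    (hd : 1 ≤ i ∨ ∀ c, degb c ≤ d + 1)
    (h : KX k n (GM dega (LinearMap.range A.mulVecLin)) (i + 1) d) :
    KX k n (GM degb (LinearMap.ker A.mulVecLin)) i (d + 1) := by
  rw [← GK_eq_GM]
  exact kx_ker k A.mulVecLin (HV_XG degb) (range_map hA) (range_surj hA) (kx_free degb hd) h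

/-- The kernel of a homogeneous matrix is graded. -/
theorem ker_graded (hA : ∀ s c, HG (dega s) (degb c) (A s c)) :
    ∀ v ∈ LinearMap.ker A.mulVecLin, ∀ e, pr degb e v ∈ LinearMap.ker A.mulVecLin := by
  intro v hv e
  rw [LinearMap.mem_ker, Matrix.mulVecLin_apply] at hv ⊢
  rw [← pr_mulVec hA, hv]
  funext j
  ext c
  rw [coeff_pr]
  simp

end Range

/-- The ideal as a submodule of a free module of rank one. -/
noncomputable def J1 (J : Ideal (MvPolynomial (Fin n) k)) : Submodule (MvPolynomial (Fin n) k)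
    (Fin 1 → MvPolynomial (Fin n) k) where
  carrier := {v | v 0 ∈ J}
  add_mem' := fun h1 h2 => J.add_mem h1 h2
  zero_mem' := J.zero_mem
  smul_mem' := fun c _ h => J.mul_mem_left c h

theorem mem_J1 {J : Ideal (MvPolynomial (Fin n) k)} {v : Fin 1 → MvPolynomial (Fin n) k} :
    v ∈ J1 J ↔ v 0 ∈ J := Iff.rfl

theorem homog_iff {d : ℕ} {p : MvPolynomial (Fin n) k} :
    p.IsHomogeneous d ↔ ∀ c, coeff c p ≠ 0 → c.degree = d := by
  constructor
  · intro h c hc
    rw [Finsupp.degree_eq_weight_one]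
    exact h hc
  · intro h c hc
    have := h c hc
    rw [Finsupp.degree_eq_weight_one] at this
    exact this

theorem mem_GM_J1 {J : Ideal (MvPolynomial (Fin n) k)} {e : ℕ}
    {v : Fin 1 → MvPolynomial (Fin n) k} :
    v ∈ GM (fun _ => 0) (J1 J) e ↔ v 0 ∈ J ∧ (v 0).IsHomogeneous e := by
  rw [mem_GM, mem_J1, homog_iff]
  constructor
  · rintro ⟨h1, h2⟩
    exact ⟨h2, fun c hc => by simpa using h1 0 c hc⟩
  · rintro ⟨h1, h2⟩
    refine ⟨?_, h1⟩
    intro j c hc
    have hj : j = 0 := Subsingleton.elim _ _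
    subst hj
    simpa using h2 c hc

theorem kosEx_iff {J : Ideal (MvPolynomial (Fin n) k)} {i d : ℕ} :
    KosEx k J i (d + 1) ↔ KX k n (GM (fun _ : Fin 1 => 0) (J1 J)) i d := by
  constructor
  · intro h f hf hfd hc
    obtain ⟨g, hg1, hg2, hg3⟩ := h (fun T => f T 0)
      (fun T hT => by simp only [hf T hT, Pi.zero_apply]) (fun T => mem_GM_J1.1 (hfd T))
      (fun T => by
        have h1 := congrFun (hc T) 0
        unfold bd at h1
        rw [Finset.sum_apply] at h1
        exact h1)
    refine ⟨fun T _ => g T, fun T hT => by funext j; exact hg1 T hT,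
      fun T => mem_GM_J1.2 (hg2 T), ?_⟩
    intro T
    funext j
    have hj : j = 0 := Subsingleton.elim _ _
    subst hj
    unfold bd
    rw [Finset.sum_apply]
    exact hg3 T
  · intro h f hf hfd hc
    obtain ⟨g, hg1, hg2, hg3⟩ := h (fun T _ => f T) (fun T hT => by funext j; exact hf T hT)
      (fun T => mem_GM_J1.2 (hfd T)) (fun T => by
        funext j
        unfold bd
        rw [Finset.sum_apply]
        exact hc T)
    refine ⟨fun T => g T 0, fun T hT => by simp only [hg1 T hT, Pi.zero_apply],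
      fun T => mem_GM_J1.1 (hg2 T), ?_⟩
    intro T
    have h1 := congrFun (hg3 T) 0
    unfold bd at h1
    rw [Finset.sum_apply] at h1
    exact h1

end Pool.Agent.REG
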