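import Pool.Agent.REG.Defs

/-!
Exact targets of the jobs (each is a `Prop`; prove `theorem target_xxx : Target_xxx` or the same
statement unfolded with the arguments explicit).
-/

set_option autoImplicit false

namespace Pool.Agent.REG

open Finset

/-! ### Job LES (file LES.lean) -/

/-- Cones are acyclic. -/
def TConeT : Prop := ∀ (k : Type) [Field k] (U : Type) [LinearOrder U] (K : Finset U → Prop),
  Down K → ∀ w : U, (∀ T, K T → K (insert w T)) → ∀ t : ℤ, Van k K t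

/-- Mayer-Vietoris for deletion and link. -/
def TGlue : Prop := ∀ (k : Type) [Field k] (U : Type) [LinearOrder U] (K : Finset U → Prop),
  Down K → ∀ (w : U) (t : ℤ), Van k (del w K) t → Van k (lk w K) (t - 1) → Van k K t

def TDel : Prop := ∀ (k : Type) [Field k] (U : Type) [LinearOrder U] (K : Finset U → Prop),
  Down K → ∀ (w : U) (t : ℤ), Van k K t → Van k (lk w K) t → Van k (del w K) t

def TLk : Prop := ∀ (k : Type) [Field k] (U : Type) [LinearOrder U] (K : Finset U → Prop),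
  Down K → ∀ (w : U) (t : ℤ), Van k K t → Van k (del w K) (t - 1) → Van k (lk w K) (t - 1)

/-- Invariance under order embeddings of the vertex type. -/
def TEmb : Prop := ∀ (k : Type) [Field k] (U U' : Type) [LinearOrder U] [LinearOrder U']
  (e : U ↪o U') (K : Finset U → Prop) (t : ℤ),
  Van k K t ↔ Van k (fun T' : Finset U' => ∃ T, K T ∧ T' = T.map e.toEmbedding) t

/-- Triple of complexes `Z ≤ Y ≤ X` avoiding `w`. -/
def TTripleMid : Prop := ∀ (k : Type) [Field k] (U : Type) [LinearOrder U]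
  (X Y Z : Finset U → Prop), Down X → Down Y → Down Z → (∀ T, Y T → X T) → (∀ T, Z T → Y T) →
  ∀ w : U, (∀ T, X T → w ∉ T) → ∀ t : ℤ,
    Van k (Co w X Z) t → Van k (Co w Y Z) (t - 1) → Van k (Co w X Y) t

def TTripleTrans : Prop := ∀ (k : Type) [Field k] (U : Type) [LinearOrder U]
  (X Y Z : Finset U → Prop), Down X → Down Y → Down Z → (∀ T, Y T → X T) → (∀ T, Z T → Y T) →
  ∀ w : U, (∀ T, X T → w ∉ T) → ∀ t : ℤ,
    Van k (Co w X Y) t → Van k (Co w Y Z) t → Van k (Co w X Z) t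

/-! ### Job TAKA (file Taka.lean): Koszul type complexes versus degree complexes -/

def TTakaUp : Prop := ∀ (k : Type) [Field k] (V : Type) [LinearOrder V] [Fintype V]
  (mem : (V → ℕ) → Prop) (N : ℕ), UpMem mem → CapMem mem N → ∀ (P : Finset V) (R : ℤ),
  (∀ a : V → ℕ, (∀ v, v ∉ P → a v = 0) → Van k (KA mem P P N a) (R - ((∑ v, a v : ℕ) : ℤ))) →
  (∀ a : V → ℕ, (∀ v, v ∉ P → a v = 0) → Van k (KA mem P ∅ N a) (R - ((∑ v, a v : ℕ) : ℤ)))

def TTakaDown : Prop := ∀ (k : Type) [Field k] (V : Type) [LinearOrder V] [Fintype V]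
  (mem : (V → ℕ) → Prop) (N : ℕ), UpMem mem → CapMem mem N → ∀ (P : Finset V) (R : ℤ),
  (∀ a : V → ℕ, (∀ v, v ∉ P → a v = 0) → Van k (KA mem P ∅ N a) (R - ((∑ v, a v : ℕ) : ℤ))) →
  (∀ a : V → ℕ, (∀ v, v ∉ P → a v = 0) → Van k (KA mem P P N a) (R - ((∑ v, a v : ℕ) : ℤ)))

/-! ### Job IND (files Match.lean, Induct.lean, Upper.lean): the heart -/

/-- The main induction. `S` meets every component of `Γ[C \ R]` (witness: the height `d`). -/
def TInduct : Prop := ∀ (k : Type) [Field k] (U : Type) [LinearOrder U] (Γ : SimpleGraph U)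
  (L : Finset U → Prop) (r : ℤ) (C₀ : Finset U), Down L → Van k L r →
  (∀ T, L T → Disjoint T C₀) →
  ∀ (C R S : Finset U) (q : ℤ) (d : U → ℕ), C ⊆ C₀ → R ⊆ C → Sat Γ C R → S ⊆ C \ R →
    (∀ x ∈ C \ R, x ∉ S → ∃ y ∈ C \ R, Γ.Adj x y ∧ d y < d x) →
    Van k (KF Γ L C R q) (r + 2 * q + (S.card : ℤ) - (C.card : ℤ))

/-- The abstract upper bound. -/
def TUpper : Prop := ∀ (k : Type) [Field k] (U : Type) [LinearOrder U] (Γ : SimpleGraph U)
  (V C : Finset U), Disjoint V C → (∀ c ∈ C, ∃ v ∈ V, ∀ u, Γ.Adj v u ↔ Γ.Adj c u) →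
  ∀ (r ρ q : ℤ), (∀ W, W ⊆ V → Van k (IndF Γ W) r) →
  (∀ u ∈ V, ∀ v ∈ V, Γ.Adj u v → ∀ W, W ⊆ V → (∀ x ∈ W, ¬ Γ.Adj u x ∧ ¬ Γ.Adj v x) →
    Van k (IndF Γ W) ρ) →
  Van k (XF Γ V C C q) (max (q + r) (2 * q + 1 + ρ) - (C.card : ℤ))

/-! ### Job MONO (file Mono.lean): membership in powers of the edge ideal -/

def TMemPow : Prop := ∀ (k : Type) [Field k] (n : ℕ) (G : SimpleGraph (Fin n)) (s : ℕ)
  (f : MvPolynomial (Fin n) k),
  f ∈ edgeIdeal k n G ^ s ↔ ∀ c ∈ f.support, memP G s (fun v => c v)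

/-! ### Job BLOW (file Blow.lean): degree complexes of powers and matchings -/

/-- The infinite blow-up of a graph on `Fin n`. -/
def Blow {n : ℕ} (G : SimpleGraph (Fin n)) : SimpleGraph (ℕ ×ₗ Fin n) :=
  G.comap (fun p => (ofLex p).2)

/-- Bottom copy of a vertex. -/
def bot0 (n : ℕ) : Fin n ↪o ℕ ×ₗ Fin n :=
  OrderEmbedding.ofStrictMono (fun v => toLex ((0 : ℕ), v)) (by
    intro a b h
    exact Prod.Lex.toLex_lt_toLex.mpr (Or.inr ⟨rfl, h⟩))

/-- `a v` further copies of each vertex `v`. -/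
def Cop {n : ℕ} (a : Fin n → ℕ) : Finset (ℕ ×ₗ Fin n) :=
  ((Finset.univ : Finset (Fin n)).biUnion
    (fun v => (Finset.range (a v)).image (fun j => toLex (j + 1, v))))

def TBlow : Prop := ∀ (k : Type) [Field k] (n : ℕ) (G : SimpleGraph (Fin n)) (q N : ℕ)
  (P : Finset (Fin n)) (a : Fin n → ℕ), q ≤ N → (∀ v, v ∉ P → a v = 0) →
  ∀ T' : Finset (ℕ ×ₗ Fin n),
    XF (Blow G) (P.map (bot0 n).toEmbedding) (Cop a) (Cop a) q T' ↔
      ∃ T, KA (memP G (q + 1)) P P N a T ∧ T' = T.map (bot0 n).toEmbedding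

def TInd1 : Prop := ∀ (n : ℕ) (G : SimpleGraph (Fin n)) (s N : ℕ) (W : Finset (Fin n))
  (v : Fin n), 1 ≤ s → s ≤ N + 1 → v ∈ W → ∀ T,
    KA (memP G s) W W N (fun x => if x = v then s - 1 else 0) T ↔ IndF G W T

def TInd2 : Prop := ∀ (n : ℕ) (G : SimpleGraph (Fin n)) (s N : ℕ) (W : Finset (Fin n))
  (u v : Fin n), 1 ≤ s → s ≤ N + 1 → G.Adj u v → (∀ x ∈ W, ¬ G.Adj u x ∧ ¬ G.Adj v x) → ∀ T,
    KA (memP G s) (insert u (insert v W)) (insert u (insert v W)) N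
      (fun x => if x = u ∨ x = v then s - 1 else 0) T ↔ IndF G (insert u (insert v W)) T

def TUpMem : Prop := ∀ (n : ℕ) (G : SimpleGraph (Fin n)) (s : ℕ), UpMem (memP G s)

def TCapMem : Prop := ∀ (n : ℕ) (G : SimpleGraph (Fin n)) (s N : ℕ), s ≤ N →
  CapMem (memP G s) N

/-! ### Job KOS (file Kosz.lean): Koszul homology of monomial ideals -/

def TKos : Prop := ∀ (k : Type) [Field k] (n : ℕ) (mem : (Fin n → ℕ) → Prop), UpMem mem →
  ∀ (J : Ideal (MvPolynomial (Fin n) k)),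
    (∀ f, f ∈ J ↔ ∀ c ∈ f.support, mem (fun v => c v)) → ∀ ρ : ℕ,
  ((∀ i d : ℕ, ρ < d → KosEx k J i d) ↔
    ∀ P : Finset (Fin n), P.Nonempty → ∀ a : Fin n → ℕ, (∀ v, v ∉ P → a v = 0) →
      Van k (KA mem P ∅ 0 a) ((ρ : ℤ) - 1 - ((∑ v, a v : ℕ) : ℤ)))

/-! ### Jobs RESA, RESB: graded free resolutions versus Koszul homology -/

/-- `J` is homogeneous. -/
def Homog {k : Type} [Field k] {n : ℕ} (J : Ideal (MvPolynomial (Fin n) k)) : Prop :=
  ∀ f ∈ J, ∀ d : ℕ, MvPolynomial.homogeneousComponent d f ∈ J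

def TResA : Prop := ∀ (k : Type) [Field k] (n : ℕ) (J : Ideal (MvPolynomial (Fin n) k)) (r : ℕ),
  RegLE k J r → ∀ i d : ℕ, r < d → KosEx k J i d

def TResB : Prop := ∀ (k : Type) [Field k] (n : ℕ) (J : Ideal (MvPolynomial (Fin n) k)) (r : ℕ),
  Homog J → (∀ i d : ℕ, r < d → KosEx k J i d) → RegLE k J r

/-! ### Assembly (file Main.lean) -/

/-- The exact formula for the regularity of all powers, in the form `reg I^s ≤ ρ ↔ ...`. -/
def TFormula : Prop := ∀ (k : Type) [Field k] (n : ℕ) (G : SimpleGraph (Fin n)) (s ρ : ℕ),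
  (∃ u v, G.Adj u v) → 1 ≤ s →
  (RegLE k (edgeIdeal k n G ^ s) ρ ↔
    (∀ W : Finset (Fin n), Van k (IndF G W) ((ρ : ℤ) - s)) ∧
    (∀ u v : Fin n, G.Adj u v → ∀ W : Finset (Fin n), (∀ x ∈ W, ¬ G.Adj u x ∧ ¬ G.Adj v x) →
      Van k (IndF G W) ((ρ : ℤ) - 2 * s)))

end Pool.Agent.REG
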